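import Pool.Agent.Helper63.Levin.Rect

/-!
Construction of elements of the space which look like exponentials on a large interval.
-/

namespace Pool.Agent.Helper63.Levin

open Metric Set Complex Filter Topology Bornology MeasureTheory
open scoped ComplexConjugate Interval

/-- The local model: an exponential with a Gaussian cutoff, normalised at `x0`. -/
noncomputable def mdl (w : ℂ → ℂ) (x0 b : ℝ) (l : ℂ) (u : ℂ) : ℂ :=
  w x0 * Complex.exp (l * (u - x0) - (b : ℂ) ^ 2 * (u - x0) ^ 2)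

lemma mdl_diff (w : ℂ → ℂ) (x0 b : ℝ) (l : ℂ) : Differentiable ℂ (mdl w x0 b l) := by
  unfold mdl
  fun_prop

lemma norm_mdl (w : ℂ → ℂ) (x0 b : ℝ) (l u : ℂ) :
    ‖mdl w x0 b l u‖ = ‖w x0‖ *
      Real.exp (l.re * (u.re - x0) - l.im * u.im - b ^ 2 * ((u.re - x0) ^ 2 - u.im ^ 2)) := by
  unfold mdl
  rw [norm_mul, Complex.norm_exp]
  congr 2
  have : ((b : ℂ) ^ 2 * (u - x0) ^ 2).re = b ^ 2 * ((u.re - x0) ^ 2 - u.im ^ 2) := by
    rw [← ofReal_pow, Complex.re_ofReal_mul]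
    congr 1
    simp [sq]
  rw [Complex.sub_re, this]
  simp

/-- The condition used in the construction. -/
def Cond (w : ℂ → ℂ) (x0 κ t C R H : ℝ) : Prop :=
  ∀ s y : ℝ, |s| ≤ R → 0 ≤ y → y ≤ H →
    Real.exp (κ * s + t * y) * ‖w x0‖ ≤ C * ‖w (x0 + s + y * I)‖

lemma norm_mdl_le {w : ℂ → ℂ} {x0 b t C R H : ℝ} {l : ℂ} (hc : Cond w x0 l.re t C R H) {u : ℂ}
    (h1 : |u.re - x0| ≤ R) (h2 : |u.im| ≤ H) :
    ‖mdl w x0 b l u‖ ≤ C * Real.exp (-(b ^ 2 * ((u.re - x0) ^ 2 - u.im ^ 2)) -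
      (t - |l.im|) * |u.im|) * ‖w (fold u)‖ := by
  have hc1 := hc (u.re - x0) |u.im| h1 (abs_nonneg _) h2
  have e1 : (x0 : ℂ) + ((u.re - x0 : ℝ) : ℂ) + ((|u.im| : ℝ) : ℂ) * I = fold u := by
    apply Complex.ext <;> simp [fold]
  rw [e1] at hc1
  rw [norm_mdl]
  have e2 : -(l.im * u.im) ≤ |l.im| * |u.im| := by
    rw [← abs_mul]; exact neg_le_abs _
  calc ‖w x0‖ * Real.exp (l.re * (u.re - x0) - l.im * u.im - b ^ 2 * ((u.re - x0) ^ 2 - u.im ^ 2))
      ≤ ‖w x0‖ * Real.exp ((l.re * (u.re - x0) + t * |u.im|) +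
        (-(b ^ 2 * ((u.re - x0) ^ 2 - u.im ^ 2)) - (t - |l.im|) * |u.im|)) := by
        gcongr
        linarith
    _ = Real.exp (l.re * (u.re - x0) + t * |u.im|) * ‖w x0‖ *
        Real.exp (-(b ^ 2 * ((u.re - x0) ^ 2 - u.im ^ 2)) - (t - |l.im|) * |u.im|) := by
        rw [Real.exp_add]; ring
    _ ≤ C * ‖w (fold u)‖ *
        Real.exp (-(b ^ 2 * ((u.re - x0) ^ 2 - u.im ^ 2)) - (t - |l.im|) * |u.im|) := by gcongr
    _ = _ := by ring

/-- Elementary Gaussian bound. -/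
lemma gauss_le (v : ℝ) : (1 + |v|) * Real.exp (-v ^ 2) ≤ 2 / (1 + v ^ 2) := by
  rw [le_div_iff₀ (by positivity), Real.exp_neg]
  have h1 : 1 + v ^ 2 + (v ^ 2) ^ 2 / 2 ≤ Real.exp (v ^ 2) :=
    Real.quadratic_le_exp_of_nonneg (sq_nonneg v)
  rw [mul_comm, ← mul_assoc, mul_inv_le_iff₀ (Real.exp_pos _)]
  have h2 : (1 + v ^ 2) * (1 + |v|) ≤ 2 * (1 + v ^ 2 + (v ^ 2) ^ 2 / 2) := by
    have h3 : v ^ 2 = |v| ^ 2 := (sq_abs v).symm
    rw [h3]
    have h4 := abs_nonneg v
    nlinarith [sq_nonneg (|v| - 1), sq_nonneg (|v| ^ 2 - |v| / 2), sq_nonneg (|v|)]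
  linarith

namespace Wt

variable {σ : ℝ} {w : ℂ → ℂ} {K : ℝ} (h : Wt σ w K)
include h

lemma sharp_ne {u : ℂ} (hu : u.im ≤ 0) : sharp w u ≠ 0 := by
  have := h.ne_zero (z := conj u) (by simpa using hu)
  unfold sharp
  simpa using this

omit h in
lemma norm_sharp_fold {u : ℂ} (hu : u.im ≤ 0) : ‖sharp w u‖ = ‖w (fold u)‖ := by
  rw [norm_sharp, fold_of_nonpos hu]

/-- The element. -/
noncomputable def fel (x0 b R : ℝ) (l : ℂ) : ESpace σ w :=
  have := h.complete
  ∫ t in (x0 - R)..(x0 + R), (mdl w x0 b l t / sharp w t) • h.Kt t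

lemma coef_cont (x0 b : ℝ) (l : ℂ) : Continuous fun t : ℝ => mdl w x0 b l t / sharp w t := by
  apply Continuous.div
  · exact (mdl_diff w x0 b l).continuous.comp Complex.continuous_ofReal
  · exact (sharp_diff h.diff).continuous.comp Complex.continuous_ofReal
  · intro t
    exact h.sharp_ne (by simp)

lemma fel_apply (x0 b R : ℝ) (l z : ℂ) :
    h.fel x0 b R l z =
      ∫ t in (x0 - R)..(x0 + R), (mdl w x0 b l t / sharp w t) * h.Kt t z := by
  have := h.complete
  have hint : IntervalIntegrable (fun t : ℝ => (mdl w x0 b l t / sharp w t) • h.Kt t) volume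
      (x0 - R) (x0 + R) :=
    ((h.coef_cont x0 b l).smul h.Kt_cont).intervalIntegrable _ _
  have e1 := (h.ev z).intervalIntegral_comp_comm hint
  have e2 : h.fel x0 b R l z = h.ev z (∫ t in (x0 - R)..(x0 + R),
      (mdl w x0 b l t / sharp w t) • h.Kt t) := rfl
  rw [e2, ← e1]
  rfl

lemma coef_le {x0 b t C R H : ℝ} {l : ℂ} (hc : Cond w x0 l.re t C R H) (hH : 0 ≤ H) {v : ℝ}
    (hv : |v - x0| ≤ R) :
    ‖mdl w x0 b l v / sharp w v‖ ≤ C * Real.exp (-(b * (v - x0)) ^ 2) := by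
  have h1 := norm_mdl_le (b := b) hc (u := (v : ℂ)) (by simpa using hv) (by simpa using hH)
  have hw := h.norm_pos (z := (v : ℂ)) (by simp)
  rw [norm_div, norm_sharp_real, div_le_iff₀ hw]
  rw [fold_real] at h1
  have e1 : -(b ^ 2 * (((v : ℂ).re - x0) ^ 2 - (v : ℂ).im ^ 2)) - (t - |l.im|) * |(v : ℂ).im| =
      -(b * (v - x0)) ^ 2 := by
    simp
    ring
  rw [e1] at h1
  exact h1

lemma Kt_real_le (t x : ℝ) : |x - t| * ‖h.Kt t x‖ ≤ 2 * ‖w x‖ := by
  by_cases hx : x = t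
  · rw [hx]; simp
  have hne : 0 < |x - t| := abs_pos.2 (sub_ne_zero.2 hx)
  have e1 : h.Kt t x = w x * ((h.Ws x / w x - h.Ws t / w t) / (x - t)) := h.B_apply _ hx
  have e2 : ‖(x : ℂ) - t‖ = |x - t| := by
    rw [← ofReal_sub, norm_real, Real.norm_eq_abs]
  have e3 : ∀ y : ℝ, ‖h.Ws y / w y‖ = 1 := by
    intro y
    rw [norm_div, Ws_apply, norm_sharp_real, div_self (h.norm_pos (by simp)).ne']
  rw [e1, norm_mul, norm_div, e2]
  have e4 : ‖h.Ws x / w x - h.Ws t / w t‖ ≤ 2 := by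
    refine (norm_sub_le _ _).trans ?_
    rw [e3, e3]; norm_num
  calc |x - t| * (‖w x‖ * (‖h.Ws x / w x - h.Ws t / w t‖ / |x - t|))
      = ‖h.Ws x / w x - h.Ws t / w t‖ * ‖w x‖ := by field_simp
    _ ≤ 2 * ‖w x‖ := by gcongr

/-- Decay of the constructed element. -/
lemma fel_decay {x0 b t C R H : ℝ} {l : ℂ} (hc : Cond w x0 l.re t C R H) (hH : 0 ≤ H)
    (hR : 0 ≤ R) (hb : 0 < b) (hb1 : b ≤ 1) (hC : 0 ≤ C) (x : ℝ) :
    |x - x0| * ‖h.fel x0 b R l x‖ ≤
      C * (2 + (Real.exp K + K)) * (2 * Real.pi / b ^ 2) * ‖w x‖ := by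
  have hK := h.K_nonneg
  set A := Real.exp K + K with hA
  have hA0 : 0 ≤ A := by positivity
  have hab : x0 - R ≤ x0 + R := by linarith
  have e1 : ‖((x - x0 : ℝ) : ℂ) * h.fel x0 b R l x‖ = |x - x0| * ‖h.fel x0 b R l x‖ := by
    rw [norm_mul, norm_real, Real.norm_eq_abs]
  rw [← e1, fel_apply, ← intervalIntegral.integral_const_mul]
  set g : ℝ → ℝ := fun v => C * (2 + A) * ‖w x‖ * (1 / b) * (2 / (1 + (b * (v - x0)) ^ 2)) with hg
  have hgc : Continuous g := by
    rw [hg]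
    apply Continuous.mul continuous_const
    apply Continuous.div continuous_const (by fun_prop)
    intro v
    positivity
  have hle : ∀ v ∈ Ι (x0 - R) (x0 + R),
      ‖((x - x0 : ℝ) : ℂ) * (mdl w x0 b l v / sharp w v * h.Kt v x)‖ ≤ g v := by
    intro v hv
    rw [uIoc_of_le hab] at hv
    have hvR : |v - x0| ≤ R := by
      rw [abs_le]; constructor <;> linarith [hv.1, hv.2]
    have f1 := h.coef_le (b := b) hc hH hvR
    have f2 := h.Kt_real_le v x
    have f3 : ‖h.Kt v x‖ ≤ A * ‖w x‖ := by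
      refine ((h.Kt v).le_norm x).trans ?_
      have := h.norm_Kt_le v
      gcongr
    have f4 : |x - x0| ≤ |x - v| + |v - x0| := by
      have : x - x0 = (x - v) + (v - x0) := by ring
      rw [this]
      exact abs_add_le _ _
    have f5 : |x - x0| * ‖h.Kt v x‖ ≤ (2 + A) * (1 + |v - x0|) * ‖w x‖ := by
      calc |x - x0| * ‖h.Kt v x‖ ≤ (|x - v| + |v - x0|) * ‖h.Kt v x‖ := by gcongr
        _ = |x - v| * ‖h.Kt v x‖ + |v - x0| * ‖h.Kt v x‖ := by ring
        _ ≤ 2 * ‖w x‖ + |v - x0| * (A * ‖w x‖) := by gcongr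
        _ ≤ _ := by
          have p1 := abs_nonneg (v - x0)
          have p2 := norm_nonneg (w x)
          have p3 : 0 ≤ (A + 2 * |v - x0|) * ‖w x‖ := by positivity
          nlinarith
    have f6 : (1 + |v - x0|) ≤ (1 / b) * (1 + |b * (v - x0)|) := by
      rw [abs_mul, abs_of_pos hb, one_div, ← div_eq_inv_mul, le_div_iff₀ hb]
      have p1 := abs_nonneg (v - x0)
      nlinarith
    have f7 := gauss_le (b * (v - x0))
    rw [norm_mul, norm_mul, norm_real, Real.norm_eq_abs]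
    calc |x - x0| * (‖mdl w x0 b l v / sharp w v‖ * ‖h.Kt v x‖)
        = ‖mdl w x0 b l v / sharp w v‖ * (|x - x0| * ‖h.Kt v x‖) := by ring
      _ ≤ (C * Real.exp (-(b * (v - x0)) ^ 2)) * ((2 + A) * (1 + |v - x0|) * ‖w x‖) := by gcongr
      _ ≤ (C * Real.exp (-(b * (v - x0)) ^ 2)) *
          ((2 + A) * ((1 / b) * (1 + |b * (v - x0)|)) * ‖w x‖) := by gcongr
      _ = C * (2 + A) * ‖w x‖ * (1 / b) *
          ((1 + |b * (v - x0)|) * Real.exp (-(b * (v - x0)) ^ 2)) := by ring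
      _ ≤ C * (2 + A) * ‖w x‖ * (1 / b) * (2 / (1 + (b * (v - x0)) ^ 2)) :=
        mul_le_mul_of_nonneg_left f7 (by positivity)
  refine (intervalIntegral.norm_integral_le_of_norm_le hab
    (Eventually.of_forall fun v hv => hle v (by rwa [uIoc_of_le hab]))
    (hgc.intervalIntegrable _ _)).trans ?_
  have hder : ∀ v ∈ uIcc (x0 - R) (x0 + R),
      HasDerivAt (fun v => C * (2 + A) * ‖w x‖ * (1 / b) * (2 / b * Real.arctan (b * (v - x0))))
        (g v) v := by
    intro v _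
    have p1 : HasDerivAt (fun v : ℝ => b * (v - x0)) b v := by
      have := ((hasDerivAt_id v).sub_const x0).const_mul b
      simpa using this
    have p2 := ((p1.arctan).const_mul (2 / b)).const_mul (C * (2 + A) * ‖w x‖ * (1 / b))
    have p3 : C * (2 + A) * ‖w x‖ * (1 / b) * (2 / b * (1 / (1 + (b * (v - x0)) ^ 2) * b)) = g v := by
      rw [hg]
      simp only
      field_simp
    rw [← p3]
    exact p2
  rw [intervalIntegral.integral_eq_sub_of_hasDerivAt hder (hgc.intervalIntegrable _ _)]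
  have q1 := Real.arctan_lt_pi_div_two (b * (x0 + R - x0))
  have q2 := Real.neg_pi_div_two_lt_arctan (b * (x0 - R - x0))
  have q3 : C * (2 + A) * ‖w x‖ * (1 / b) * (2 / b * Real.arctan (b * (x0 + R - x0))) -
      C * (2 + A) * ‖w x‖ * (1 / b) * (2 / b * Real.arctan (b * (x0 - R - x0))) =
      C * (2 + A) * ‖w x‖ * (1 / b) * (2 / b) *
        (Real.arctan (b * (x0 + R - x0)) - Real.arctan (b * (x0 - R - x0))) := by ring
  rw [q3]
  calc C * (2 + A) * ‖w x‖ * (1 / b) * (2 / b) *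
        (Real.arctan (b * (x0 + R - x0)) - Real.arctan (b * (x0 - R - x0)))
      ≤ C * (2 + A) * ‖w x‖ * (1 / b) * (2 / b) * Real.pi := by
        gcongr
        linarith
    _ = _ := by field_simp

/-- Approximation of the constructed element by the model. -/
lemma fel_approx {x0 b t C R H M : ℝ} {l : ℂ} (hc : Cond w x0 l.re t C R H) (hH : 0 < H)
    (hC : 0 ≤ C) {x : ℝ} (hx : |x - x0| < R)
    (hM1 : ∀ v : ℝ, |v - x0| ≤ R →
      Real.exp (-(b ^ 2 * ((v - x0) ^ 2 - H ^ 2)) - (t - |l.im|) * H) ≤ M)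
    (hM2 : ∀ y : ℝ, |y| ≤ H →
      Real.exp (-(b ^ 2 * (R ^ 2 - y ^ 2)) - (t - |l.im|) * |y|) ≤ M) :
    ‖h.fel x0 b R l x - 2 * Real.pi * I * mdl w x0 b l x‖ ≤
      2 * (C * M * ‖w x‖ * (2 * R / H + H / (x0 + R - x) + H / (x - (x0 - R)))) := by
  rw [abs_lt] at hx
  have hax : x0 - R < x := by linarith [hx.1]
  have hxb : x < x0 + R := by linarith [hx.2]
  set F := mdl w x0 b l with hF
  have hFd : Differentiable ℂ F := mdl_diff w x0 b l
  set gp : ℂ → ℂ := fun u => F u * w x / w u with hgp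
  set gm : ℂ → ℂ := fun u => F u * sharp w x / sharp w u with hgm
  have hgpx : gp x = F x := by
    rw [hgp]; exact mul_div_cancel_right₀ _ (h.nz_real x)
  have hgmx : gm x = F x := by
    rw [hgm]; exact mul_div_cancel_right₀ _ (h.sharp_ne (by simp))
  have hSp : IsOpen {u : ℂ | w u ≠ 0} := isOpen_ne_fun h.diff.continuous continuous_const
  have hSm : IsOpen {u : ℂ | sharp w u ≠ 0} :=
    isOpen_ne_fun (sharp_diff h.diff).continuous continuous_const
  have hgpd : DifferentiableOn ℂ gp {u : ℂ | w u ≠ 0} := by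
    intro u hu
    exact (((hFd u).mul_const _).div (h.diff u) hu).differentiableWithinAt
  have hgmd : DifferentiableOn ℂ gm {u : ℂ | sharp w u ≠ 0} := by
    intro u hu
    exact (((hFd u).mul_const _).div (sharp_diff h.diff u) hu).differentiableWithinAt
  have hrp := rect_dslope hSp hgpd hax hxb hH.ne' (by
    intro u _ _ hu
    rw [uIcc_of_le hH.le] at hu
    exact h.ne_zero hu.1)
  have hrm := rect_dslope hSm hgmd hax hxb (neg_ne_zero.2 hH.ne') (by
    intro u _ _ hu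
    rw [uIcc_of_ge (by linarith)] at hu
    exact h.sharp_ne hu.2)
  rw [hgpx] at hrp
  rw [hgmx] at hrm
  -- the integrand
  have hint : h.fel x0 b R l x =
      (∫ v in (x0 - R)..(x0 + R), dslope gp x v) - ∫ v in (x0 - R)..(x0 + R), dslope gm x v := by
    have hcp : IntervalIntegrable (fun v : ℝ => dslope gp x v) volume (x0 - R) (x0 + R) := by
      apply ContinuousOn.intervalIntegrable
      have : DifferentiableOn ℂ (dslope gp x) {u : ℂ | w u ≠ 0} :=
        (differentiableOn_dslope (hSp.mem_nhds (h.nz_real x))).2 hgpd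
      exact this.continuousOn.comp Complex.continuous_ofReal.continuousOn
        (fun v _ => h.nz_real v)
    have hcm : IntervalIntegrable (fun v : ℝ => dslope gm x v) volume (x0 - R) (x0 + R) := by
      apply ContinuousOn.intervalIntegrable
      have : DifferentiableOn ℂ (dslope gm x) {u : ℂ | sharp w u ≠ 0} :=
        (differentiableOn_dslope (hSm.mem_nhds (h.sharp_ne (by simp)))).2 hgmd
      exact this.continuousOn.comp Complex.continuous_ofReal.continuousOn
        (fun v _ => h.sharp_ne (by simp))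
    rw [fel_apply, ← intervalIntegral.integral_sub hcp hcm]
    apply intervalIntegral.integral_congr_ae
    have hae : ∀ᵐ v : ℝ, v ≠ x := by
      rw [ae_iff]
      simp
    filter_upwards [hae] with v hv _
    have hne : (v : ℂ) ≠ x := by exact_mod_cast hv
    have e1 : h.Kt v x = w x * ((h.Ws x / w x - h.Ws v / w v) / (x - v)) :=
      h.B_apply _ (Ne.symm hv)
    rw [dslope_of_ne _ hne, dslope_of_ne _ hne, slope_def_field, slope_def_field, hgpx, hgmx, e1,
      Ws_apply, Ws_apply, hgp, hgm]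
    simp only
    have g1 := h.nz_real x
    have g2 := h.nz_real v
    have g3 : sharp w v ≠ 0 := h.sharp_ne (by simp)
    have g4 : (x : ℂ) - v ≠ 0 := sub_ne_zero.2 (Ne.symm hne)
    have g5 : (v : ℂ) - x ≠ 0 := sub_ne_zero.2 hne
    field_simp
    ring
  have hid : h.fel x0 b R l x - 2 * Real.pi * I * F x =
      sides gp (x0 - R) (x0 + R) x H - sides gm (x0 - R) (x0 + R) x (-H) := by
    rw [hint, hrp, hrm, ← sides_one_sub hax hxb hH]
    ring
  rw [hid]
  -- bounds on the sides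
  have hwx := norm_nonneg (w x)
  have hMbound : ∀ u : ℂ, x0 - R ≤ u.re → u.re ≤ x0 + R → |u.im| ≤ H →
      (|u.im| = H ∨ u.re = x0 - R ∨ u.re = x0 + R) →
      ‖F u‖ ≤ C * M * ‖w (fold u)‖ := by
    intro u h1 h2 h3 h4
    have hu : |u.re - x0| ≤ R := by rw [abs_le]; constructor <;> linarith
    refine (norm_mdl_le (b := b) hc hu h3).trans ?_
    have : Real.exp (-(b ^ 2 * ((u.re - x0) ^ 2 - u.im ^ 2)) - (t - |l.im|) * |u.im|) ≤ M := by
      rcases h4 with h4 | h4
      · have h5 : u.im ^ 2 = H ^ 2 := by rw [← sq_abs, h4]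
        rw [h5, h4]
        exact hM1 _ hu
      · have h5 : (u.re - x0) ^ 2 = R ^ 2 := by
          rcases h4 with h4 | h4 <;> rw [h4] <;> ring
        rw [h5]
        exact hM2 _ h3
    gcongr
  have hbp := norm_sides_le (g := gp) (M := C * M * ‖w x‖) hax hxb hH.ne' (by
    intro u h1 h2 h3 h4
    rw [uIcc_of_le hH.le] at h3
    have h5 : |u.im| = u.im := abs_of_nonneg h3.1
    have h6 := hMbound u h1 h2 (by rw [h5]; exact h3.2) (by rw [h5]; exact h4)
    rw [fold_of_nonneg h3.1] at h6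
    have h7 := h.norm_pos h3.1
    rw [hgp]
    simp only [norm_div, norm_mul]
    rw [div_le_iff₀ h7]
    calc ‖F u‖ * ‖w x‖ ≤ C * M * ‖w u‖ * ‖w x‖ := by gcongr
      _ = _ := by ring)
  have hbm := norm_sides_le (g := gm) (M := C * M * ‖w x‖) hax hxb (neg_ne_zero.2 hH.ne') (by
    intro u h1 h2 h3 h4
    rw [uIcc_of_ge (by linarith)] at h3
    have h5 : |u.im| = -u.im := abs_of_nonpos h3.2
    have h6 := hMbound u h1 h2 (by rw [h5]; linarith [h3.1]) (by
      rw [h5]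
      rcases h4 with h4 | h4
      · left; linarith
      · right; exact h4)
    rw [← norm_sharp_fold h3.2] at h6
    have h7 : 0 < ‖sharp w u‖ := norm_pos_iff.2 (h.sharp_ne h3.2)
    rw [hgm]
    simp only [norm_div, norm_mul, norm_sharp_real]
    rw [div_le_iff₀ h7]
    calc ‖F u‖ * ‖w x‖ ≤ C * M * ‖sharp w u‖ * ‖w x‖ := by gcongr
      _ = _ := by ring)
  rw [abs_neg] at hbm
  rw [abs_of_pos hH] at hbm hbp
  have e1 : x0 + R - (x0 - R) = 2 * R := by ring
  rw [e1] at hbm hbp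
  refine (norm_sub_le _ _).trans ?_
  linarith

end Wt

end Pool.Agent.Helper63.Levin
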