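import Pool.Agent.Helper63.Levin.Corner

/-!
Basic properties of a majorant: entire function of exponential type, zero-free in the upper
half-plane, with bounded logarithmic derivative on the line.
-/

namespace Pool.Agent.Helper63.Levin

open Metric Set Complex Filter Topology Bornology

/-- An entire function of exponential type, zero-free in the open upper half-plane, whose
logarithmic derivative is bounded by `K` on the real line. -/
structure Core (w : ℂ → ℂ) (K : ℝ) : Prop where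
  diff : Differentiable ℂ w
  bd : ∃ A B : ℝ, ∀ z : ℂ, ‖w z‖ ≤ A * Real.exp (B * ‖z‖)
  nz : ∀ z : ℂ, 0 < z.im → w z ≠ 0
  Kbd : ∀ x : ℝ, ‖deriv w x‖ ≤ K * ‖w x‖

/-- An entire function vanishing on the real line vanishes. -/
lemma eq_zero_of_real {f : ℂ → ℂ} (hf : Differentiable ℂ f) (h : ∀ x : ℝ, f x = 0) :
    ∀ z, f z = 0 := by
  have h1 : AnalyticOnNhd ℂ f univ := fun z _ => hf.analyticAt z
  have h2 : AnalyticOnNhd ℂ (fun _ : ℂ => (0 : ℂ)) univ := fun z _ => analyticAt_const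
  have h3 : Tendsto (fun x : ℝ => (x : ℂ)) (𝓝[≠] 0) (𝓝[≠] (0 : ℂ)) := by
    apply tendsto_nhdsWithin_of_tendsto_nhds_of_eventually_within
    · have : Tendsto (fun x : ℝ => (x : ℂ)) (𝓝 0) (𝓝 ((0 : ℝ) : ℂ)) :=
        Complex.continuous_ofReal.tendsto 0
      simpa using this.mono_left nhdsWithin_le_nhds
    · filter_upwards [self_mem_nhdsWithin] with x hx
      simpa using hx
  have h4 : ∃ᶠ z in 𝓝[≠] (0 : ℂ), f z = (fun _ : ℂ => (0 : ℂ)) z := by
    apply h3.frequently
    apply Eventually.frequently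
    exact Eventually.of_forall (fun x => h x)
  have h5 := AnalyticOnNhd.eq_of_frequently_eq h1 h2 h4
  intro z
  rw [h5]

namespace Core

variable {w : ℂ → ℂ} {K : ℝ} (h : Core w K)
include h

lemma nz_real (x : ℝ) : w x ≠ 0 := by
  intro hx
  have hz : ∀ b : ℝ, w b = 0 := by
    intro b
    have hg := gronwall_segment (w := w) (K := K) (a := x) (b := b)
      (fun t _ _ => h.diff _) (by
        intro t _ _
        have : (x : ℂ) + t * ((b : ℂ) - x) = ((x + t * (b - x) : ℝ) : ℂ) := by push_cast; ring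
        rw [this]
        exact h.Kbd _)
    rw [hx] at hg
    simpa using hg
  exact h.nz I (by simp) (eq_zero_of_real h.diff hz I)

lemma ne_zero {z : ℂ} (hz : 0 ≤ z.im) : w z ≠ 0 := by
  rcases hz.eq_or_lt with h0 | hpos
  · have hzreal : z = (z.re : ℂ) := by
      apply Complex.ext <;> simp [← h0]
    rw [hzreal]; exact h.nz_real _
  · exact h.nz z hpos

lemma norm_pos {z : ℂ} (hz : 0 ≤ z.im) : 0 < ‖w z‖ := norm_pos_iff.2 (h.ne_zero hz)

lemma K_nonneg : 0 ≤ K := by
  have h1 := h.Kbd 0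
  have h2 := h.norm_pos (z := ((0 : ℝ) : ℂ)) (by simp)
  by_contra hK
  have : K * ‖w ((0 : ℝ) : ℂ)‖ < 0 := by nlinarith
  linarith [norm_nonneg (deriv w ((0 : ℝ) : ℂ))]

/-- Polynomial growth of the logarithmic derivative, with respect to the distance to the
boundary. -/
lemma growth : ∃ C : ℝ, ∀ z : ℂ, 0 < z.im →
    ‖deriv w z / w z‖ * z.im ^ 5 ≤ C * (‖z‖ ^ 2 + 1) ^ 3 := by
  obtain ⟨A0, B0, hAB0⟩ := h.bd
  -- normalise the constants
  obtain ⟨A, B, hA, hB, hAB⟩ : ∃ A B : ℝ, 1 ≤ A ∧ 0 ≤ B ∧ ∀ z : ℂ, ‖w z‖ ≤ A * Real.exp (B * ‖z‖) := by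
    refine ⟨max A0 1, max B0 0, le_max_right _ _, le_max_right _ _, fun z => ?_⟩
    refine (hAB0 z).trans ?_
    have h1 : Real.exp (B0 * ‖z‖) ≤ Real.exp (max B0 0 * ‖z‖) := by
      apply Real.exp_le_exp.2
      gcongr
      exact le_max_left _ _
    have h2 : A0 ≤ max A0 1 := le_max_left _ _
    have h3 : (1 : ℝ) ≤ max A0 1 := le_max_right _ _
    have h4 := Real.exp_pos (B0 * ‖z‖)
    nlinarith
  set C0 := Real.log A + 2 * B + |Real.log ‖w I‖| with hC0
  have hlogA : 0 ≤ Real.log A := Real.log_nonneg hA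
  have hC0nn : 0 ≤ C0 := by positivity
  refine ⟨32 * C0, fun z hz => ?_⟩
  set y := z.im with hy
  set T := (‖z‖ ^ 2 + 1) / y with hT
  have hTy : T * y = ‖z‖ ^ 2 + 1 := by rw [hT]; field_simp
  have hyz : y ≤ ‖z‖ := by
    have := abs_im_le_norm z
    rw [abs_of_pos hz] at this
    exact this
  have hT1 : 1 ≤ T := by
    rw [hT, le_div_iff₀ hz]
    nlinarith [sq_nonneg (‖z‖ - 1)]
  have hT0 : 0 < T := by linarith
  set c : ℂ := T * I with hc
  set M := A * Real.exp (2 * B * T) with hM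
  have hball : ∀ u ∈ ball c T, 0 < u.im ∧ ‖u‖ ≤ 2 * T := by
    intro u hu
    rw [mem_ball, dist_eq_norm] at hu
    constructor
    · have h1 : |(u - c).im| < T := (abs_im_le_norm _).trans_lt hu
      rw [abs_lt] at h1
      simp [hc] at h1
      linarith
    · have h1 : ‖u‖ ≤ ‖u - c‖ + ‖c‖ := by
        calc ‖u‖ = ‖(u - c) + c‖ := by ring_nf
          _ ≤ _ := norm_add_le _ _
      have h2 : ‖c‖ = T := by simp [hc, abs_of_pos hT0]
      linarith
  have hMle : ∀ u ∈ ball c T, ‖w u‖ ≤ M := by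
    intro u hu
    refine (hAB u).trans ?_
    rw [hM]
    apply mul_le_mul_of_nonneg_left _ (by linarith)
    apply Real.exp_le_exp.2
    have := (hball u hu).2
    nlinarith
  have hnz : ∀ u ∈ ball c T, w u ≠ 0 := fun u hu => h.nz u (hball u hu).1
  have est := zero_free_estimates hT0 (h.diff.differentiableOn) hnz hMle
  have hlogM : Real.log M = Real.log A + 2 * B * T := by
    rw [hM, Real.log_mul (by linarith) (Real.exp_pos _).ne', Real.log_exp]
  -- estimate at the centre
  have hI : I ∈ ball c T := by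
    rw [mem_ball, dist_eq_norm, hc]
    have : (I - (T : ℂ) * I) = ((1 - T : ℝ) : ℂ) * I := by push_cast; ring
    rw [this, norm_mul, norm_real, norm_I, mul_one, Real.norm_eq_abs, abs_of_nonpos (by linarith)]
    linarith
  have hdI : dist I c = T - 1 := by
    rw [dist_eq_norm, hc]
    have : (I - (T : ℂ) * I) = ((1 - T : ℝ) : ℂ) * I := by push_cast; ring
    rw [this, norm_mul, norm_real, norm_I, mul_one, Real.norm_eq_abs, abs_of_nonpos (by linarith)]
    ring
  have e1 := (est.2 I hI).1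
  rw [hdI] at e1
  set Nc := Real.log M - Real.log ‖w c‖ with hNc
  have hNI : Real.log M - Real.log ‖w I‖ ≤ C0 * T := by
    rw [hlogM, hC0]
    have h1 := neg_le_abs (Real.log ‖w I‖)
    have h2 := abs_nonneg (Real.log ‖w I‖)
    nlinarith
  have hNc1 : Nc ≤ 2 * T * (C0 * T) := by
    have h1 : (T - (T - 1)) * Nc = Nc := by ring
    rw [h1] at e1
    have h2 : (T + (T - 1)) * (Real.log M - Real.log ‖w I‖) ≤ (T + (T - 1)) * (C0 * T) :=
      mul_le_mul_of_nonneg_left hNI (by linarith)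
    have h3 : (T + (T - 1)) * (C0 * T) ≤ 2 * T * (C0 * T) := by
      apply mul_le_mul_of_nonneg_right _ (by positivity)
      linarith
    linarith
  -- position of z
  have hdz2 : dist z c ^ 2 = ‖z‖ ^ 2 - 2 * y * T + T ^ 2 := by
    rw [dist_eq_norm, Complex.sq_norm, Complex.sq_norm, Complex.normSq_apply,
      Complex.normSq_apply, hc]
    simp
    rw [hy]; ring
  have hdz0 : 0 ≤ dist z c := dist_nonneg
  have hdzT : dist z c ≤ T - y / 2 := by
    apply abs_le_of_sq_le_sq' _ _ |>.2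
    · rw [hdz2]
      nlinarith [sq_nonneg y]
    · nlinarith
  have hzb : z ∈ ball c T := by
    rw [mem_ball]; linarith
  have e2 := (est.2 z hzb).2
  set Nz := Real.log M - Real.log ‖w z‖ with hNz
  have hNz0 : 0 ≤ Nz := by
    rw [hNz]
    have := Real.log_le_log (norm_pos_iff.2 (hnz z hzb)) (hMle z hzb)
    linarith
  have hNc0 : 0 ≤ Nc := by
    rw [hNc]
    have hcb : c ∈ ball c T := mem_ball_self hT0
    have := Real.log_le_log (norm_pos_iff.2 (hnz c hcb)) (hMle c hcb)
    linarith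
  have hNz1 : y / 2 * Nz ≤ 2 * T * (2 * T * (C0 * T)) := by
    have h1 : y / 2 * Nz ≤ (T - dist z c) * Nz :=
      mul_le_mul_of_nonneg_right (by linarith) hNz0
    have h2 : (T + dist z c) * Nc ≤ 2 * T * Nc := mul_le_mul_of_nonneg_right (by linarith) hNc0
    have h3 : 2 * T * Nc ≤ 2 * T * (2 * T * (C0 * T)) :=
      mul_le_mul_of_nonneg_left hNc1 (by positivity)
    linarith
  -- gradient estimate at z
  have hsub : ball z (y / 2) ⊆ ball c T := by
    apply ball_subset_ball'
    linarith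
  have est2 := (zero_free_estimates (w := w) (c := z) (r := y / 2) (M := M) (by positivity)
    (h.diff.differentiableOn) (fun u hu => hnz u (hsub hu)) (fun u hu => hMle u (hsub hu))).1
  have h4 : ‖deriv w z / w z‖ * y ≤ 4 * Nz := by
    have : 2 * Nz / (y / 2) = 4 * Nz / y := by field_simp; ring
    rw [this, le_div_iff₀ hz] at est2
    exact est2
  have h5 : ‖deriv w z / w z‖ * y ^ 2 ≤ 32 * C0 * T ^ 3 := by
    have : ‖deriv w z / w z‖ * y * y ≤ 4 * Nz * y := mul_le_mul_of_nonneg_right h4 hz.le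
    nlinarith
  calc ‖deriv w z / w z‖ * y ^ 5 = ‖deriv w z / w z‖ * y ^ 2 * y ^ 3 := by ring
    _ ≤ 32 * C0 * T ^ 3 * y ^ 3 := by gcongr
    _ = 32 * C0 * (T * y) ^ 3 := by ring
    _ = 32 * C0 * (‖z‖ ^ 2 + 1) ^ 3 := by rw [hTy]

lemma logderiv_le {z : ℂ} (hz : 0 ≤ z.im) : ‖deriv w z‖ ≤ K * ‖w z‖ := by
  obtain ⟨C, hC⟩ := h.growth
  have key := corner (P := fun z => deriv w z / w z) (K := K) (C := C) ?_ ?_ hC z hz
  · rw [norm_div, div_le_iff₀ (h.norm_pos hz)] at key
    exact key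
  · intro u hu
    have h1 : Differentiable ℂ (deriv w) := by
      have := h.diff.contDiff (n := 2)
      exact (this.differentiable_deriv_two)
    exact (h1 u).div (h.diff u) (h.ne_zero hu)
  · intro x
    rw [norm_div, div_le_iff₀ (norm_pos_iff.2 (h.nz_real x))]
    exact h.Kbd x

lemma lip {a b : ℂ} (ha : 0 ≤ a.im) (hb : 0 ≤ b.im) :
    ‖w b‖ ≤ Real.exp (K * ‖b - a‖) * ‖w a‖ := by
  apply gronwall_segment (fun t _ _ => h.diff _)
  intro t h1 h2
  apply h.logderiv_le
  simp
  nlinarith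

end Core

end Pool.Agent.Helper63.Levin
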