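import Pool.Agent.Helper63.Levin.PL

/-!
Boundary regularity trick: a function on the closed upper half-plane with polynomial growth
relative to the distance to the boundary, bounded on the line, is bounded by the same constant.
-/

namespace Pool.Agent.Helper63.Levin

open Metric Set Complex Filter Topology Bornology

lemma pl_upper_subexp {F : ℂ → ℂ} {A B C : ℝ} (hd : ∀ z : ℂ, 0 ≤ z.im → DifferentiableAt ℂ F z)
    (hA : ∀ z : ℂ, 0 ≤ z.im → ‖F z‖ ≤ A * Real.exp (B * ‖z‖))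
    (hre : ∀ x : ℝ, ‖F x‖ ≤ C)
    (him : ∀ e : ℝ, 0 < e → ∃ C' : ℝ, ∀ y : ℝ, 0 ≤ y → ‖F (y * I)‖ ≤ C' * Real.exp (e * y)) :
    ∀ z : ℂ, 0 ≤ z.im → ‖F z‖ ≤ C := by
  intro z hz
  have h1 : ∀ e : ℝ, 0 < e → ‖F z‖ ≤ C * Real.exp (e * z.im) := by
    intro e he
    exact pl_upper_exp hd hA hre (him e he) z hz
  have hcont : Tendsto (fun e : ℝ => C * Real.exp (e * z.im)) (𝓝[>] 0)
      (𝓝 (C * Real.exp (0 * z.im))) := by
    apply Tendsto.mono_left _ nhdsWithin_le_nhds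
    apply Continuous.tendsto
    fun_prop
  have := ge_of_tendsto hcont (by
    filter_upwards [self_mem_nhdsWithin] with e he
    exact h1 e he)
  simpa using this

lemma norm_sq_sub_sq {z : ℂ} {R : ℝ} (hR : ‖z‖ = R) :
    ‖(R : ℂ) ^ 2 - z ^ 2‖ = 2 * R * |z.im| := by
  have h1 : (R : ℂ) ^ 2 = z * (starRingEnd ℂ) z := by
    rw [Complex.mul_conj, Complex.normSq_eq_norm_sq, hR]
    push_cast; ring
  have h2 : (starRingEnd ℂ) z - z = -(2 * z.im * I) := by
    apply Complex.ext <;> simp; ring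
  rw [h1, show z * (starRingEnd ℂ) z - z ^ 2 = z * ((starRingEnd ℂ) z - z) by ring, h2,
    norm_mul, norm_neg, norm_mul, norm_mul, hR]
  simp; ring

lemma corner {P : ℂ → ℂ} {K C : ℝ} (hd : ∀ z : ℂ, 0 ≤ z.im → DifferentiableAt ℂ P z)
    (hK : ∀ x : ℝ, ‖P x‖ ≤ K)
    (hC : ∀ z : ℂ, 0 < z.im → ‖P z‖ * z.im ^ 5 ≤ C * (‖z‖ ^ 2 + 1) ^ 3) :
    ∀ z : ℂ, 0 ≤ z.im → ‖P z‖ ≤ K := by
  have hK0 : 0 ≤ K := (norm_nonneg _).trans (hK 0)
  have hC0 : 0 ≤ C := by
    have h1 := hC I (by simp)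
    simp at h1
    nlinarith [norm_nonneg (P I)]
  -- half disc estimate
  have half : ∀ R : ℝ, 1 ≤ R → ∀ z : ℂ, ‖z‖ ≤ R → 0 ≤ z.im → z ∈ closure (ball 0 R ∩ {z : ℂ | 0 < z.im}) →
      ‖P z * (((R : ℂ) ^ 2 - z ^ 2) / (R : ℂ) ^ 2) ^ 5‖ ≤ K + 256 * C * R := by
    intro R hR z hzR hz hcl
    have hR0 : (0 : ℝ) < R := by linarith
    have hclo : ∀ w : ℂ, w ∈ closure (ball 0 R ∩ {z : ℂ | 0 < z.im}) → ‖w‖ ≤ R ∧ 0 ≤ w.im := by
      intro w hw
      have h1 : w ∈ closedBall (0 : ℂ) R :=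
        closure_ball_subset_closedBall (closure_mono inter_subset_left hw)
      have h2 : w ∈ {z : ℂ | 0 ≤ z.im} := by
        have := closure_mono (inter_subset_right (s := ball (0 : ℂ) R)) hw
        rwa [closure_setOfPred_lt_im] at this
      exact ⟨by simpa using h1, h2⟩
    apply norm_le_of_forall_mem_frontier_norm_le
      (U := ball 0 R ∩ {z : ℂ | 0 < z.im}) (isBounded_ball.subset inter_subset_left) _ _ hcl
      (f := fun z => P z * (((R : ℂ) ^ 2 - z ^ 2) / (R : ℂ) ^ 2) ^ 5)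
    · apply DifferentiableOn.diffContOnCl
      intro w hw
      have h1 := hd w (hclo w hw).2
      exact (h1.mul (by fun_prop)).differentiableWithinAt
    · intro w hw
      have hopen : IsOpen (ball (0 : ℂ) R ∩ {z : ℂ | 0 < z.im}) :=
        isOpen_ball.inter (isOpen_lt continuous_const continuous_im)
      rw [hopen.frontier_eq] at hw
      obtain ⟨hw1, hw2⟩ := hw
      obtain ⟨hwR, hwim⟩ := hclo w hw1
      have hnorm : ‖(((R : ℂ) ^ 2 - w ^ 2) / (R : ℂ) ^ 2) ^ 5‖ =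
          (‖(R : ℂ) ^ 2 - w ^ 2‖ / R ^ 2) ^ 5 := by
        rw [norm_pow, norm_div, norm_pow]
        simp
      rw [norm_mul, hnorm]
      rcases hwim.eq_or_lt with h0 | hpos
      · -- real point
        have hwreal : w = (w.re : ℂ) := by
          apply Complex.ext <;> simp [← h0]
        have h1 : ‖P w‖ ≤ K := by rw [hwreal]; exact hK _
        have h2 : ‖(R : ℂ) ^ 2 - w ^ 2‖ ≤ R ^ 2 := by
          rw [hwreal, ← ofReal_pow, ← ofReal_pow, ← ofReal_sub, norm_real, Real.norm_eq_abs, abs_le]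
          have h3 : |w.re| ≤ R := (abs_re_le_norm w).trans hwR
          have h4 : w.re ^ 2 ≤ R ^ 2 := by
            rw [← sq_abs]
            exact pow_le_pow_left₀ (abs_nonneg _) h3 2
          constructor <;> nlinarith [sq_nonneg w.re, sq_nonneg R]
        have h3 : (‖(R : ℂ) ^ 2 - w ^ 2‖ / R ^ 2) ^ 5 ≤ 1 := by
          apply pow_le_one₀ (by positivity)
          rw [div_le_one (by positivity)]
          exact h2
        calc ‖P w‖ * (‖(R : ℂ) ^ 2 - w ^ 2‖ / R ^ 2) ^ 5 ≤ K * 1 := by gcongr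
          _ ≤ K + 256 * C * R := by
            have : 0 ≤ 256 * C * R := by positivity
            linarith
      · -- arc
        have hwR' : ‖w‖ = R := by
          apply le_antisymm hwR
          by_contra hcon
          exact hw2 ⟨by simpa using (not_le.1 hcon), hpos⟩
        rw [norm_sq_sub_sq hwR', abs_of_pos hpos]
        have h1 := hC w hpos
        rw [hwR'] at h1
        have h2 : (2 * R * w.im / R ^ 2) ^ 5 = 32 * w.im ^ 5 / R ^ 5 := by
          field_simp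
          ring
        rw [h2]
        have h3 : (R ^ 2 + 1) ^ 3 ≤ 8 * R ^ 6 := by
          have : R ^ 2 + 1 ≤ 2 * R ^ 2 := by nlinarith
          calc (R ^ 2 + 1) ^ 3 ≤ (2 * R ^ 2) ^ 3 := by gcongr
            _ = 8 * R ^ 6 := by ring
        calc ‖P w‖ * (32 * w.im ^ 5 / R ^ 5) = 32 * (‖P w‖ * w.im ^ 5) / R ^ 5 := by ring
          _ ≤ 32 * (C * (8 * R ^ 6)) / R ^ 5 := by
            have h4 : ‖P w‖ * w.im ^ 5 ≤ C * (8 * R ^ 6) :=
              h1.trans (mul_le_mul_of_nonneg_left h3 hC0)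
            apply div_le_div_of_nonneg_right _ (by positivity)
            linarith
          _ = 256 * C * R := by field_simp; ring
          _ ≤ K + 256 * C * R := by linarith
  -- linear growth
  have lin : ∀ z : ℂ, 0 < z.im → ‖P z‖ ≤ (4 / 3) ^ 5 * (K + 256 * C * (2 * ‖z‖ + 2)) := by
    intro z hz
    set R := 2 * ‖z‖ + 2 with hRdef
    have hR1 : 1 ≤ R := by have := norm_nonneg z; linarith
    have hR0 : (0 : ℝ) < R := by linarith
    have hzR : ‖z‖ < R := by have := norm_nonneg z; linarith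
    have h1 := half R hR1 z hzR.le hz.le (subset_closure ⟨by simpa using hzR, hz⟩)
    rw [norm_mul, norm_pow, norm_div, norm_pow] at h1
    have h2 : (3 / 4 : ℝ) ≤ ‖(R : ℂ) ^ 2 - z ^ 2‖ / ‖(R : ℂ)‖ ^ 2 := by
      rw [norm_real, Real.norm_eq_abs, abs_of_pos hR0, le_div_iff₀ (by positivity)]
      have h3 : R ^ 2 - ‖z‖ ^ 2 ≤ ‖(R : ℂ) ^ 2 - z ^ 2‖ := by
        have := norm_sub_norm_le ((R : ℂ) ^ 2) (z ^ 2)
        simp only [norm_pow, norm_real, Real.norm_eq_abs, abs_of_pos hR0] at this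
        exact this
      have h4 : ‖z‖ ^ 2 ≤ R ^ 2 / 4 := by
        have : ‖z‖ ≤ R / 2 := by linarith
        calc ‖z‖ ^ 2 ≤ (R / 2) ^ 2 := by gcongr
          _ = R ^ 2 / 4 := by ring
      linarith
    have h5 : (3 / 4 : ℝ) ^ 5 ≤ (‖(R : ℂ) ^ 2 - z ^ 2‖ / ‖(R : ℂ)‖ ^ 2) ^ 5 := by gcongr
    have h6 : ‖P z‖ * (3 / 4) ^ 5 ≤ K + 256 * C * R :=
      (mul_le_mul_of_nonneg_left h5 (norm_nonneg _)).trans h1
    have h7 : (4 / 3 : ℝ) ^ 5 * (3 / 4) ^ 5 = 1 := by norm_num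
    nlinarith
  have lin0 : ∀ z : ℂ, 0 ≤ z.im → ‖P z‖ ≤ (4 / 3) ^ 5 * (K + 256 * C * (2 * ‖z‖ + 2)) := by
    intro z hz
    rcases hz.eq_or_lt with h0 | hpos
    · have hzreal : z = (z.re : ℂ) := by
        apply Complex.ext <;> simp [← h0]
      have h1 : ‖P z‖ ≤ K := by rw [hzreal]; exact hK _
      have h2 : 0 ≤ 256 * C * (2 * ‖z‖ + 2) := by positivity
      have h3 : (1 : ℝ) ≤ (4 / 3) ^ 5 := by norm_num
      nlinarith
    · exact lin z hpos
  have hexp : ∀ e : ℝ, 0 < e → ∃ C' : ℝ, ∀ z : ℂ, 0 ≤ z.im → ‖P z‖ ≤ C' * Real.exp (e * ‖z‖) := by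
    intro e he
    refine ⟨(4 / 3) ^ 5 * (K + 256 * C * (2 * (1 / e) + 2)), ?_⟩
    intro z hz
    refine (lin0 z hz).trans ?_
    have h1 : e * ‖z‖ ≤ Real.exp (e * ‖z‖) := by
      have := Real.add_one_le_exp (e * ‖z‖)
      linarith
    have h2 : 1 ≤ Real.exp (e * ‖z‖) := Real.one_le_exp (by positivity)
    have h3 : ‖z‖ ≤ 1 / e * Real.exp (e * ‖z‖) := by
      rw [one_div, ← div_eq_inv_mul, le_div_iff₀ he]
      linarith
    have h4 : K + 256 * C * (2 * ‖z‖ + 2) ≤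
        (K + 256 * C * (2 * (1 / e) + 2)) * Real.exp (e * ‖z‖) := by
      have h5 : K ≤ K * Real.exp (e * ‖z‖) := by nlinarith
      have h6 : (2 * ‖z‖ + 2) ≤ (2 * (1 / e) + 2) * Real.exp (e * ‖z‖) := by nlinarith
      have h7 : 256 * C * (2 * ‖z‖ + 2) ≤
          256 * C * ((2 * (1 / e) + 2) * Real.exp (e * ‖z‖)) := by gcongr
      nlinarith
    calc (4 / 3) ^ 5 * (K + 256 * C * (2 * ‖z‖ + 2))
        ≤ (4 / 3) ^ 5 * ((K + 256 * C * (2 * (1 / e) + 2)) * Real.exp (e * ‖z‖)) := by gcongr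
      _ = _ := by ring
  obtain ⟨C1, hC1⟩ := hexp 1 one_pos
  apply pl_upper_subexp (A := C1) (B := 1) hd hC1 hK
  intro e he
  obtain ⟨C2, hC2⟩ := hexp e he
  refine ⟨C2, fun y hy => ?_⟩
  have h1 := hC2 (y * I) (by simpa using hy)
  simpa [abs_of_nonneg hy] using h1

end Pool.Agent.Helper63.Levin
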