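import Pool.Agent.Helper63.Levin.Core

/-!
Consequences of the domination hypothesis: monotonicity on vertical rays and the folded majorant.
-/

namespace Pool.Agent.Helper63.Levin

open Metric Set Complex Filter Topology Bornology
open scoped ComplexConjugate

/-- `Core` together with domination of the lower half-plane by the upper half-plane. -/
structure CoreD (w : ℂ → ℂ) (K : ℝ) : Prop extends Core w K where
  dom : ∀ z : ℂ, 0 < z.im → ‖w (conj z)‖ ≤ ‖w z‖

/-- The reflected function `conj (f (conj z))`. -/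
noncomputable def sharp (f : ℂ → ℂ) (z : ℂ) : ℂ := conj (f (conj z))

lemma sharp_diff {f : ℂ → ℂ} (hf : Differentiable ℂ f) : Differentiable ℂ (sharp f) := by
  intro z
  have : sharp f = conj ∘ f ∘ conj := rfl
  rw [this, differentiableAt_conj_conj_iff]
  exact hf _

lemma sharp_deriv (f : ℂ → ℂ) (z : ℂ) : deriv (sharp f) z = conj (deriv f (conj z)) := by
  have : sharp f = conj ∘ f ∘ conj := rfl
  rw [this, deriv_conj_conj]
  rfl

lemma norm_sharp (f : ℂ → ℂ) (z : ℂ) : ‖sharp f z‖ = ‖f (conj z)‖ := by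
  simp [sharp]

lemma norm_sharp_real (f : ℂ → ℂ) (x : ℝ) : ‖sharp f x‖ = ‖f x‖ := by
  simp [sharp]

/-- Fold the plane to the closed upper half-plane. -/
noncomputable def fold (z : ℂ) : ℂ := ⟨z.re, |z.im|⟩

lemma fold_im_nonneg (z : ℂ) : 0 ≤ (fold z).im := abs_nonneg _

lemma fold_of_nonneg {z : ℂ} (hz : 0 ≤ z.im) : fold z = z := by
  apply Complex.ext <;> simp [fold, abs_of_nonneg hz]

lemma fold_of_nonpos {z : ℂ} (hz : z.im ≤ 0) : fold z = conj z := by
  apply Complex.ext <;> simp [fold, abs_of_nonpos hz]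

lemma fold_conj (z : ℂ) : fold (conj z) = fold z := by
  apply Complex.ext <;> simp [fold]

lemma fold_real (x : ℝ) : fold x = x := fold_of_nonneg (by simp)

lemma norm_fold (z : ℂ) : ‖fold z‖ = ‖z‖ := by
  rcases le_total 0 z.im with h | h
  · rw [fold_of_nonneg h]
  · rw [fold_of_nonpos h]; simp

lemma norm_fold_sub (a b : ℂ) : ‖fold a - fold b‖ ≤ ‖a - b‖ := by
  rw [← sq_le_sq₀ (norm_nonneg _) (norm_nonneg _)]
  rw [Complex.sq_norm, Complex.sq_norm, Complex.normSq_apply, Complex.normSq_apply]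
  simp [fold]
  have h3 : (|a.im| - |b.im|) ^ 2 ≤ (a.im - b.im) ^ 2 :=
    sq_le_sq.2 (abs_abs_sub_abs_le_abs_sub _ _)
  nlinarith

namespace CoreD

variable {w : ℂ → ℂ} {K : ℝ} (h : CoreD w K)
include h

lemma norm_le_fold (z : ℂ) : ‖w z‖ ≤ ‖w (fold z)‖ := by
  rcases le_total 0 z.im with hz | hz
  · rw [fold_of_nonneg hz]
  · rw [fold_of_nonpos hz]
    rcases hz.eq_or_lt with h0 | hneg
    · have : conj z = z := by apply Complex.ext <;> simp [h0]
      rw [this]
    · have := h.dom (conj z) (by simpa using hneg)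
      simpa using this

lemma fold_pos (z : ℂ) : 0 < ‖w (fold z)‖ := h.norm_pos (fold_im_nonneg z)

lemma lip_fold (a b : ℂ) : ‖w (fold b)‖ ≤ Real.exp (K * ‖b - a‖) * ‖w (fold a)‖ := by
  refine (h.lip (fold_im_nonneg a) (fold_im_nonneg b)).trans ?_
  have h1 := norm_fold_sub b a
  have h2 := h.K_nonneg
  gcongr

lemma lower (z : ℂ) : ‖w 0‖ * Real.exp (-(K * ‖z‖)) ≤ ‖w (fold z)‖ := by
  have h1 := h.lip_fold z 0
  rw [fold_of_nonneg (z := 0) (by simp)] at h1
  simp only [zero_sub, norm_neg] at h1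
  rw [Real.exp_neg, mul_inv_le_iff₀ (Real.exp_pos _)]
  linarith

/-- Monotonicity on vertical rays. -/
lemma mono {x y1 y2 : ℝ} (h1 : -y2 ≤ y1) (h2 : y1 ≤ y2) :
    ‖w (x + y1 * I)‖ ≤ ‖w (x + y2 * I)‖ := by
  set a := (y2 - y1) / 2 with ha
  set m := (y1 + y2) / 2 with hm
  have ha0 : 0 ≤ a := by rw [ha]; linarith
  have hm0 : 0 ≤ m := by rw [hm]; linarith
  obtain ⟨A, B, hAB⟩ := h.bd
  have hA0 : 0 ≤ A := by
    have h1 := hAB 0
    simp at h1
    exact (norm_nonneg _).trans h1
  have hw0 : 0 < ‖w 0‖ := h.norm_pos (by simp)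
  have him : ∀ z : ℂ, 0 ≤ z.im → 0 ≤ (z + a * I).im := by
    intro z hz
    simp
    linarith
  have key := pl_upper (F := fun z => w (z - a * I) / w (z + a * I))
    (A := A * Real.exp (|B| * a) * (Real.exp (K * a) / ‖w 0‖)) (B := |B| + K) (C := 1) ?_ ?_ ?_ ?_
    (x + m * I) (by simpa using hm0)
  · have e1 : (x : ℂ) + m * I - a * I = x + y1 * I := by
      have : (m : ℂ) - a = y1 := by rw [hm, ha]; push_cast; ring
      linear_combination I * this
    have e2 : (x : ℂ) + m * I + a * I = x + y2 * I := by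
      have : (m : ℂ) + a = y2 := by rw [hm, ha]; push_cast; ring
      linear_combination I * this
    simp only [e1, e2] at key
    have hpos : 0 < ‖w (x + y2 * I)‖ := h.norm_pos (by simp; linarith)
    rw [norm_div, div_le_one hpos] at key
    exact key
  · intro z hz
    have hd := h.diff
    apply DifferentiableAt.div
    · exact (hd _).comp z (by fun_prop)
    · exact (hd _).comp z (by fun_prop)
    · exact h.ne_zero (him z hz)
  · intro z hz
    rw [norm_div]
    have hK0 := h.K_nonneg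
    have e1 : ‖w (z - a * I)‖ ≤ A * Real.exp (|B| * a) * Real.exp (|B| * ‖z‖) := by
      refine (hAB _).trans ?_
      rw [mul_assoc, ← Real.exp_add]
      apply mul_le_mul_of_nonneg_left _ hA0
      apply Real.exp_le_exp.2
      have : ‖z - a * I‖ ≤ ‖z‖ + a := by
        refine (norm_sub_le _ _).trans ?_
        simp [abs_of_nonneg ha0]
      have h3 := le_abs_self B
      have h4 := abs_nonneg B
      have h5 := norm_nonneg (z - a * I)
      nlinarith
    have e2 : ‖w 0‖ * Real.exp (-(K * (‖z‖ + a))) ≤ ‖w (z + a * I)‖ := by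
      have h3 := h.lower (z + a * I)
      rw [fold_of_nonneg (him z hz)] at h3
      refine le_trans ?_ h3
      have : ‖z + a * I‖ ≤ ‖z‖ + a := by
        refine (norm_add_le _ _).trans ?_
        simp [abs_of_nonneg ha0]
      gcongr
    have hpos : 0 < ‖w (z + a * I)‖ := h.norm_pos (him z hz)
    rw [div_le_iff₀ hpos]
    refine e1.trans ?_
    have e3 : 1 ≤ Real.exp (K * a) / ‖w 0‖ * Real.exp (K * ‖z‖) * ‖w (z + a * I)‖ := by
      have h6 : Real.exp (K * a) / ‖w 0‖ * Real.exp (K * ‖z‖) *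
          (‖w 0‖ * Real.exp (-(K * (‖z‖ + a)))) = 1 := by
        have : Real.exp (-(K * (‖z‖ + a))) = (Real.exp (K * a))⁻¹ * (Real.exp (K * ‖z‖))⁻¹ := by
          rw [← Real.exp_neg, ← Real.exp_neg, ← Real.exp_add]
          congr 1; ring
        rw [this]
        have e1 := (Real.exp_pos (K * a)).ne'
        have e2 := (Real.exp_pos (K * ‖z‖)).ne'
        field_simp
      calc (1 : ℝ) = Real.exp (K * a) / ‖w 0‖ * Real.exp (K * ‖z‖) *
          (‖w 0‖ * Real.exp (-(K * (‖z‖ + a)))) := h6.symm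
        _ ≤ _ := by gcongr
    have e4 : 0 ≤ A * Real.exp (|B| * a) * Real.exp (|B| * ‖z‖) := by positivity
    calc A * Real.exp (|B| * a) * Real.exp (|B| * ‖z‖)
        = A * Real.exp (|B| * a) * Real.exp (|B| * ‖z‖) * 1 := by ring
      _ ≤ A * Real.exp (|B| * a) * Real.exp (|B| * ‖z‖) *
          (Real.exp (K * a) / ‖w 0‖ * Real.exp (K * ‖z‖) * ‖w (z + a * I)‖) := by gcongr
      _ = A * Real.exp (|B| * a) * (Real.exp (K * a) / ‖w 0‖) *
          Real.exp ((|B| + K) * ‖z‖) * ‖w (z + a * I)‖ := by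
        rw [add_mul, Real.exp_add]; ring
  · intro x'
    have hpos : 0 < ‖w (x' + a * I)‖ := h.norm_pos (by simp; linarith)
    rw [norm_div, div_le_one hpos]
    have h3 := h.norm_le_fold ((x' : ℂ) - a * I)
    have h4 : fold ((x' : ℂ) - a * I) = x' + a * I := by
      rw [fold_of_nonpos (by simp; linarith)]
      apply Complex.ext <;> simp
    rwa [h4] at h3
  · refine ⟨Real.exp (K * (2 * a)), fun y hy => ?_⟩
    have hpos : 0 < ‖w (y * I + a * I)‖ := h.norm_pos (by simp; linarith)
    rw [norm_div, div_le_iff₀ hpos]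
    refine (h.norm_le_fold _).trans ?_
    have h3 := h.lip_fold (y * I + a * I) (y * I - a * I)
    rw [fold_of_nonneg (z := y * I + a * I) (by simp; linarith)] at h3
    have h4 : ‖(y : ℂ) * I - a * I - (y * I + a * I)‖ = 2 * a := by
      have : (y : ℂ) * I - a * I - (y * I + a * I) = ((-(2 * a) : ℝ) : ℂ) * I := by
        push_cast; ring
      rw [this, norm_mul, norm_real, norm_I, mul_one, norm_neg, Real.norm_eq_abs,
        abs_of_nonneg (by linarith)]
    rw [h4] at h3
    exact h3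

end CoreD

/-- The `-z` form of the domination hypothesis implies the conjugate form. -/
lemma dom_of_neg {w : ℂ → ℂ} {K : ℝ} (h : Core w K)
    (hneg : ∀ z : ℂ, 0 < z.im → ‖w (-z)‖ ≤ ‖w z‖) : CoreD w K := by
  refine { toCore := h, dom := ?_ }
  obtain ⟨A, B, hAB⟩ := h.bd
  have hA0 : 0 ≤ A := by
    have h1 := hAB 0
    simp at h1
    exact (norm_nonneg _).trans h1
  have hw0 : 0 < ‖w 0‖ := h.norm_pos (by simp)
  have hK0 := h.K_nonneg
  -- the hypothesis extends to the real line
  have hreal : ∀ x : ℝ, ‖w (-x)‖ ≤ ‖w x‖ := by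
    intro x
    have hc := h.diff.continuous
    have t1 : Tendsto (fun y : ℝ => ‖w (-(x + y * I))‖) (𝓝[>] 0) (𝓝 ‖w (-(x + ((0 : ℝ) : ℂ) * I))‖) := by
      apply Tendsto.mono_left _ nhdsWithin_le_nhds
      apply Continuous.tendsto
      fun_prop
    have t2 : Tendsto (fun y : ℝ => ‖w (x + y * I)‖) (𝓝[>] 0) (𝓝 ‖w (x + ((0 : ℝ) : ℂ) * I)‖) := by
      apply Tendsto.mono_left _ nhdsWithin_le_nhds
      apply Continuous.tendsto
      fun_prop
    have := le_of_tendsto_of_tendsto t1 t2 (by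
      filter_upwards [self_mem_nhdsWithin] with y hy
      exact hneg _ (by simpa using hy))
    simpa using this
  set v : ℂ → ℂ := fun z => sharp w (-z) with hv
  have hvd : Differentiable ℂ v := (sharp_diff h.diff).comp differentiable_neg
  have hvn : ∀ z, ‖v z‖ = ‖w (-(conj z))‖ := by
    intro z
    rw [hv]
    simp only
    rw [norm_sharp]
    simp
  have key : ∀ z : ℂ, 0 ≤ z.im → ‖v z / w z‖ ≤ 1 := by
    apply pl_upper (A := A / ‖w 0‖) (B := |B| + K)
    · intro z hz
      exact (hvd z).div (h.diff z) (h.ne_zero hz)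
    · intro z hz
      rw [norm_div, hvn, div_le_iff₀ (h.norm_pos hz)]
      have e1 : ‖w (-(conj z))‖ ≤ A * Real.exp (|B| * ‖z‖) := by
        refine (hAB _).trans ?_
        rw [norm_neg, Complex.norm_conj]
        gcongr
        exact le_abs_self B
      have e2 : ‖w 0‖ ≤ Real.exp (K * ‖z‖) * ‖w z‖ := by
        have := h.lip (a := z) (b := 0) hz (by simp)
        simpa using this
      calc ‖w (-(conj z))‖ ≤ A * Real.exp (|B| * ‖z‖) := e1
        _ = A / ‖w 0‖ * Real.exp (|B| * ‖z‖) * ‖w 0‖ := by field_simp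
        _ ≤ A / ‖w 0‖ * Real.exp (|B| * ‖z‖) * (Real.exp (K * ‖z‖) * ‖w z‖) := by gcongr
        _ = A / ‖w 0‖ * Real.exp ((|B| + K) * ‖z‖) * ‖w z‖ := by
          rw [add_mul, Real.exp_add]; ring
    · intro x
      rw [norm_div, hvn, div_le_one (h.norm_pos (by simp))]
      simpa using hreal x
    · refine ⟨1, fun y hy => ?_⟩
      rw [norm_div, hvn, div_le_one (h.norm_pos (by simpa using hy))]
      have : -(conj ((y : ℂ) * I)) = y * I := by simp
      rw [this]
  intro z hz
  have h1 := key z hz.le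
  rw [norm_div, hvn, div_le_one (h.norm_pos hz.le)] at h1
  have h2 := hneg (-(conj z)) (by simpa using hz)
  rw [neg_neg] at h2
  exact h2.trans h1

end Pool.Agent.Helper63.Levin
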