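import Pool.Agent.Helper63.Levin.Montel

/-!
The extremal function is zero-free in the upper half-plane and majorizes the space.
-/

namespace Pool.Agent.Helper63.Levin

open Metric Set Complex Filter Topology Bornology MeasureTheory
open scoped ComplexConjugate Interval

/-- Small values on large discs force decay along the imaginary axis. -/
lemma decay {Q : ℂ → ℂ} (hQd : ∀ z : ℂ, 0 ≤ z.im → DifferentiableAt ℂ Q z)
    (hQ1 : ∀ z : ℂ, 0 ≤ z.im → ‖Q z‖ ≤ 1) {η ρ β : ℝ} (hη0 : 0 < η) (hρ0 : 0 < ρ)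
    (hρ1 : ρ ≤ η / 2) (hβ : 0 < β)
    (hseq : ∀ r0 : ℝ, ∃ r : ℝ, r0 ≤ r ∧ ∃ z1 : ℂ, η * r ≤ z1.im ∧ ‖z1‖ ≤ (1 + η) * r ∧
      ∀ u : ℂ, 0 ≤ u.im → ‖u - z1‖ = ρ * r → ‖Q u‖ ≤ Real.exp (-(β * r))) :
    ∃ c : ℝ, 0 < c ∧ ∀ t : ℝ, 0 < t → ‖Q (t * I)‖ ≤ Real.exp (-(c * t)) := by
  set L := 1 + 2 * (1 + η) / ρ with hL
  have hL1 : 1 < L := by
    rw [hL]
    have : 0 < 2 * (1 + η) / ρ := by positivity
    linarith
  set l := Real.log L with hl
  have hl0 : 0 < l := Real.log_pos hL1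
  set c := β * η / (l * (2 + η) ^ 2) with hc
  have hc0 : 0 < c := by positivity
  refine ⟨c, hc0, fun t ht => ?_⟩
  obtain ⟨r, hr0, z1, hz1a, hz1b, hsmall⟩ := hseq (max (max t (2 * t / η + 1)) (2 * l / β))
  have hrt : t ≤ r := (le_max_left _ _).trans ((le_max_left _ _).trans hr0)
  have hrb : 2 * t / η < r := by
    have : 2 * t / η + 1 ≤ r := (le_max_right _ _).trans ((le_max_left _ _).trans hr0)
    linarith
  have hrd : 2 * l / β ≤ r := (le_max_right _ _).trans hr0
  have hrpos : 0 < r := by linarith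
  set s := ρ * r with hs
  have hs0 : 0 < s := by positivity
  have hz1pos : 0 < z1.im := lt_of_lt_of_le (by positivity) hz1a
  set N := β * r with hN
  have hN0 : 0 < N := by positivity
  set n := ⌊N / l⌋₊ with hn
  have hn1 : (n : ℝ) ≤ N / l := Nat.floor_le (by positivity)
  have hn2 : N / l < n + 1 := Nat.lt_floor_add_one _
  have hLs : 1 + 2 * z1.im / s ≤ L := by
    rw [hL, hs]
    have h1 : z1.im ≤ (1 + η) * r := ((le_abs_self _).trans (abs_im_le_norm z1)).trans hz1b
    have : 2 * z1.im / (ρ * r) ≤ 2 * (1 + η) / ρ := by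
      rw [div_le_div_iff₀ (by positivity) hρ0]
      nlinarith
    linarith
  have hbn : Real.exp (-N) * (1 + 2 * z1.im / s) ^ n ≤ 1 := by
    have e0 : 0 ≤ 1 + 2 * z1.im / s := by positivity
    have e1 : (1 + 2 * z1.im / s) ^ n ≤ Real.exp N := by
      calc (1 + 2 * z1.im / s) ^ n ≤ L ^ n := pow_le_pow_left₀ e0 hLs n
        _ = Real.exp (n * l) := by
          rw [Real.exp_nat_mul, hl, Real.exp_log (by linarith)]
        _ ≤ Real.exp N := by
          apply Real.exp_le_exp.2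
          rwa [le_div_iff₀ hl0] at hn1
    calc Real.exp (-N) * (1 + 2 * z1.im / s) ^ n ≤ Real.exp (-N) * Real.exp N := by gcongr
      _ = 1 := by rw [← Real.exp_add]; simp
  have hfar : s < ‖(t : ℂ) * I - z1‖ := by
    have f1 := abs_im_le_norm ((t : ℂ) * I - z1)
    rw [Complex.sub_im] at f1
    simp only [mul_im, ofReal_re, I_im, mul_one, ofReal_im, I_re, mul_zero, add_zero] at f1
    have f2 := neg_abs_le (t - z1.im)
    have f3 : 2 * t < r * η := by rwa [div_lt_iff₀ hη0] at hrb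
    have f4 : s ≤ η / 2 * r := by rw [hs]; gcongr
    linarith
  have tc := two_const hQd hQ1 hs0 hz1pos hsmall hbn (t * I) (by simpa using ht) hfar
  have hgeom := geom ht hη0 hrt hz1a hz1b
  have hup : 0 < ‖(t : ℂ) * I - z1‖ := by linarith
  set a := 2 * t * η / ((2 + η) ^ 2 * r) with ha
  have hratio : Real.exp a ≤ ‖(t : ℂ) * I - conj z1‖ / ‖(t : ℂ) * I - z1‖ := by
    rw [le_div_iff₀ hup]
    have : Real.exp a * ‖(t : ℂ) * I - z1‖ ≤
        Real.exp a * (Real.exp (-a) * ‖(t : ℂ) * I - conj z1‖) := by gcongr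
    rw [← mul_assoc, ← Real.exp_add] at this
    simpa using this
  have h5 : ‖Q (t * I)‖ * Real.exp (n * a) ≤ 1 := by
    rw [Real.exp_nat_mul]
    refine le_trans ?_ tc
    gcongr
  have h6 : c * t ≤ n * a := by
    have g1 : N / l - 1 ≤ n := by linarith
    have g2 : N / l / 2 ≤ N / l - 1 := by
      have : 2 ≤ N / l := by
        rw [le_div_iff₀ hl0, hN]
        rw [div_le_iff₀ hβ] at hrd
        linarith
      linarith
    have ha0 : 0 ≤ a := by positivity
    calc c * t = N / l / 2 * a := by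
          rw [hc, hN, ha]
          field_simp
      _ ≤ n * a := mul_le_mul_of_nonneg_right (g2.trans g1) ha0
  have h7 : Real.exp (c * t) ≤ Real.exp (n * a) := Real.exp_le_exp.2 h6
  rw [Real.exp_neg, ← one_div, le_div_iff₀ (Real.exp_pos _)]
  calc ‖Q (t * I)‖ * Real.exp (c * t) ≤ ‖Q (t * I)‖ * Real.exp (n * a) := by gcongr
    _ ≤ 1 := h5

lemma ExpTypeLE.mul_sub {σ : ℝ} {f : ℂ → ℂ} (hf : ExpTypeLE σ f) (b : ℂ) :
    ExpTypeLE σ (fun z => f z * (z - b)) := by
  intro e he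
  obtain ⟨C, hC⟩ := hf (e / 2) (by positivity)
  have hC0 : 0 ≤ C := by
    have := hC 0
    simp at this
    exact (norm_nonneg _).trans this
  refine ⟨C * (2 / e + ‖b‖), fun z => ?_⟩
  rw [norm_mul]
  have h1 : ‖z - b‖ ≤ (2 / e + ‖b‖) * Real.exp (e / 2 * ‖z‖) := by
    have h2 := Real.add_one_le_exp (e / 2 * ‖z‖)
    have h3 : 1 ≤ Real.exp (e / 2 * ‖z‖) := Real.one_le_exp (by positivity)
    have h4 : ‖z‖ ≤ 2 / e * Real.exp (e / 2 * ‖z‖) := by
      rw [div_mul_eq_mul_div, le_div_iff₀ he]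
      linarith
    have h5 : ‖b‖ ≤ ‖b‖ * Real.exp (e / 2 * ‖z‖) := by
      have := norm_nonneg b
      nlinarith
    calc ‖z - b‖ ≤ ‖z‖ + ‖b‖ := norm_sub_le _ _
      _ ≤ _ := by rw [add_mul]; exact add_le_add h4 h5
  calc ‖f z‖ * ‖z - b‖ ≤ (C * Real.exp ((σ + e / 2) * ‖z‖)) *
        ((2 / e + ‖b‖) * Real.exp (e / 2 * ‖z‖)) := by
        gcongr
        exact hC z
    _ = C * (2 / e + ‖b‖) * Real.exp ((σ + e) * ‖z‖) := by
      have : (σ + e) * ‖z‖ = (σ + e / 2) * ‖z‖ + e / 2 * ‖z‖ := by ring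
      rw [this, Real.exp_add]; ring

lemma ExpTypeLE.dslope {σ : ℝ} (hσ : 0 ≤ σ) {f : ℂ → ℂ} (hf : ExpTypeLE σ f)
    (hfd : Differentiable ℂ f) {a : ℂ} (ha : f a = 0) : ExpTypeLE σ (dslope f a) := by
  intro e he
  obtain ⟨C, hC⟩ := hf e he
  have hC0 : 0 ≤ C := by
    have := hC 0
    simp at this
    exact (norm_nonneg _).trans this
  have hd : Differentiable ℂ (_root_.dslope f a) := by
    rw [← differentiableOn_univ, differentiableOn_dslope univ_mem]
    exact hfd.differentiableOn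
  obtain ⟨B, hB⟩ := (isCompact_closedBall a 1).exists_bound_of_continuousOn
    hd.continuous.continuousOn
  refine ⟨C + |B|, fun z => ?_⟩
  have hexp : 1 ≤ Real.exp ((σ + e) * ‖z‖) := Real.one_le_exp (by positivity)
  by_cases hz : z ∈ closedBall a 1
  · have h1 := hB z hz
    have h2 := le_abs_self B
    have h3 := abs_nonneg B
    nlinarith
  · have h1 : 1 < ‖z - a‖ := by
      rw [mem_closedBall, dist_eq_norm] at hz
      exact not_le.1 hz
    have hne : z ≠ a := by
      rintro rfl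
      simp at h1
      linarith
    rw [dslope_of_ne _ hne, slope_def_field, ha, sub_zero, norm_div]
    have h2 := hC z
    have h3 : ‖f z‖ / ‖z - a‖ ≤ ‖f z‖ := by
      apply div_le_self (norm_nonneg _) h1.le
    have h4 : 0 ≤ |B| * Real.exp ((σ + e) * ‖z‖) := by positivity
    calc ‖f z‖ / ‖z - a‖ ≤ C * Real.exp ((σ + e) * ‖z‖) := h3.trans h2
      _ ≤ (C + |B|) * Real.exp ((σ + e) * ‖z‖) := by
        rw [add_mul C]; linarith

/-- The data of an extremal function. -/
structure Ext (σ : ℝ) (v : ℂ → ℂ) (z0 : ℂ) : Prop where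
  diff : Differentiable ℂ v
  typ : ExpTypeLE σ v
  im_pos : 0 < z0.im
  ne : v z0 ≠ 0
  maxi : ∀ g : ℂ → ℂ, Differentiable ℂ g → ExpTypeLE σ g → (∀ x : ℝ, ‖g x‖ = ‖v x‖) →
    ‖g z0‖ ≤ ‖v z0‖

namespace Ext

variable {σ : ℝ} {v : ℂ → ℂ} {z0 : ℂ} (h : Ext σ v z0)
include h

lemma nz (hσ : 0 ≤ σ) {a : ℂ} (ha : 0 < a.im) : v a ≠ 0 := by
  intro hva
  have hne : z0 ≠ a := by
    rintro rfl
    exact h.ne hva
  have hd : Differentiable ℂ (dslope v a) := by
    rw [← differentiableOn_univ, differentiableOn_dslope univ_mem]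
    exact h.diff.differentiableOn
  have key := h.maxi (fun z => dslope v a z * (z - conj a)) (hd.mul (by fun_prop))
    ((h.typ.dslope hσ h.diff hva).mul_sub (conj a)) (by
      intro x
      have hxne : (x : ℂ) ≠ a := by
        intro hx
        have := congrArg Complex.im hx
        simp at this
        linarith
      rw [dslope_of_ne _ hxne, slope_def_field, hva, sub_zero, norm_mul, norm_div]
      have e1 : ‖(x : ℂ) - conj a‖ = ‖(x : ℂ) - a‖ := by
        have : (x : ℂ) - conj a = conj ((x : ℂ) - a) := by simp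
        rw [this, Complex.norm_conj]
      rw [e1, div_mul_cancel₀]
      exact norm_ne_zero_iff.2 (sub_ne_zero.2 hxne))
  rw [dslope_of_ne _ hne, slope_def_field, hva, sub_zero, norm_mul, norm_div] at key
  have hp : 0 < ‖v z0‖ := norm_pos_iff.2 h.ne
  have hq : 0 < ‖z0 - a‖ := norm_pos_iff.2 (sub_ne_zero.2 hne)
  rw [div_mul_eq_mul_div, div_le_iff₀ hq] at key
  have e2 : ‖z0 - conj a‖ ≤ ‖z0 - a‖ := le_of_mul_le_mul_left key hp
  have e3 : ‖z0 - conj a‖ ^ 2 = ‖z0 - a‖ ^ 2 + 4 * z0.im * a.im := by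
    rw [Complex.sq_norm, Complex.sq_norm, Complex.normSq_apply, Complex.normSq_apply]
    simp
    ring
  have e4 : ‖z0 - conj a‖ ^ 2 ≤ ‖z0 - a‖ ^ 2 := pow_le_pow_left₀ (norm_nonneg _) e2 2
  have e5 : 0 < 4 * z0.im * a.im := by have := h.im_pos; positivity
  linarith

/-- Improvement step for the extremal function. -/
lemma improve {K : ℝ} (hc : Core v K) (hσ : 0 ≤ σ) {f : ℂ → ℂ} (hf : Differentiable ℂ f)
    (hft : ExpTypeLE σ f) {M τ : ℝ} (hM : 0 < M) (hτ : 0 < τ)
    (hfM : ∀ z : ℂ, 0 ≤ z.im → ‖f z‖ ≤ M * Real.exp (τ * z.im) * ‖v z‖) :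
    ∃ c : ℝ, 0 < c ∧ ∀ z : ℂ, 0 ≤ z.im → ‖f z‖ ≤ M * Real.exp ((τ - c) * z.im) * ‖v z‖ := by
  have hK0 := hc.K_nonneg
  -- the tilted function is not of type σ
  set vt : ℂ → ℂ := fun z => v z * Complex.exp (-(I * τ * z)) with hvt
  have hvtn : ∀ z : ℂ, ‖vt z‖ = ‖v z‖ * Real.exp (τ * z.im) := by
    intro z
    rw [hvt]
    simp only [norm_mul, Complex.norm_exp]
    congr 2
    simp [mul_assoc]
  have hnot : ¬ ExpTypeLE σ vt := by
    intro hcon
    have := h.maxi vt (h.diff.mul (by fun_prop)) hcon (by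
      intro x
      rw [hvtn]
      simp)
    rw [hvtn] at this
    have hp : 0 < ‖v z0‖ := norm_pos_iff.2 h.ne
    have h1 : 1 < Real.exp (τ * z0.im) := by
      rw [Real.one_lt_exp_iff]
      have := h.im_pos
      positivity
    nlinarith
  unfold ExpTypeLE at hnot
  push Not at hnot
  obtain ⟨e, he, hbig⟩ := hnot
  obtain ⟨C20, hC20⟩ := h.typ (e / 2) (by positivity)
  set C2 := max C20 1 with hC2def
  have hC21 : 1 ≤ C2 := le_max_right _ _
  have hC2 : ∀ z, ‖v z‖ ≤ C2 * Real.exp ((σ + e / 2) * ‖z‖) := by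
    intro z
    refine (hC20 z).trans ?_
    gcongr
    exact le_max_left _ _
  obtain ⟨Cf, hCf⟩ := hft (e / 4) (by positivity)
  have hCf0 : 0 ≤ Cf := by
    have := hCf 0
    simp at this
    exact (norm_nonneg _).trans this
  set η := e / (2 * τ) with hη
  have hη0 : 0 < η := by positivity
  set D := σ + e / 4 + K + τ with hD
  have hD0 : 0 < D := by positivity
  set ρ := min (η / 2) (e / (4 * D)) with hρ
  have hρ0 : 0 < ρ := lt_min (by positivity) (by positivity)
  have hρ1 : ρ ≤ η / 2 := min_le_left _ _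
  have hρ2 : D * ρ ≤ e / 4 := by
    have : ρ ≤ e / (4 * D) := min_le_right _ _
    calc D * ρ ≤ D * (e / (4 * D)) := by gcongr
      _ = e / 4 := by field_simp
  set Q : ℂ → ℂ := fun u => f u / ((M : ℂ) * v u) * Complex.exp (I * τ * u) with hQ
  have hQn : ∀ u : ℂ, ‖Q u‖ = ‖f u‖ / (M * ‖v u‖) * Real.exp (-(τ * u.im)) := by
    intro u
    rw [hQ]
    simp only [norm_mul, norm_div, Complex.norm_exp, norm_real, Real.norm_eq_abs, abs_of_pos hM]
    congr 2
    simp [mul_assoc]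
  have hQd : ∀ z : ℂ, 0 ≤ z.im → DifferentiableAt ℂ Q z := by
    intro z hz
    apply DifferentiableAt.mul
    · apply (hf z).div ((hc.diff z).const_mul _)
      apply mul_ne_zero _ (hc.ne_zero hz)
      exact_mod_cast hM.ne'
    · fun_prop
  have hQ1 : ∀ z : ℂ, 0 ≤ z.im → ‖Q z‖ ≤ 1 := by
    intro z hz
    rw [hQn]
    have h1 := hfM z hz
    have h2 := hc.norm_pos hz
    have h3 : ‖f z‖ / (M * ‖v z‖) ≤ Real.exp (τ * z.im) := by
      rw [div_le_iff₀ (by positivity)]
      calc ‖f z‖ ≤ M * Real.exp (τ * z.im) * ‖v z‖ := h1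
        _ = _ := by ring
    calc ‖f z‖ / (M * ‖v z‖) * Real.exp (-(τ * z.im))
        ≤ Real.exp (τ * z.im) * Real.exp (-(τ * z.im)) := by gcongr
      _ = 1 := by rw [← Real.exp_add]; simp
  obtain ⟨c, hc0, axis⟩ := decay hQd hQ1 hη0 hρ0 hρ1 (by positivity : 0 < e / 4) (by
    intro r0
    -- force the radius to be large
    obtain ⟨r1, hr1a, hr1b, hr1c⟩ : ∃ r1 : ℝ, r0 ≤ r1 ∧ 0 ≤ r1 ∧
        Cf / M ≤ Real.exp (e / 4 * r1) := by
      have e1 : ∀ᶠ r : ℝ in atTop, Cf / M ≤ Real.exp (e / 4 * r) := by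
        have : Tendsto (fun r : ℝ => Real.exp (e / 4 * r)) atTop atTop :=
          Real.tendsto_exp_atTop.comp (tendsto_id.const_mul_atTop (by positivity))
        exact this.eventually_ge_atTop _
      obtain ⟨r, h1, h2, h3⟩ := ((eventually_ge_atTop r0).and ((eventually_ge_atTop 0).and e1)).exists
      exact ⟨r, h1, h2, h3⟩
    obtain ⟨z, hz⟩ := hbig (C2 * Real.exp (τ * r1))
    rw [hvtn] at hz
    set r := ‖z‖ with hr
    have hyr : z.im ≤ r := (le_abs_self _).trans (abs_im_le_norm z)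
    have hexp1 : (1 : ℝ) ≤ Real.exp (τ * r1) := Real.one_le_exp (by positivity)
    have hlt : Real.exp (τ * r1) * Real.exp (e / 2 * r) < Real.exp (τ * z.im) := by
      have h1 : C2 * Real.exp (τ * r1) * Real.exp ((σ + e) * r) <
          C2 * Real.exp ((σ + e / 2) * r) * Real.exp (τ * z.im) :=
        hz.trans_le (mul_le_mul_of_nonneg_right (hC2 z) (Real.exp_pos _).le)
      have h2 : Real.exp ((σ + e) * r) = Real.exp (e / 2 * r) * Real.exp ((σ + e / 2) * r) := by
        rw [← Real.exp_add]; congr 1; ring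
      rw [h2] at h1
      have h3 : (C2 * Real.exp ((σ + e / 2) * r)) * (Real.exp (τ * r1) * Real.exp (e / 2 * r)) <
          (C2 * Real.exp ((σ + e / 2) * r)) * Real.exp (τ * z.im) := by
        linarith
      exact lt_of_mul_lt_mul_left h3 (by positivity)
    rw [← Real.exp_add, Real.exp_lt_exp] at hlt
    have hr0' : 0 ≤ r := norm_nonneg _
    have hy : η * r ≤ z.im := by
      rw [hη, div_mul_eq_mul_div, div_le_iff₀ (by positivity)]
      have : 0 ≤ τ * r1 := by positivity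
      linarith
    have hrr : r1 ≤ r := by
      have h1 : τ * r1 < τ * r := by
        have h2 : τ * z.im ≤ τ * r := by gcongr
        have h3 : 0 ≤ e / 2 * r := by positivity
        linarith
      exact (lt_of_mul_lt_mul_left h1 hτ.le).le
    have hrpos : 0 ≤ z.im := le_trans (by positivity) hy
    refine ⟨r, hr1a.trans hrr, z, hy, by nlinarith, ?_⟩
    intro u hu hus
    rw [hQn]
    have e1 : ‖f u‖ ≤ Cf * Real.exp ((σ + e / 4) * (r + ρ * r)) := by
      refine (hCf u).trans ?_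
      gcongr
      calc ‖u‖ = ‖z + (u - z)‖ := by ring_nf
        _ ≤ ‖z‖ + ‖u - z‖ := norm_add_le _ _
        _ = r + ρ * r := by rw [hus]
    have e2 : Real.exp ((σ + e) * r - τ * z.im - K * (ρ * r)) ≤ ‖v u‖ := by
      have f1 := hc.lip (a := u) (b := z) hu hrpos
      rw [norm_sub_rev, hus] at f1
      have f2 : Real.exp ((σ + e) * r - τ * z.im) ≤ ‖v z‖ := by
        rw [Real.exp_sub, div_le_iff₀ (Real.exp_pos _)]
        have : 1 * Real.exp ((σ + e) * r) ≤ C2 * Real.exp (τ * r1) * Real.exp ((σ + e) * r) := by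
          gcongr
          nlinarith
        linarith
      rw [Real.exp_sub _ (K * (ρ * r)), div_le_iff₀ (Real.exp_pos _)]
      linarith
    have e3 : z.im - ρ * r ≤ u.im := by
      have f1 := abs_im_le_norm (u - z)
      rw [hus, Complex.sub_im, abs_le] at f1
      linarith [f1.1]
    have hvu : 0 < ‖v u‖ := hc.norm_pos hu
    calc ‖f u‖ / (M * ‖v u‖) * Real.exp (-(τ * u.im))
        ≤ (Cf * Real.exp ((σ + e / 4) * (r + ρ * r))) /
            (M * Real.exp ((σ + e) * r - τ * z.im - K * (ρ * r))) *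
            Real.exp (-(τ * (z.im - ρ * r))) := by gcongr
      _ = Cf / M * Real.exp (-(3 / 4 * e * r) + D * ρ * r) := by
        have : Real.exp (-(3 / 4 * e * r) + D * ρ * r) =
            Real.exp ((σ + e / 4) * (r + ρ * r)) /
            Real.exp ((σ + e) * r - τ * z.im - K * (ρ * r)) *
            Real.exp (-(τ * (z.im - ρ * r))) := by
          rw [← Real.exp_sub, ← Real.exp_add]
          congr 1
          rw [hD]; ring
        rw [this]
        field_simp
      _ ≤ Real.exp (e / 4 * r) * Real.exp (-(3 / 4 * e * r) + e / 4 * r) := by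
        have h1 : Cf / M ≤ Real.exp (e / 4 * r) := by
          refine hr1c.trans (Real.exp_le_exp.2 ?_)
          gcongr
        gcongr
      _ = Real.exp (-(e / 4 * r)) := by
        rw [← Real.exp_add]; congr 1; ring)
  refine ⟨c, hc0, ?_⟩
  have key := pl_upper_exp (F := Q) (A := 1) (B := 0) (B' := -c) (C := 1) hQd
    (fun z hz => by simpa using hQ1 z hz) (fun x => hQ1 x (by simp)) ⟨1, by
      intro y hy
      rcases hy.eq_or_lt with h0 | hpos
      · subst h0
        simpa using hQ1 0 (by simp)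
      · have := axis y hpos
        simpa using this⟩
  intro z hz
  have h1 := key z hz
  rw [hQn] at h1
  have h2 := hc.norm_pos hz
  have h3 : ‖f z‖ = ‖f z‖ / (M * ‖v z‖) * Real.exp (-(τ * z.im)) *
      (M * ‖v z‖ * Real.exp (τ * z.im)) := by
    have : Real.exp (-(τ * z.im)) * Real.exp (τ * z.im) = 1 := by
      rw [← Real.exp_add]; simp
    calc ‖f z‖ = ‖f z‖ / (M * ‖v z‖) * (M * ‖v z‖) * 1 := by field_simp
      _ = ‖f z‖ / (M * ‖v z‖) * (M * ‖v z‖) * (Real.exp (-(τ * z.im)) * Real.exp (τ * z.im)) := by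
        rw [this]
      _ = _ := by ring
  rw [h3]
  calc ‖f z‖ / (M * ‖v z‖) * Real.exp (-(τ * z.im)) * (M * ‖v z‖ * Real.exp (τ * z.im))
      ≤ 1 * Real.exp (-c * z.im) * (M * ‖v z‖ * Real.exp (τ * z.im)) := by gcongr
    _ = M * Real.exp ((τ - c) * z.im) * ‖v z‖ := by
      rw [show (τ - c) * z.im = -c * z.im + τ * z.im by ring, Real.exp_add]; ring

end Ext

end Pool.Agent.Helper63.Levin
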