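import Pool.Agent.Helper63.Levin.Extremal

/-!
The general case: the spectrum for every weight whose space is complete and stable under
differentiation.
-/

namespace Pool.Agent.Helper63.Levin

open Metric Set Complex Filter Topology Bornology MeasureTheory
open scoped ComplexConjugate Interval

lemma Core.inf_arg {w : ℂ → ℂ} {K : ℝ} (h : Core w K) {σ : ℝ} (hσ0 : 0 ≤ σ) {f : ℂ → ℂ}
    (hf : Differentiable ℂ f) (hft : ExpTypeLE σ f) {M : ℝ} (hM : 0 < M)
    (hfM : ∀ x : ℝ, ‖f x‖ ≤ M * ‖w x‖)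
    (himp : ∀ τ : ℝ, 0 < τ → (∀ z : ℂ, 0 ≤ z.im → ‖f z‖ ≤ M * Real.exp (τ * z.im) * ‖w z‖) →
      ∃ c : ℝ, 0 < c ∧ ∀ z : ℂ, 0 ≤ z.im → ‖f z‖ ≤ M * Real.exp ((τ - c) * z.im) * ‖w z‖) :
    ∀ z : ℂ, 0 ≤ z.im → ‖f z‖ ≤ M * ‖w z‖ := by
  have hK0 := h.K_nonneg
  set T : Set ℝ := {τ | 0 ≤ τ ∧ ∀ z : ℂ, 0 ≤ z.im → ‖f z‖ ≤ M * Real.exp (τ * z.im) * ‖w z‖}
    with hT
  have hw0 : 0 < ‖w 0‖ := h.norm_pos (by simp)
  have hne : T.Nonempty := by
    obtain ⟨C, hC⟩ := hft 1 one_pos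
    have hC0 : 0 ≤ C := by
      have := hC 0
      simp at this
      exact (norm_nonneg _).trans this
    have hlow : ∀ z : ℂ, 0 ≤ z.im → ‖w 0‖ ≤ Real.exp (K * ‖z‖) * ‖w z‖ := by
      intro z hz
      have := h.lip (a := z) (b := 0) hz (by simp)
      simpa using this
    have hq : ∀ z : ℂ, 0 ≤ z.im → ‖f z / w z‖ ≤ C / ‖w 0‖ * Real.exp ((σ + 1 + K) * ‖z‖) := by
      intro z hz
      rw [norm_div, div_le_iff₀ (h.norm_pos hz)]
      calc ‖f z‖ ≤ C * Real.exp ((σ + 1) * ‖z‖) := hC z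
        _ = C / ‖w 0‖ * Real.exp ((σ + 1) * ‖z‖) * ‖w 0‖ := by field_simp
        _ ≤ C / ‖w 0‖ * Real.exp ((σ + 1) * ‖z‖) * (Real.exp (K * ‖z‖) * ‖w z‖) := by
          have := hlow z hz
          gcongr
        _ = _ := by rw [add_mul (σ + 1), Real.exp_add]; ring
    have key := pl_upper_exp (F := fun z => f z / w z) (A := C / ‖w 0‖) (B := σ + 1 + K)
      (B' := σ + 1 + K) (C := M) (fun z hz => (hf z).div (h.diff z) (h.ne_zero hz)) hq
      (fun x => by
        rw [norm_div, div_le_iff₀ (norm_pos_iff.2 (h.nz_real x))]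
        exact hfM x)
      ⟨C / ‖w 0‖, fun y hy => by
        have := hq (y * I) (by simpa using hy)
        simpa [abs_of_nonneg hy] using this⟩
    refine ⟨σ + 1 + K, by positivity, fun z hz => ?_⟩
    have := key z hz
    rw [norm_div, div_le_iff₀ (h.norm_pos hz)] at this
    exact this
  have hbdd : BddBelow T := ⟨0, fun τ hτ => hτ.1⟩
  set τ0 := sInf T with hτ0
  have hτ0nn : 0 ≤ τ0 := le_csInf hne (fun τ hτ => hτ.1)
  have hmem : ∀ z : ℂ, 0 ≤ z.im → ‖f z‖ ≤ M * Real.exp (τ0 * z.im) * ‖w z‖ := by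
    intro z hz
    have hcont : Tendsto (fun τ : ℝ => M * Real.exp (τ * z.im) * ‖w z‖) (𝓝[>] τ0)
        (𝓝 (M * Real.exp (τ0 * z.im) * ‖w z‖)) := by
      apply Tendsto.mono_left _ nhdsWithin_le_nhds
      apply Continuous.tendsto
      fun_prop
    apply ge_of_tendsto hcont
    filter_upwards [self_mem_nhdsWithin] with τ hτ
    obtain ⟨τ', hτ'T, hτ'⟩ := exists_lt_of_csInf_lt hne hτ
    refine (hτ'T.2 z hz).trans ?_
    gcongr
  have hzero : τ0 = 0 := by
    by_contra hne0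
    have hpos : 0 < τ0 := lt_of_le_of_ne hτ0nn (Ne.symm hne0)
    obtain ⟨c, hc0, hc⟩ := himp τ0 hpos hmem
    have hin : max (τ0 - c) 0 ∈ T := by
      refine ⟨le_max_right _ _, fun z hz => (hc z hz).trans ?_⟩
      gcongr
      exact le_max_left _ _
    have := csInf_le hbdd hin
    have h2 : max (τ0 - c) 0 < τ0 := max_lt (by linarith) hpos
    linarith
  intro z hz
  have := hmem z hz
  rw [hzero] at this
  simpa using this

/-- An extremal function with bounded logarithmic derivative majorizes. -/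
lemma Ext.major {σ : ℝ} {v : ℂ → ℂ} {z0 : ℂ} (h : Ext σ v z0) {K : ℝ} (hc : Core v K)
    (hσ : 0 ≤ σ) {f : ℂ → ℂ} (hf : Differentiable ℂ f) (hft : ExpTypeLE σ f) {M : ℝ}
    (hM : 0 < M) (hfM : ∀ x : ℝ, ‖f x‖ ≤ M * ‖v x‖) :
    ∀ z : ℂ, 0 ≤ z.im → ‖f z‖ ≤ M * ‖v z‖ :=
  hc.inf_arg hσ hf hft hM hfM (fun _ hτ hτf => h.improve hc hσ hf hft hM hτ hτf)

lemma ExpTypeLE.sharp {σ : ℝ} {f : ℂ → ℂ} (hf : ExpTypeLE σ f) : ExpTypeLE σ (sharp f) := by
  intro e he
  obtain ⟨C, hC⟩ := hf e he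
  refine ⟨C, fun u => ?_⟩
  rw [norm_sharp]
  simpa using hC (conj u)

/-- The identity between spaces with the same modulus of the weight on the line. -/
noncomputable def transfer {σ : ℝ} {w v : ℂ → ℂ} (hwv : ∀ x : ℝ, ‖v x‖ = ‖w x‖) :
    ESpace σ w ≃ₗ[ℂ] ESpace σ v where
  toFun f := ⟨f.1, f.2.1, f.2.2.1, by
    obtain ⟨C, hC⟩ := f.2.2.2
    exact ⟨C, fun x => by rw [hwv]; exact hC x⟩⟩
  invFun f := ⟨f.1, f.2.1, f.2.2.1, by
    obtain ⟨C, hC⟩ := f.2.2.2
    exact ⟨C, fun x => by rw [← hwv]; exact hC x⟩⟩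
  left_inv _ := rfl
  right_inv _ := rfl
  map_add' _ _ := rfl
  map_smul' _ _ := rfl

lemma norm_transfer {σ : ℝ} {w v : ℂ → ℂ} (hwv : ∀ x : ℝ, ‖v x‖ = ‖w x‖) (f : ESpace σ w) :
    ‖transfer hwv f‖ = ‖f‖ := by
  rw [ESpace.norm_def, ESpace.norm_def]
  congr 1
  funext x
  rw [norm_div, norm_div, hwv]
  rfl

/-- The general theorem. -/
theorem general {σ : ℝ} {w : ℂ → ℂ} (hσ : 0 ≤ σ) (hdiff : Differentiable ℂ w)
    (htyp : ExpTypeLE σ w) (hleast : ∀ t, ExpTypeLE t w → σ ≤ t)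
    (hdom : (∀ z : ℂ, 0 < z.im → ‖w (-z)‖ ≤ ‖w z‖) ∨
      (∀ z : ℂ, 0 < z.im → ‖w (conj z)‖ ≤ ‖w z‖))
    (hcomp : CompleteSpace (ESpace σ w)) (D : ESpace σ w →L[ℂ] ESpace σ w)
    (hD : ∀ f z, D f z = deriv f z) :
    ∃ (v : ℂ → ℂ) (K : ℝ), Wt σ v K ∧ (∀ x : ℝ, ‖v x‖ = ‖w x‖) ∧
      (∀ (f : ESpace σ w) (z : ℂ), 0 ≤ z.im → ‖f z‖ ≤ ‖f‖ * ‖v z‖) ∧
      spectrum ℂ D = specS v ∧ spectrum ℂ D = specC v := by
  -- a point where the weight does not vanish
  obtain ⟨z0, hz0, hwz0⟩ : ∃ z0 : ℂ, 0 < z0.im ∧ w z0 ≠ 0 := by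
    by_contra hcon
    push Not at hcon
    have hreal : ∀ x : ℝ, w x = 0 := by
      intro x
      have hc := hdiff.continuous
      have t1 : Tendsto (fun y : ℝ => w (x + y * I)) (𝓝[>] 0) (𝓝 (w (x + ((0 : ℝ) : ℂ) * I))) := by
        apply Tendsto.mono_left _ nhdsWithin_le_nhds
        apply Continuous.tendsto
        fun_prop
      have t2 : Tendsto (fun y : ℝ => w (x + y * I)) (𝓝[>] 0) (𝓝 0) := by
        apply tendsto_const_nhds.congr'
        filter_upwards [self_mem_nhdsWithin] with y hy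
        exact (hcon _ (by simpa using hy)).symm
      have := tendsto_nhds_unique t1 t2
      simpa using this
    have hall := eq_zero_of_real hdiff hreal
    have := hleast (σ - 1) (fun e _ => ⟨0, fun z => by rw [hall z]; simp⟩)
    linarith
  obtain ⟨g, hgreal, hgmax⟩ := exists_extremal (σ := σ) hdiff htyp z0
  set v : ℂ → ℂ := g.1 with hv
  have hvreal : ∀ x : ℝ, ‖v x‖ = ‖w x‖ := hgreal
  have hext : Ext σ v z0 := by
    refine ⟨g.diff, g.type, hz0, ?_, ?_⟩
    · have h1 := hgmax (ESpace.mk' w hdiff htyp (C := 1) (fun x => by simp)) (fun x => rfl)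
      have h2 : 0 < ‖w z0‖ := norm_pos_iff.2 hwz0
      rw [ESpace.mk'_apply] at h1
      exact norm_pos_iff.1 (lt_of_lt_of_le h2 h1)
    · intro g' h1 h2 h3
      exact hgmax (ESpace.mk' g' h1 h2 (C := 1) (fun x => by rw [h3, hvreal, one_mul]))
        (fun x => by rw [ESpace.mk'_apply, h3, hvreal])
  obtain ⟨K, hK⟩ := (D g).bd
  have hcore : Core v K := by
    refine ⟨g.diff, ?_, fun z hz => hext.nz hσ hz, ?_⟩
    · obtain ⟨C, hC⟩ := g.type 1 one_pos
      exact ⟨C, σ + 1, hC⟩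
    · intro x
      have := hK x
      rwa [hD, ← hvreal] at this
  have hmaj : ∀ (f : ℂ → ℂ), Differentiable ℂ f → ExpTypeLE σ f → (∀ x : ℝ, ‖f x‖ ≤ ‖v x‖) →
      ∀ z : ℂ, 0 ≤ z.im → ‖f z‖ ≤ ‖v z‖ := by
    intro f h1 h2 h3 z hz
    have := hext.major hcore hσ h1 h2 one_pos (fun x => by rw [one_mul]; exact h3 x) z hz
    rwa [one_mul] at this
  have hwmaj : ∀ z : ℂ, 0 ≤ z.im → ‖w z‖ ≤ ‖v z‖ :=
    hmaj w hdiff htyp (fun x => (hvreal x).ge)
  have hwt : Wt σ v K := by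
    refine { toCoreD := { toCore := hcore, dom := ?_ }, pos := hσ, typ := g.type, least := ?_ }
    · intro z hz
      have := hmaj (sharp v) (sharp_diff g.diff) g.type.sharp
        (fun x => (norm_sharp_real v x).le) z hz.le
      rwa [norm_sharp] at this
    · intro t ht
      apply hleast
      intro e he
      obtain ⟨C, hC⟩ := ht e he
      refine ⟨C, fun z => ?_⟩
      rcases le_or_gt 0 z.im with hz | hz
      · exact (hwmaj z hz).trans (hC z)
      · rcases hdom with hdom | hdom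
        · have h1 := hdom (-z) (by simpa using hz)
          rw [neg_neg] at h1
          have h2 := hwmaj (-z) (by simpa using hz.le)
          have h3 := hC (-z)
          rw [norm_neg] at h3
          exact h1.trans (h2.trans h3)
        · have h1 := hdom (conj z) (by simpa using hz)
          rw [Complex.conj_conj] at h1
          have h2 := hwmaj (conj z) (by simpa using hz.le)
          have h3 := hC (conj z)
          rw [Complex.norm_conj] at h3
          exact h1.trans (h2.trans h3)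
  refine ⟨v, K, hwt, hvreal, ?_, ?_⟩
  · intro f z hz
    have h1 := hwt.app_le (transfer hvreal f) z
    rw [norm_transfer, fold_of_nonneg hz] at h1
    exact h1
  · -- transfer of the spectrum
    have hspec : spectrum ℂ D = spectrum ℂ hwt.D := by
      set e0 : ESpace σ w ≃ₗᵢ[ℂ] ESpace σ v := ⟨transfer hvreal, norm_transfer hvreal⟩ with he0
      set e : ESpace σ w ≃L[ℂ] ESpace σ v := e0.toContinuousLinearEquiv with he
      have h1 : e.conjContinuousAlgEquiv D = hwt.D := by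
        ext f
        apply ESpace.ext'
        intro z
        rw [ContinuousLinearEquiv.conjContinuousAlgEquiv_apply_apply]
        have h2 : ∀ (f : ESpace σ w) (z : ℂ), (e f) z = f z := fun _ _ => rfl
        rw [h2, hD, hwt.D_apply]
        rfl
      rw [← h1]
      exact (AlgEquiv.spectrum_eq e.conjContinuousAlgEquiv D).symm
    rw [hspec]
    exact hwt.spectrum_eq

end Pool.Agent.Helper63.Levin
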