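import Pool.Agent.Helper63.Levin.SpecZero

/-!
Divided differences in the space and the kernel elements.
-/

namespace Pool.Agent.Helper63.Levin

open Metric Set Complex Filter Topology Bornology
open scoped ComplexConjugate

namespace Wt

variable {σ : ℝ} {w : ℂ → ℂ} {K : ℝ} (h : Wt σ w K)
include h

/-- The quotient by the weight is Lipschitz on the line. -/
lemma quot_lip (g : ESpace σ w) (x t : ℝ) :
    ‖g x / w x - g t / w t‖ ≤ (Real.exp K + K) * ‖g‖ * |x - t| := by
  have hder : ∀ y : ℝ, HasDerivAt (fun y : ℝ => g y / w y)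
      ((deriv g y * w y - g y * deriv w y) / w y ^ 2) y := by
    intro y
    exact ((g.diff y).hasDerivAt.div (h.diff y).hasDerivAt (h.nz_real y)).comp_ofReal
  have hb : ∀ y ∈ (univ : Set ℝ), ‖(deriv g y * w y - g y * deriv w y) / w y ^ 2‖ ≤
      (Real.exp K + K) * ‖g‖ := by
    intro y _
    have hw := h.norm_pos (z := (y : ℂ)) (by simp)
    rw [norm_div, norm_pow, div_le_iff₀ (by positivity)]
    have e1 := h.deriv_le g y
    rw [fold_real] at e1
    have e2 := g.le_norm y
    have e3 := h.Kbd y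
    have hK := h.K_nonneg
    calc ‖deriv g y * w y - g y * deriv w y‖ ≤ ‖deriv g y‖ * ‖w y‖ + ‖g y‖ * ‖deriv w y‖ := by
          refine (norm_sub_le _ _).trans ?_
          rw [norm_mul, norm_mul]
      _ ≤ Real.exp K * ‖g‖ * ‖w y‖ * ‖w y‖ + ‖g‖ * ‖w y‖ * (K * ‖w y‖) := by gcongr
      _ = _ := by ring
  have := convex_univ.norm_image_sub_le_of_norm_hasDerivWithin_le (f := fun y : ℝ => g y / w y)
    (fun y _ => (hder y).hasDerivWithinAt) hb (mem_univ t) (mem_univ x)
  rwa [Real.norm_eq_abs] at this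

/-- The function `g - (g t / w t) w`, which vanishes at `t`. -/
noncomputable def G0 (g : ESpace σ w) (t : ℝ) : ESpace σ w := g - (g t / w t) • h.W

lemma G0_apply (g : ESpace σ w) (t : ℝ) (z : ℂ) : h.G0 g t z = g z - g t / w t * w z := rfl

lemma G0_self (g : ESpace σ w) (t : ℝ) : h.G0 g t t = 0 := by
  rw [G0_apply, div_mul_cancel₀ _ (h.nz_real t), sub_self]

lemma G0_real (g : ESpace σ w) (t x : ℝ) :
    h.G0 g t x = w x * (g x / w x - g t / w t) := by
  rw [G0_apply, mul_sub, mul_div_cancel₀ _ (h.nz_real x)]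
  ring

omit h in
lemma dslope_diff {f : ℂ → ℂ} (hf : Differentiable ℂ f) (t : ℂ) :
    Differentiable ℂ (dslope f t) := by
  rw [← differentiableOn_univ, differentiableOn_dslope univ_mem]
  exact hf.differentiableOn

lemma dslope_le_all (G : ESpace σ w) {t : ℝ} (hG : G t = 0) (z : ℂ) :
    ‖dslope G t z‖ ≤ Real.exp (2 * K) * ‖G‖ * ‖w (fold z)‖ := by
  have hK := h.K_nonneg
  have hfar : ∀ u : ℂ, 1 ≤ ‖u - t‖ → ‖dslope G t u‖ ≤ ‖G‖ * ‖w (fold u)‖ := by
    intro u hu
    have hne : u ≠ t := by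
      rintro rfl
      simp at hu
      linarith
    rw [dslope_of_ne _ hne, slope_def_field, hG, sub_zero, norm_div]
    rw [div_le_iff₀ (by linarith)]
    have := h.app_le G u
    have h2 : 0 ≤ ‖G‖ * ‖w (fold u)‖ := by positivity
    nlinarith
  have h1 : 1 ≤ Real.exp (2 * K) := Real.one_le_exp (by positivity)
  by_cases hz : 1 ≤ ‖z - t‖
  · refine (hfar z hz).trans ?_
    have : 0 ≤ ‖G‖ * ‖w (fold z)‖ := by positivity
    nlinarith
  · push Not at hz
    apply norm_le_of_forall_mem_frontier_norm_le (U := ball (t : ℂ) 1) isBounded_ball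
      (dslope_diff G.diff t).diffContOnCl _ (subset_closure (by rwa [mem_ball, dist_eq_norm]))
    intro u hu
    rw [frontier_ball _ one_ne_zero, mem_sphere, dist_eq_norm] at hu
    refine (hfar u hu.ge).trans ?_
    have h2 := h.lip_fold z u
    have h3 : ‖u - z‖ ≤ 2 := by
      calc ‖u - z‖ = ‖(u - t) - (z - t)‖ := by ring_nf
        _ ≤ ‖u - t‖ + ‖z - t‖ := norm_sub_le _ _
        _ ≤ 2 := by linarith
    have h4 : Real.exp (K * ‖u - z‖) ≤ Real.exp (2 * K) := by
      apply Real.exp_le_exp.2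
      nlinarith
    calc ‖G‖ * ‖w (fold u)‖ ≤ ‖G‖ * (Real.exp (K * ‖u - z‖) * ‖w (fold z)‖) := by gcongr
      _ ≤ ‖G‖ * (Real.exp (2 * K) * ‖w (fold z)‖) := by gcongr
      _ = _ := by ring

/-- The divided difference operator. -/
noncomputable def B (g : ESpace σ w) (t : ℝ) : ESpace σ w :=
  ESpace.mk' (dslope (h.G0 g t) t) (dslope_diff (h.G0 g t).diff t)
    (h.type_of_le (C := Real.exp (2 * K) * ‖h.G0 g t‖) (by positivity)
      (fun z => h.dslope_le_all _ (h.G0_self g t) z))
    (C := Real.exp (2 * K) * ‖h.G0 g t‖) (fun x => by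
      have := h.dslope_le_all _ (h.G0_self g t) x
      rwa [fold_real] at this)

lemma B_apply (g : ESpace σ w) {t x : ℝ} (hx : x ≠ t) :
    h.B g t x = w x * ((g x / w x - g t / w t) / (x - t)) := by
  have hne : (x : ℂ) ≠ t := by exact_mod_cast hx
  change dslope (h.G0 g t) t x = _
  rw [dslope_of_ne _ hne, slope_def_field, G0_self, sub_zero, G0_real, mul_div_assoc]

omit h in
/-- An inequality between continuous functions which holds off a finite set. -/
lemma le_of_off_finite {F G : ℝ → ℝ} (hF : Continuous F) (hG : Continuous G) {s : Set ℝ}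
    (hs : s.Finite) (hle : ∀ x, x ∉ s → F x ≤ G x) (x : ℝ) : F x ≤ G x := by
  have hd : Dense sᶜ := hs.countable.dense_compl ℝ
  have hc : IsClosed {x | F x ≤ G x} := isClosed_le hF hG
  have : closure sᶜ ⊆ {x | F x ≤ G x} := closure_minimal (fun x hx => hle x hx) hc
  rw [hd.closure_eq] at this
  exact this (mem_univ x)

lemma norm_B_le (g : ESpace σ w) (t : ℝ) : ‖h.B g t‖ ≤ (Real.exp K + K) * ‖g‖ := by
  have hK := h.K_nonneg
  apply ESpace.norm_le_of (by positivity)
  have hc1 : Continuous fun x : ℝ => ‖h.B g t x‖ :=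
    ((h.B g t).diff.continuous.comp Complex.continuous_ofReal).norm
  have hc2 : Continuous fun x : ℝ => (Real.exp K + K) * ‖g‖ * ‖w x‖ :=
    continuous_const.mul (h.diff.continuous.comp Complex.continuous_ofReal).norm
  apply le_of_off_finite hc1 hc2 (finite_singleton t)
  intro x hx
  have hne : x ≠ t := hx
  have hpos : 0 < |x - t| := abs_pos.2 (sub_ne_zero.2 hne)
  rw [h.B_apply g hne, norm_mul, norm_div]
  have e1 := h.quot_lip g x t
  have e2 : ‖(x : ℂ) - t‖ = |x - t| := by
    rw [← ofReal_sub, norm_real, Real.norm_eq_abs]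
  rw [e2, mul_comm ((Real.exp K + K) * ‖g‖)]
  gcongr
  rwa [div_le_iff₀ hpos]

/-- The reflected weight as an element of the space. -/
noncomputable def Ws : ESpace σ w :=
  ESpace.mk' (sharp w) (sharp_diff h.diff) (by
    intro e he
    obtain ⟨C, hC⟩ := h.typ e he
    refine ⟨C, fun u => ?_⟩
    rw [norm_sharp]
    simpa using hC (conj u)) (C := 1) (fun x => by rw [norm_sharp_real]; simp)

lemma Ws_apply (z : ℂ) : h.Ws z = sharp w z := rfl

lemma norm_Ws_le : ‖h.Ws‖ ≤ 1 := by
  apply ESpace.norm_le_of zero_le_one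
  intro x
  rw [Ws_apply, norm_sharp_real]; simp

/-- The kernel elements. -/
noncomputable def Kt (t : ℝ) : ESpace σ w := h.B h.Ws t

lemma norm_Kt_le (t : ℝ) : ‖h.Kt t‖ ≤ Real.exp K + K := by
  have hK := h.K_nonneg
  have h1 := h.norm_B_le h.Ws t
  have h2 := h.norm_Ws_le
  calc ‖h.Kt t‖ ≤ (Real.exp K + K) * ‖h.Ws‖ := h1
    _ ≤ (Real.exp K + K) * 1 := by gcongr
    _ = _ := mul_one _

lemma Kt_lip (t s : ℝ) : ‖h.Kt t - h.Kt s‖ ≤ (Real.exp K + K) ^ 2 * |t - s| := by
  have hK := h.K_nonneg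
  by_cases hts : t = s
  · rw [hts]; simp
  apply ESpace.norm_le_of (by positivity)
  have hc1 : Continuous fun x : ℝ => ‖(h.Kt t - h.Kt s : ESpace σ w) x‖ :=
    ((h.Kt t - h.Kt s : ESpace σ w).diff.continuous.comp Complex.continuous_ofReal).norm
  have hc2 : Continuous fun x : ℝ => (Real.exp K + K) ^ 2 * |t - s| * ‖w x‖ :=
    continuous_const.mul (h.diff.continuous.comp Complex.continuous_ofReal).norm
  apply le_of_off_finite hc1 hc2 (toFinite {t, s})
  intro x hx
  have hxt : x ≠ t := fun hh => hx (by simp [hh])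
  have hxs : x ≠ s := fun hh => hx (by simp [hh])
  have e1 : (h.Kt t - h.Kt s : ESpace σ w) x = (t - s) * h.B (h.Kt s) t x := by
    rw [ESpace.sub_apply]
    have f1 : h.Kt t x = w x * ((h.Ws x / w x - h.Ws t / w t) / (x - t)) := h.B_apply _ hxt
    have f2 : h.Kt s x = w x * ((h.Ws x / w x - h.Ws s / w s) / (x - s)) := h.B_apply _ hxs
    have f3 : h.Kt s t = w t * ((h.Ws t / w t - h.Ws s / w s) / (t - s)) := h.B_apply _ hts
    rw [h.B_apply _ hxt, f1, f2, f3, mul_div_cancel_left₀ _ (h.nz_real x),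
      mul_div_cancel_left₀ _ (h.nz_real t)]
    have g1 : (x : ℂ) - t ≠ 0 := sub_ne_zero.2 (by exact_mod_cast hxt)
    have g2 : (x : ℂ) - s ≠ 0 := sub_ne_zero.2 (by exact_mod_cast hxs)
    have g3 : (t : ℂ) - s ≠ 0 := sub_ne_zero.2 (by exact_mod_cast hts)
    field_simp
    ring
  rw [e1, norm_mul]
  have e2 : ‖(t : ℂ) - s‖ = |t - s| := by
    rw [← ofReal_sub, norm_real, Real.norm_eq_abs]
  rw [e2]
  have e3 := (h.B (h.Kt s) t).le_norm x
  have e4 := h.norm_B_le (h.Kt s) t
  have e5 := h.norm_Kt_le s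
  calc |t - s| * ‖h.B (h.Kt s) t x‖ ≤ |t - s| * (‖h.B (h.Kt s) t‖ * ‖w x‖) := by gcongr
    _ ≤ |t - s| * ((Real.exp K + K) * ‖h.Kt s‖ * ‖w x‖) := by gcongr
    _ ≤ |t - s| * ((Real.exp K + K) * (Real.exp K + K) * ‖w x‖) := by gcongr
    _ = _ := by ring

lemma Kt_cont : Continuous h.Kt := by
  apply LipschitzWith.continuous (K := ((Real.exp K + K) ^ 2).toNNReal)
  apply LipschitzWith.of_dist_le_mul
  intro t s
  rw [dist_eq_norm, Real.dist_eq, Real.coe_toNNReal _ (sq_nonneg _)]
  exact h.Kt_lip t s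

/-- Evaluation at a point. -/
noncomputable def ev (z : ℂ) : ESpace σ w →L[ℂ] ℂ :=
  LinearMap.mkContinuous
    { toFun := fun f => f z
      map_add' := fun f g => rfl
      map_smul' := fun c f => rfl } ‖w (fold z)‖ (by
      intro f
      have := h.app_le f z
      rw [mul_comm] at this
      exact this)

lemma ev_apply (z : ℂ) (f : ESpace σ w) : h.ev z f = f z := rfl

end Wt

end Pool.Agent.Helper63.Levin
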