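import Pool.Agent.Helper63.Levin.TwoConst

/-!
The majorization theorem: functions of type at most the type of the weight which are dominated
by the weight on the line are dominated in the upper half-plane.
-/

namespace Pool.Agent.Helper63.Levin

open Metric Set Complex Filter Topology Bornology
open scoped ComplexConjugate

/-- Exponential type at most `t`. -/
def ExpTypeLE (t : ℝ) (g : ℂ → ℂ) : Prop :=
  ∀ e : ℝ, 0 < e → ∃ C : ℝ, ∀ z : ℂ, ‖g z‖ ≤ C * Real.exp ((t + e) * ‖z‖)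

lemma geom {t η r : ℝ} {z1 : ℂ} (ht : 0 < t) (hη : 0 < η) (hr : t ≤ r) (him : η * r ≤ z1.im)
    (hn : ‖z1‖ ≤ (1 + η) * r) :
    ‖(t : ℂ) * I - z1‖ ≤
      Real.exp (-(2 * t * η / ((2 + η) ^ 2 * r))) * ‖(t : ℂ) * I - conj z1‖ := by
  have hr0 : 0 < r := by linarith
  have him0 : 0 < z1.im := lt_of_lt_of_le (by positivity) him
  have e1 : ‖(t : ℂ) * I - z1‖ ^ 2 = ‖(t : ℂ) * I - conj z1‖ ^ 2 - 4 * t * z1.im := by
    rw [Complex.sq_norm, Complex.sq_norm, Complex.normSq_apply, Complex.normSq_apply]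
    simp
    ring
  have e2 : ‖(t : ℂ) * I - conj z1‖ ≤ (2 + η) * r := by
    refine (norm_sub_le _ _).trans ?_
    rw [Complex.norm_conj, norm_mul, norm_real, norm_I, mul_one, Real.norm_eq_abs, abs_of_pos ht]
    nlinarith
  set Y := ‖(t : ℂ) * I - conj z1‖ with hY
  have hY0 : 0 < Y := by
    rw [hY, norm_pos_iff]
    intro h0
    have := congrArg Complex.im h0
    simp at this
    linarith
  set a := 4 * t * η / ((2 + η) ^ 2 * r) with ha
  have e3 : a * Y ^ 2 ≤ 4 * t * z1.im := by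
    have h1 : Y ^ 2 ≤ ((2 + η) * r) ^ 2 := pow_le_pow_left₀ hY0.le e2 2
    have h2 : a * ((2 + η) * r) ^ 2 = 4 * t * (η * r) := by
      rw [ha]; field_simp
    have ha0 : 0 ≤ a := by positivity
    calc a * Y ^ 2 ≤ a * ((2 + η) * r) ^ 2 := mul_le_mul_of_nonneg_left h1 ha0
      _ = 4 * t * (η * r) := h2
      _ ≤ 4 * t * z1.im := by gcongr
  have e4 : ‖(t : ℂ) * I - z1‖ ^ 2 ≤ (Real.exp (-(a / 2)) * Y) ^ 2 := by
    rw [e1, mul_pow, ← Real.exp_nat_mul]
    have h3 : ((2 : ℕ) : ℝ) * (-(a / 2)) = -a := by push_cast; ring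
    rw [h3]
    have h4 := Real.add_one_le_exp (-a)
    nlinarith [sq_nonneg Y]
  have e5 := abs_le_of_sq_le_sq e4 (by positivity)
  have e6 : a / 2 = 2 * t * η / ((2 + η) ^ 2 * r) := by rw [ha]; ring
  rw [e6] at e5
  exact (le_abs_self _).trans e5

lemma expo {σ ε η ρ K τ r y0 N1 : ℝ} (hσ : 0 ≤ σ) (hε : 0 < ε) (hε1 : ε ≤ 1 / 2) (hη : 0 < η)
    (hρ : 0 < ρ) (hτ : 0 < τ) (hr : 0 < r) (hy0 : 0 ≤ y0)
    (hητ : (σ + 1) * η = τ / 2) (hε2 : ε ≤ τ * η / 16) (hρ1 : (σ + 1 + K + τ) * ρ ≤ τ * η / 8)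
    (hN1 : N1 ≤ r + η * y0 + η ^ 2 * r / 2) :
    (σ + ε) * (N1 + ρ * r) + K * (ρ * r) - (σ - ε) * r - τ * (y0 + η * r - ρ * r) ≤
      -(τ * η / 2) * r := by
  have h1 : (σ + ε) * N1 ≤ (σ + ε) * (r + η * y0 + η ^ 2 * r / 2) :=
    mul_le_mul_of_nonneg_left hN1 (by linarith)
  have h2 : (σ + ε) * η ≤ τ / 2 := by nlinarith
  have h3 : (σ + ε) * η * y0 ≤ τ / 2 * y0 := mul_le_mul_of_nonneg_right h2 hy0
  have h4 : (σ + ε) * η * (η * r / 2) ≤ τ / 2 * (η * r / 2) :=
    mul_le_mul_of_nonneg_right h2 (by positivity)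
  have h5 : (σ + ε + K + τ) * ρ * r ≤ τ * η / 8 * r := by
    apply mul_le_mul_of_nonneg_right _ hr.le
    refine le_trans ?_ hρ1
    apply mul_le_mul_of_nonneg_right _ hρ.le
    linarith
  have h6 : 2 * ε * r ≤ τ * η / 8 * r := by
    apply mul_le_mul_of_nonneg_right _ hr.le
    linarith
  have h7 : 0 ≤ τ * y0 := by positivity
  nlinarith

lemma ident_c {τ η t l r : ℝ} (hη : 0 < 2 + η) (hl : 0 < l) (hr : 0 < r) :
    τ * η ^ 2 / (4 * (2 + η) ^ 2 * l) * t =
      τ * η / 4 * r / l / 2 * (2 * t * η / ((2 + η) ^ 2 * r)) := by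
  field_simp

namespace CoreD

variable {w : ℂ → ℂ} {K : ℝ} (h : CoreD w K)
include h

lemma exists_big {σ : ℝ} (hσ : ∀ t, ExpTypeLE t w → σ ≤ t) {e : ℝ} (he : 0 < e) (r0 : ℝ) :
    ∃ z : ℂ, 0 ≤ z.im ∧ r0 ≤ ‖z‖ ∧ Real.exp ((σ - e) * ‖z‖) ≤ ‖w z‖ := by
  by_contra hcon
  push Not at hcon
  have : ExpTypeLE (σ - e) w := by
    intro e' he'
    set κ := σ - e + e' with hκ
    refine ⟨1 + ‖w 0‖ * Real.exp (K * |r0|) * Real.exp (|κ| * |r0|), fun z => ?_⟩
    have hpos : 0 < ‖w 0‖ * Real.exp (K * |r0|) * Real.exp (|κ| * |r0|) := by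
      have := h.norm_pos (z := 0) (by simp)
      positivity
    by_cases hz : r0 ≤ ‖z‖
    · have h1 := hcon (fold z) (fold_im_nonneg z) (by rwa [norm_fold])
      rw [norm_fold] at h1
      have h2 := h.norm_le_fold z
      have h3 : Real.exp ((σ - e) * ‖z‖) ≤ Real.exp (κ * ‖z‖) := by
        apply Real.exp_le_exp.2
        apply mul_le_mul_of_nonneg_right _ (norm_nonneg _)
        rw [hκ]; linarith
      have h4 := Real.exp_pos (κ * ‖z‖)
      nlinarith
    · push Not at hz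
      have hr0 : 0 < r0 := lt_of_le_of_lt (norm_nonneg _) hz
      rw [abs_of_pos hr0] at hpos ⊢
      have h2 := h.norm_le_fold z
      have h3 := h.lip_fold 0 z
      rw [fold_of_nonneg (z := 0) (by simp), sub_zero] at h3
      have h4 : Real.exp (K * ‖z‖) ≤ Real.exp (K * r0) := by
        apply Real.exp_le_exp.2
        exact mul_le_mul_of_nonneg_left hz.le h.K_nonneg
      have h5 : 1 ≤ Real.exp (|κ| * r0) * Real.exp (κ * ‖z‖) := by
        rw [← Real.exp_add]
        apply Real.one_le_exp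
        have h6 : |κ| * ‖z‖ ≤ |κ| * r0 := mul_le_mul_of_nonneg_left hz.le (abs_nonneg _)
        have h7 : -(|κ| * ‖z‖) ≤ κ * ‖z‖ := by
          rw [← neg_mul]
          exact mul_le_mul_of_nonneg_right (neg_abs_le κ) (norm_nonneg _)
        linarith
      have h8 : ‖w z‖ ≤ ‖w 0‖ * Real.exp (K * r0) := by
        calc ‖w z‖ ≤ Real.exp (K * ‖z‖) * ‖w 0‖ := h2.trans h3
          _ ≤ Real.exp (K * r0) * ‖w 0‖ := by gcongr
          _ = _ := by ring
      have h9 := Real.exp_pos (κ * ‖z‖)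
      calc ‖w z‖ ≤ ‖w 0‖ * Real.exp (K * r0) * 1 := by linarith
        _ ≤ ‖w 0‖ * Real.exp (K * r0) * (Real.exp (|κ| * r0) * Real.exp (κ * ‖z‖)) := by gcongr
        _ ≤ _ := by nlinarith
  have := hσ _ this
  linarith

set_option maxHeartbeats 1000000 in
lemma improve {σ : ℝ} (hσ0 : 0 ≤ σ) (hσ : ∀ t, ExpTypeLE t w → σ ≤ t) {f : ℂ → ℂ}
    (hf : Differentiable ℂ f) (hft : ExpTypeLE σ f) {M τ : ℝ} (hM : 0 < M) (hτ : 0 < τ)
    (hfM : ∀ z : ℂ, 0 ≤ z.im → ‖f z‖ ≤ M * Real.exp (τ * z.im) * ‖w z‖) :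
    ∃ c : ℝ, 0 < c ∧ ∀ z : ℂ, 0 ≤ z.im → ‖f z‖ ≤ M * Real.exp ((τ - c) * z.im) * ‖w z‖ := by
  have hK0 := h.K_nonneg
  set η := τ / (2 * (σ + 1)) with hη
  have hη0 : 0 < η := by positivity
  have hητ : (σ + 1) * η = τ / 2 := by rw [hη]; field_simp
  set D := σ + 1 + K + τ with hD
  have hD0 : 0 < D := by positivity
  set ρ := min (η / 2) (τ * η / (8 * D)) with hρ
  have hρ0 : 0 < ρ := lt_min (by positivity) (by positivity)
  have hρ1 : ρ ≤ η / 2 := min_le_left _ _
  have hρ2 : D * ρ ≤ τ * η / 8 := by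
    have : ρ ≤ τ * η / (8 * D) := min_le_right _ _
    calc D * ρ ≤ D * (τ * η / (8 * D)) := by gcongr
      _ = τ * η / 8 := by field_simp
  set ε := min (1 / 2) (τ * η / 16) with hε
  have hε0 : 0 < ε := lt_min (by norm_num) (by positivity)
  have hε1 : ε ≤ 1 / 2 := min_le_left _ _
  have hε2 : ε ≤ τ * η / 16 := min_le_right _ _
  set L := 1 + 2 * (1 + η) / ρ with hL
  have hL1 : 1 < L := by
    rw [hL]
    have : 0 < 2 * (1 + η) / ρ := by positivity
    linarith
  set l := Real.log L with hl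
  have hl0 : 0 < l := Real.log_pos hL1
  obtain ⟨Cf, hCf⟩ := hft ε hε0
  set c := τ * η ^ 2 / (4 * (2 + η) ^ 2 * l) with hc
  have hc0 : 0 < c := by positivity
  refine ⟨c, hc0, ?_⟩
  -- the normalised quotient
  set Q : ℂ → ℂ := fun u => f u / ((M : ℂ) * w u) * Complex.exp (I * τ * u) with hQ
  have hQn : ∀ u : ℂ, ‖Q u‖ = ‖f u‖ / (M * ‖w u‖) * Real.exp (-(τ * u.im)) := by
    intro u
    rw [hQ]
    simp only [norm_mul, norm_div, Complex.norm_exp, norm_real, Real.norm_eq_abs, abs_of_pos hM]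
    congr 2
    simp [mul_assoc]
  have hQd : ∀ z : ℂ, 0 ≤ z.im → DifferentiableAt ℂ Q z := by
    intro z hz
    apply DifferentiableAt.mul
    · apply (hf z).div ((h.diff z).const_mul _)
      apply mul_ne_zero _ (h.ne_zero hz)
      exact_mod_cast hM.ne'
    · fun_prop
  have hQ1 : ∀ z : ℂ, 0 ≤ z.im → ‖Q z‖ ≤ 1 := by
    intro z hz
    rw [hQn]
    have h1 := hfM z hz
    have h2 := h.norm_pos hz
    have h3 : ‖f z‖ / (M * ‖w z‖) ≤ Real.exp (τ * z.im) := by
      rw [div_le_iff₀ (by positivity)]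
      calc ‖f z‖ ≤ M * Real.exp (τ * z.im) * ‖w z‖ := h1
        _ = _ := by ring
    calc ‖f z‖ / (M * ‖w z‖) * Real.exp (-(τ * z.im))
        ≤ Real.exp (τ * z.im) * Real.exp (-(τ * z.im)) := by gcongr
      _ = 1 := by rw [← Real.exp_add]; simp
  -- estimate on the imaginary axis
  have axis : ∀ t : ℝ, 0 < t → ‖Q (t * I)‖ ≤ Real.exp (-(c * t)) := by
    intro t ht
    -- choose a large radius
    obtain ⟨r0, hr0a, hr0b, hr0c, hr0d⟩ : ∃ r0 : ℝ, t ≤ r0 ∧ 2 * t / η < r0 ∧
        Cf / M ≤ Real.exp (τ * η / 4 * r0) ∧ 8 * l / (τ * η) ≤ r0 := by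
      have e1 : ∀ᶠ r : ℝ in atTop, Cf / M ≤ Real.exp (τ * η / 4 * r) := by
        have : Tendsto (fun r : ℝ => Real.exp (τ * η / 4 * r)) atTop atTop :=
          Real.tendsto_exp_atTop.comp (tendsto_id.const_mul_atTop (by positivity))
        exact this.eventually_ge_atTop _
      have := ((eventually_ge_atTop t).and ((eventually_gt_atTop (2 * t / η)).and
        (e1.and (eventually_ge_atTop (8 * l / (τ * η)))))).exists
      obtain ⟨r, h1, h2, h3, h4⟩ := this
      exact ⟨r, h1, h2, h3, h4⟩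
    obtain ⟨z, hz0, hzr, hzw⟩ := h.exists_big hσ hε0 r0
    set r := ‖z‖ with hr
    have hrt : t ≤ r := hr0a.trans hzr
    have hrpos : 0 < r := by linarith
    have hrb : 2 * t / η < r := lt_of_lt_of_le hr0b hzr
    have hrc : Cf / M ≤ Real.exp (τ * η / 4 * r) := by
      refine hr0c.trans ?_
      apply Real.exp_le_exp.2
      exact mul_le_mul_of_nonneg_left hzr (by positivity)
    have hrd : 8 * l / (τ * η) ≤ r := hr0d.trans hzr
    set z1 : ℂ := z + (η * r : ℝ) * I with hz1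
    have hz1im : z1.im = z.im + η * r := by simp [hz1]
    have hz1re : z1.re = z.re := by simp [hz1]
    have hyr : z.im ≤ r := (le_abs_self _).trans (abs_im_le_norm z)
    have hz1n : ‖z1‖ ≤ r + η * z.im + η ^ 2 * r / 2 := by
      have e1 : ‖z1‖ ^ 2 = r ^ 2 + 2 * η * r * z.im + η ^ 2 * r ^ 2 := by
        have e2 : r ^ 2 = z.re ^ 2 + z.im ^ 2 := by
          rw [hr, Complex.sq_norm, Complex.normSq_apply]; ring
        rw [Complex.sq_norm, Complex.normSq_apply, hz1re, hz1im]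
        linear_combination -e2
      have e3 : ‖z1‖ ^ 2 ≤ (r + η * z.im + η ^ 2 * r / 2) ^ 2 := by
        rw [e1]
        have e4 : (r + η * z.im + η ^ 2 * r / 2) ^ 2 =
          r ^ 2 + 2 * η * r * z.im + η ^ 2 * r ^ 2 + (η * z.im + η ^ 2 * r / 2) ^ 2 := by ring
        rw [e4]
        linarith [sq_nonneg (η * z.im + η ^ 2 * r / 2)]
      have := abs_le_of_sq_le_sq e3 (by positivity)
      exact (le_abs_self _).trans this
    have hz1n' : ‖z1‖ ≤ (1 + η) * r := by
      have : ‖z1‖ ≤ ‖z‖ + ‖((η * r : ℝ) : ℂ) * I‖ := norm_add_le _ _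
      rw [norm_mul, norm_real, norm_I, mul_one, Real.norm_eq_abs,
        abs_of_pos (by positivity)] at this
      linarith
    set s := ρ * r with hs
    have hs0 : 0 < s := by positivity
    have hz1pos : 0 < z1.im := by rw [hz1im]; positivity
    set N := τ * η / 4 * r with hN
    have hN0 : 0 < N := by positivity
    set n := ⌊N / l⌋₊ with hn
    have hn1 : (n : ℝ) ≤ N / l := Nat.floor_le (by positivity)
    have hn2 : N / l < n + 1 := Nat.lt_floor_add_one _
    -- small bound on the circle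
    have hsmall : ∀ u : ℂ, 0 ≤ u.im → ‖u - z1‖ = s → ‖Q u‖ ≤ Real.exp (-N) := by
      intro u hu hus
      rw [hQn]
      have e1 : ‖f u‖ ≤ Cf * Real.exp ((σ + ε) * (‖z1‖ + s)) := by
        refine (hCf u).trans ?_
        have hCf0 : 0 ≤ Cf := by
          have := hCf 0
          simp at this
          exact (norm_nonneg _).trans this
        gcongr
        calc ‖u‖ = ‖z1 + (u - z1)‖ := by ring_nf
          _ ≤ ‖z1‖ + ‖u - z1‖ := norm_add_le _ _
          _ = ‖z1‖ + s := by rw [hus]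
      have e2 : Real.exp ((σ - ε) * r - K * s) ≤ ‖w u‖ := by
        have f1 := h.lip (a := u) (b := z1) hu hz1pos.le
        have f2 : ‖z1 - u‖ = s := by rw [norm_sub_rev, hus]
        rw [f2] at f1
        have f3 : ‖w z‖ ≤ ‖w z1‖ := by
          have := h.mono (x := z.re) (y1 := z.im) (y2 := z.im + η * r)
            (by have : 0 ≤ η * r := by positivity
                linarith) (by have : 0 ≤ η * r := by positivity
                              linarith)
          have g1 : (z.re : ℂ) + z.im * I = z := Complex.re_add_im z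
          have g2 : (z.re : ℂ) + ((z.im + η * r : ℝ) : ℂ) * I = z1 := by
            rw [hz1]
            nth_rewrite 3 [← Complex.re_add_im z]
            push_cast
            ring
          rwa [g1, g2] at this
        have f4 : Real.exp ((σ - ε) * r) ≤ Real.exp (K * s) * ‖w u‖ := hzw.trans (f3.trans f1)
        rw [Real.exp_sub, div_le_iff₀ (Real.exp_pos _)]
        linarith
      have e3 : z.im + η * r - s ≤ u.im := by
        have f1 := abs_im_le_norm (u - z1)
        rw [hus, Complex.sub_im, abs_le, hz1im] at f1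
        linarith [f1.1]
      have e4 := expo (N1 := ‖z1‖) hσ0 hε0 hε1 hη0 hρ0 hτ hrpos hz0 hητ hε2 hρ2 hz1n
      have hwu : 0 < ‖w u‖ := h.norm_pos hu
      have hCf0 : 0 ≤ Cf := by
        have := hCf 0
        simp at this
        exact (norm_nonneg _).trans this
      calc ‖f u‖ / (M * ‖w u‖) * Real.exp (-(τ * u.im))
          ≤ (Cf * Real.exp ((σ + ε) * (‖z1‖ + s))) / (M * Real.exp ((σ - ε) * r - K * s)) *
              Real.exp (-(τ * (z.im + η * r - s))) := by gcongr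
        _ = Cf / M * Real.exp ((σ + ε) * (‖z1‖ + s) + K * s - (σ - ε) * r -
              τ * (z.im + η * r - s)) := by
          have : Real.exp ((σ + ε) * (‖z1‖ + s) + K * s - (σ - ε) * r -
              τ * (z.im + η * r - s)) = Real.exp ((σ + ε) * (‖z1‖ + s)) /
              Real.exp ((σ - ε) * r - K * s) * Real.exp (-(τ * (z.im + η * r - s))) := by
            rw [← Real.exp_sub, ← Real.exp_add]
            congr 1; ring
          rw [this]
          field_simp
        _ ≤ Real.exp (τ * η / 4 * r) * Real.exp (-(τ * η / 2) * r) := by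
          gcongr
        _ = Real.exp (-N) := by
          rw [← Real.exp_add, hN]; congr 1; ring
    have hLs : 1 + 2 * z1.im / s ≤ L := by
      rw [hL, hs]
      have : z1.im ≤ (1 + η) * r := by rw [hz1im]; linarith
      have : 2 * z1.im / (ρ * r) ≤ 2 * (1 + η) / ρ := by
        rw [div_le_div_iff₀ (by positivity) hρ0]
        nlinarith
      linarith
    have hbn : Real.exp (-N) * (1 + 2 * z1.im / s) ^ n ≤ 1 := by
      have e0 : 0 ≤ 1 + 2 * z1.im / s := by positivity
      have e1 : (1 + 2 * z1.im / s) ^ n ≤ Real.exp N := by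
        calc (1 + 2 * z1.im / s) ^ n ≤ L ^ n := pow_le_pow_left₀ e0 hLs n
          _ = Real.exp (n * l) := by
            rw [Real.exp_nat_mul, hl, Real.exp_log (by linarith)]
          _ ≤ Real.exp N := by
            apply Real.exp_le_exp.2
            rwa [le_div_iff₀ hl0] at hn1
      calc Real.exp (-N) * (1 + 2 * z1.im / s) ^ n ≤ Real.exp (-N) * Real.exp N := by gcongr
        _ = 1 := by rw [← Real.exp_add]; simp
    have hfar : s < ‖(t : ℂ) * I - z1‖ := by
      have f1 := abs_im_le_norm ((t : ℂ) * I - z1)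
      rw [Complex.sub_im, hz1im] at f1
      simp only [mul_im, ofReal_re, I_im, mul_one, ofReal_im, I_re, mul_zero, add_zero] at f1
      have f2 := neg_abs_le (t - (z.im + η * r))
      have f3 : 2 * t < r * η := by rwa [div_lt_iff₀ hη0] at hrb
      have f4 : s ≤ η / 2 * r := by rw [hs]; gcongr
      linarith
    have tc := two_const hQd hQ1 hs0 hz1pos hsmall hbn (t * I) (by simpa using ht) hfar
    have hgeom := geom ht hη0 hrt (by rw [hz1im]; linarith : η * r ≤ z1.im) hz1n'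
    have hup : 0 < ‖(t : ℂ) * I - z1‖ := by linarith
    -- combine
    set a := 2 * t * η / ((2 + η) ^ 2 * r) with ha
    have hratio : Real.exp a ≤ ‖(t : ℂ) * I - conj z1‖ / ‖(t : ℂ) * I - z1‖ := by
      rw [le_div_iff₀ hup]
      have : Real.exp a * ‖(t : ℂ) * I - z1‖ ≤
          Real.exp a * (Real.exp (-a) * ‖(t : ℂ) * I - conj z1‖) := by gcongr
      rw [← mul_assoc, ← Real.exp_add] at this
      simpa using this
    have h5 : ‖Q (t * I)‖ * Real.exp (n * a) ≤ 1 := by
      rw [Real.exp_nat_mul]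
      refine le_trans ?_ tc
      gcongr
    have h6 : c * t ≤ n * a := by
      have g1 : N / l - 1 ≤ n := by linarith
      have g2 : N / l / 2 ≤ N / l - 1 := by
        have : 2 ≤ N / l := by
          rw [le_div_iff₀ hl0, hN]
          rw [div_le_iff₀ (by positivity)] at hrd
          linarith
        linarith
      have ha0 : 0 ≤ a := by positivity
      calc c * t = N / l / 2 * a := by
            rw [hc, hN, ha]
            exact ident_c (by positivity) hl0 hrpos
        _ ≤ n * a := mul_le_mul_of_nonneg_right (g2.trans g1) ha0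
    have h7 : Real.exp (c * t) ≤ Real.exp (n * a) := Real.exp_le_exp.2 h6
    rw [Real.exp_neg, ← one_div, le_div_iff₀ (Real.exp_pos _)]
    calc ‖Q (t * I)‖ * Real.exp (c * t) ≤ ‖Q (t * I)‖ * Real.exp (n * a) := by gcongr
      _ ≤ 1 := h5
  -- Phragmen-Lindelof
  have key := pl_upper_exp (F := Q) (A := 1) (B := 0) (B' := -c) (C := 1) hQd
    (fun z hz => by simpa using hQ1 z hz) (fun x => hQ1 x (by simp)) ⟨1, by
      intro y hy
      rcases hy.eq_or_lt with h0 | hpos
      · subst h0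
        simpa using hQ1 0 (by simp)
      · have := axis y hpos
        simpa using this⟩
  intro z hz
  have h1 := key z hz
  rw [hQn] at h1
  have h2 := h.norm_pos hz
  have h3 : ‖f z‖ = ‖f z‖ / (M * ‖w z‖) * Real.exp (-(τ * z.im)) *
      (M * ‖w z‖ * Real.exp (τ * z.im)) := by
    have : Real.exp (-(τ * z.im)) * Real.exp (τ * z.im) = 1 := by
      rw [← Real.exp_add]; simp
    calc ‖f z‖ = ‖f z‖ / (M * ‖w z‖) * (M * ‖w z‖) * 1 := by field_simp
      _ = ‖f z‖ / (M * ‖w z‖) * (M * ‖w z‖) * (Real.exp (-(τ * z.im)) * Real.exp (τ * z.im)) := by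
        rw [this]
      _ = _ := by ring
  rw [h3]
  calc ‖f z‖ / (M * ‖w z‖) * Real.exp (-(τ * z.im)) * (M * ‖w z‖ * Real.exp (τ * z.im))
      ≤ 1 * Real.exp (-c * z.im) * (M * ‖w z‖ * Real.exp (τ * z.im)) := by gcongr
    _ = M * Real.exp ((τ - c) * z.im) * ‖w z‖ := by
      rw [show (τ - c) * z.im = -c * z.im + τ * z.im by ring, Real.exp_add]; ring

lemma major_upper {σ : ℝ} (hσ0 : 0 ≤ σ) (hσ : ∀ t, ExpTypeLE t w → σ ≤ t) {f : ℂ → ℂ}
    (hf : Differentiable ℂ f) (hft : ExpTypeLE σ f) {M : ℝ} (hM : 0 < M)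
    (hfM : ∀ x : ℝ, ‖f x‖ ≤ M * ‖w x‖) :
    ∀ z : ℂ, 0 ≤ z.im → ‖f z‖ ≤ M * ‖w z‖ := by
  have hK0 := h.K_nonneg
  set T : Set ℝ := {τ | 0 ≤ τ ∧ ∀ z : ℂ, 0 ≤ z.im → ‖f z‖ ≤ M * Real.exp (τ * z.im) * ‖w z‖}
    with hT
  have hw0 : 0 < ‖w 0‖ := h.norm_pos (by simp)
  -- nonempty
  have hne : T.Nonempty := by
    obtain ⟨C, hC⟩ := hft 1 one_pos
    have hC0 : 0 ≤ C := by
      have := hC 0
      simp at this
      exact (norm_nonneg _).trans this
    have hlow : ∀ z : ℂ, 0 ≤ z.im → ‖w 0‖ ≤ Real.exp (K * ‖z‖) * ‖w z‖ := by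
      intro z hz
      have := h.lip (a := z) (b := 0) hz (by simp)
      simpa using this
    have hq : ∀ z : ℂ, 0 ≤ z.im → ‖f z / w z‖ ≤ C / ‖w 0‖ * Real.exp ((σ + 1 + K) * ‖z‖) := by
      intro z hz
      rw [norm_div, div_le_iff₀ (h.norm_pos hz)]
      calc ‖f z‖ ≤ C * Real.exp ((σ + 1) * ‖z‖) := hC z
        _ = C / ‖w 0‖ * Real.exp ((σ + 1) * ‖z‖) * ‖w 0‖ := by field_simp
        _ ≤ C / ‖w 0‖ * Real.exp ((σ + 1) * ‖z‖) * (Real.exp (K * ‖z‖) * ‖w z‖) := by
          have := hlow z hz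
          gcongr
        _ = _ := by rw [add_mul (σ + 1), Real.exp_add]; ring
    have key := pl_upper_exp (F := fun z => f z / w z) (A := C / ‖w 0‖) (B := σ + 1 + K)
      (B' := σ + 1 + K) (C := M) (fun z hz => (hf z).div (h.diff z) (h.ne_zero hz)) hq
      (fun x => by
        rw [norm_div, div_le_iff₀ (norm_pos_iff.2 (h.nz_real x))]
        exact hfM x)
      ⟨C / ‖w 0‖, fun y hy => by
        have := hq (y * I) (by simpa using hy)
        simpa [abs_of_nonneg hy] using this⟩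
    refine ⟨σ + 1 + K, by positivity, fun z hz => ?_⟩
    have := key z hz
    rw [norm_div, div_le_iff₀ (h.norm_pos hz)] at this
    exact this
  have hbdd : BddBelow T := ⟨0, fun τ hτ => hτ.1⟩
  set τ0 := sInf T with hτ0
  have hτ0nn : 0 ≤ τ0 := le_csInf hne (fun τ hτ => hτ.1)
  have hmem : ∀ z : ℂ, 0 ≤ z.im → ‖f z‖ ≤ M * Real.exp (τ0 * z.im) * ‖w z‖ := by
    intro z hz
    have hcont : Tendsto (fun τ : ℝ => M * Real.exp (τ * z.im) * ‖w z‖) (𝓝[>] τ0)
        (𝓝 (M * Real.exp (τ0 * z.im) * ‖w z‖)) := by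
      apply Tendsto.mono_left _ nhdsWithin_le_nhds
      apply Continuous.tendsto
      fun_prop
    apply ge_of_tendsto hcont
    filter_upwards [self_mem_nhdsWithin] with τ hτ
    obtain ⟨τ', hτ'T, hτ'⟩ := exists_lt_of_csInf_lt hne hτ
    refine (hτ'T.2 z hz).trans ?_
    gcongr
  have hzero : τ0 = 0 := by
    by_contra hne0
    have hpos : 0 < τ0 := lt_of_le_of_ne hτ0nn (Ne.symm hne0)
    obtain ⟨c, hc0, hc⟩ := h.improve hσ0 hσ hf hft hM hpos hmem
    have hin : max (τ0 - c) 0 ∈ T := by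
      refine ⟨le_max_right _ _, fun z hz => (hc z hz).trans ?_⟩
      gcongr
      exact le_max_left _ _
    have := csInf_le hbdd hin
    have h2 : max (τ0 - c) 0 < τ0 := max_lt (by linarith) hpos
    linarith
  intro z hz
  have := hmem z hz
  rw [hzero] at this
  simpa using this

/-- **Majorization.** -/
lemma major {σ : ℝ} (hσ0 : 0 ≤ σ) (hσ : ∀ t, ExpTypeLE t w → σ ≤ t) {f : ℂ → ℂ}
    (hf : Differentiable ℂ f) (hft : ExpTypeLE σ f) {M : ℝ} (hM : 0 ≤ M)
    (hfM : ∀ x : ℝ, ‖f x‖ ≤ M * ‖w x‖) :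
    ∀ z : ℂ, ‖f z‖ ≤ M * ‖w (fold z)‖ := by
  rcases hM.eq_or_lt with h0 | hpos
  · intro z
    have : f z = 0 := eq_zero_of_real hf (fun x => by
      have := hfM x
      rw [← h0, zero_mul] at this
      exact norm_le_zero_iff.1 this) z
    rw [this, norm_zero]
    positivity
  · intro z
    rcases le_total 0 z.im with hz | hz
    · rw [fold_of_nonneg hz]
      exact h.major_upper hσ0 hσ hf hft hpos hfM z hz
    · rw [fold_of_nonpos hz]
      have hs : ExpTypeLE σ (sharp f) := by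
        intro e he
        obtain ⟨C, hC⟩ := hft e he
        refine ⟨C, fun u => ?_⟩
        rw [norm_sharp]
        simpa using hC (conj u)
      have := h.major_upper hσ0 hσ (sharp_diff hf) hs hpos (fun x => by
        rw [norm_sharp_real]; exact hfM x) (conj z) (by simpa using hz)
      rwa [norm_sharp, Complex.conj_conj] at this

end CoreD

end Pool.Agent.Helper63.Levin
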