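import Pool.Agent.Helper63.Levin.SpecB

/-!
A Montel type theorem for entire functions of exponential growth, and the extremal function.
-/

namespace Pool.Agent.Helper63.Levin

open Metric Set Complex Filter Topology Bornology MeasureTheory
open scoped ComplexConjugate Interval BoundedContinuousFunction Nat

lemma montel_entire {g : ℕ → ℂ → ℂ} {M c : ℝ} (hM : 0 ≤ M)
    (hg : ∀ n, Differentiable ℂ (g n)) (hb : ∀ n z, ‖g n z‖ ≤ M * Real.exp (c * ‖z‖)) :
    ∃ (θ : ℕ → ℕ) (G : ℂ → ℂ), StrictMono θ ∧ Differentiable ℂ G ∧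
      ∀ z, Tendsto (fun n => g (θ n) z) atTop (𝓝 (G z)) := by
  set a : ℕ → ℕ → ℂ := fun n k => (k ! : ℂ)⁻¹ * iteratedDeriv k (g n) 0 with ha
  have hak : ∀ n k (R : ℝ), 0 < R → ‖a n k‖ ≤ M * Real.exp (c * R) / R ^ k := by
    intro n k R hR
    have h1 := norm_iteratedDeriv_le_of_forall_mem_sphere_norm_le (c := 0) (R := R)
      (C := M * Real.exp (c * R)) k hR ((hg n).diffContOnCl) (by
        intro z hz
        have : ‖z‖ = R := by simpa using hz
        rw [← this]
        exact hb n z)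
    rw [ha]
    simp only [norm_mul, norm_inv]
    have h2 : ‖(k ! : ℂ)‖ = (k ! : ℝ) := by simp
    have h3 : (0 : ℝ) < (k ! : ℝ) := by exact_mod_cast Nat.factorial_pos k
    rw [h2, inv_mul_eq_div, div_le_iff₀ h3]
    refine h1.trans (le_of_eq ?_)
    ring
  have hsum : ∀ n z, g n z = ∑' k, a n k * z ^ k := by
    intro n z
    have := taylorSeries_eq_of_entire' 0 z (hg n)
    simp only [sub_zero] at this
    exact this.symm
  -- compactness
  set S : Set (ℕ → ℂ) := Set.pi univ (fun _ : ℕ => closedBall (0 : ℂ) (M * Real.exp (c * 1)))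
    with hS
  have hScomp : IsCompact S := isCompact_univ_pi (fun _ => isCompact_closedBall _ _)
  have hSmem : ∀ n, a n ∈ S := by
    intro n k _
    have := hak n k 1 one_pos
    simpa using this
  obtain ⟨A, _, θ, hθ, hlim⟩ := hScomp.tendsto_subseq hSmem
  rw [tendsto_pi_nhds] at hlim
  have hA : ∀ k (R : ℝ), 0 < R → ‖A k‖ ≤ M * Real.exp (c * R) / R ^ k := by
    intro k R hR
    exact le_of_tendsto (hlim k).norm (Eventually.of_forall fun n => hak (θ n) k R hR)
  have hterm : ∀ (B : ℕ → ℂ), (∀ k (R : ℝ), 0 < R → ‖B k‖ ≤ M * Real.exp (c * R) / R ^ k) →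
      ∀ ρ : ℝ, 0 < ρ → ∀ z : ℂ, ‖z‖ ≤ ρ → ∀ k, ‖B k * z ^ k‖ ≤
        M * Real.exp (c * (2 * ρ)) * (1 / 2) ^ k := by
    intro B hB ρ hρ z hz k
    rw [norm_mul, norm_pow]
    have h1 := hB k (2 * ρ) (by positivity)
    calc ‖B k‖ * ‖z‖ ^ k ≤ M * Real.exp (c * (2 * ρ)) / (2 * ρ) ^ k * ρ ^ k := by gcongr
      _ = M * Real.exp (c * (2 * ρ)) * (1 / 2) ^ k := by
        rw [mul_pow, one_div, inv_pow]
        field_simp
  have hsummable : ∀ ρ : ℝ, Summable fun k : ℕ => M * Real.exp (c * (2 * ρ)) * (1 / 2 : ℝ) ^ k :=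
    fun ρ => (summable_geometric_of_lt_one (by norm_num) (by norm_num)).mul_left _
  refine ⟨θ, fun z => ∑' k, A k * z ^ k, hθ, ?_, ?_⟩
  · intro z0
    have hd : DifferentiableOn ℂ (fun z => ∑' k, A k * z ^ k) (ball 0 (‖z0‖ + 1)) := by
      apply differentiableOn_tsum_of_summable_norm (hsummable (‖z0‖ + 1))
      · intro i
        exact (by fun_prop : Differentiable ℂ fun z => A i * z ^ i).differentiableOn
      · exact isOpen_ball
      · intro k z hz
        have hz' : ‖z‖ < ‖z0‖ + 1 := by simpa using hz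
        exact hterm A hA _ (by positivity) z hz'.le k
    exact hd.differentiableAt (isOpen_ball.mem_nhds (by simp))
  · intro z
    have h1 : (fun n => g (θ n) z) = fun n => ∑' k, a (θ n) k * z ^ k := by
      funext n
      exact hsum _ _
    rw [h1]
    apply tendsto_tsum_of_dominated_convergence (hsummable (‖z‖ + 1))
    · intro k
      exact (hlim k).mul_const _
    · exact Eventually.of_forall fun n k =>
        hterm _ (fun k R hR => hak (θ n) k R hR) _ (by positivity) z (by linarith) k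

/-- In a complete space the growth constants are uniform. -/
lemma growth_const {σ : ℝ} {w : ℂ → ℂ} [CompleteSpace (ESpace σ w)] {e : ℝ} (he : 0 < e) :
    ∃ M : ℝ, 0 ≤ M ∧ ∀ (f : ESpace σ w) (z : ℂ), ‖f z‖ ≤ M * ‖f‖ * Real.exp ((σ + e) * ‖z‖) := by
  have hbd : ∀ f : ESpace σ w, ∃ C : ℝ, ∀ z, ‖f z * (Real.exp (-((σ + e) * ‖z‖)) : ℂ)‖ ≤ C := by
    intro f
    obtain ⟨C, hC⟩ := f.type e he
    refine ⟨C, fun z => ?_⟩
    rw [norm_mul, norm_real, Real.norm_eq_abs, abs_of_pos (Real.exp_pos _), Real.exp_neg,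
      mul_inv_le_iff₀ (Real.exp_pos _)]
    exact hC z
  choose C hC using hbd
  have hcont : ∀ f : ESpace σ w,
      Continuous fun z : ℂ => f z * (Real.exp (-((σ + e) * ‖z‖)) : ℂ) := by
    intro f
    have := f.diff.continuous
    fun_prop
  let J : ESpace σ w →ₗ[ℂ] (ℂ →ᵇ ℂ) :=
    { toFun := fun f => BoundedContinuousFunction.ofNormedAddCommGroup
        (fun z => f z * (Real.exp (-((σ + e) * ‖z‖)) : ℂ)) (hcont f) (C f) (hC f)
      map_add' := by
        intro f g
        ext z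
        simp [add_mul]
      map_smul' := by
        intro c f
        ext z
        simp [mul_assoc] }
  have hJ : ∀ (f : ESpace σ w) (z : ℂ), J f z = f z * (Real.exp (-((σ + e) * ‖z‖)) : ℂ) :=
    fun f z => rfl
  have hJ2 : ∀ (f : ESpace σ w) (z : ℂ), ‖f z‖ = ‖J f z‖ * Real.exp ((σ + e) * ‖z‖) := by
    intro f z
    rw [hJ, norm_mul, norm_real, Real.norm_eq_abs, abs_of_pos (Real.exp_pos _), mul_assoc,
      ← Real.exp_add]
    simp
  have hJc : Continuous J := by
    apply LinearMap.continuous_of_seq_closed_graph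
    intro u x y hu hJu
    -- the limit of `u n` as entire functions
    set G : ℂ → ℂ := fun z => y z * (Real.exp ((σ + e) * ‖z‖) : ℂ) with hG
    have hclose : ∀ n z, ‖G z - u n z‖ ≤ ‖y - J (u n)‖ * Real.exp ((σ + e) * ‖z‖) := by
      intro n z
      have h1 : G z - u n z = (y - J (u n)) z * (Real.exp ((σ + e) * ‖z‖) : ℂ) := by
        rw [BoundedContinuousFunction.sub_apply, hJ, hG]
        simp only
        rw [sub_mul, mul_assoc (u n z), ← ofReal_mul, ← Real.exp_add]
        simp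
      rw [h1, norm_mul, norm_real, Real.norm_eq_abs, abs_of_pos (Real.exp_pos _)]
      gcongr
      exact BoundedContinuousFunction.norm_coe_le_norm _ _
    have hnorm : Tendsto (fun n => ‖y - J (u n)‖) atTop (𝓝 0) := by
      have h1 : Tendsto (fun n => y - (J ∘ u) n) atTop (𝓝 (y - y)) := tendsto_const_nhds.sub hJu
      rw [sub_self] at h1
      simpa using h1.norm
    have hGd : Differentiable ℂ G := by
      have hloc : TendstoLocallyUniformlyOn (fun n => (u n : ℂ → ℂ)) G atTop univ := by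
        rw [Metric.tendstoLocallyUniformlyOn_iff]
        intro d hd z0 _
        refine ⟨ball z0 1, mem_nhdsWithin_of_mem_nhds (ball_mem_nhds _ one_pos), ?_⟩
        set E := Real.exp (|σ + e| * (‖z0‖ + 1)) with hE
        have hE0 : 0 < E := Real.exp_pos _
        have h2 : Tendsto (fun n => ‖y - J (u n)‖ * E) atTop (𝓝 (0 * E)) := hnorm.mul_const _
        rw [zero_mul] at h2
        filter_upwards [h2.eventually_lt_const hd] with n hn z hz
        rw [dist_eq_norm]
        refine lt_of_le_of_lt (hclose n z) (lt_of_le_of_lt ?_ hn)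
        apply mul_le_mul_of_nonneg_left _ (norm_nonneg _)
        apply Real.exp_le_exp.2
        have hz' : ‖z‖ ≤ ‖z0‖ + 1 := by
          have : ‖z - z0‖ < 1 := by rwa [mem_ball, dist_eq_norm] at hz
          calc ‖z‖ = ‖z0 + (z - z0)‖ := by ring_nf
            _ ≤ ‖z0‖ + ‖z - z0‖ := norm_add_le _ _
            _ ≤ _ := by linarith
        calc (σ + e) * ‖z‖ ≤ |σ + e| * ‖z‖ := by
              gcongr
              exact le_abs_self _
          _ ≤ |σ + e| * (‖z0‖ + 1) := by gcongr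
      have := hloc.differentiableOn (Eventually.of_forall fun n => (u n).diff.differentiableOn)
        isOpen_univ
      exact differentiableOn_univ.1 this
    have hreal : ∀ t : ℝ, G t = x t := by
      intro t
      have h1 : Tendsto (fun n => u n t) atTop (𝓝 (G t)) := by
        rw [tendsto_iff_norm_sub_tendsto_zero]
        have h2 : Tendsto (fun n => ‖y - J (u n)‖ * Real.exp ((σ + e) * ‖(t : ℂ)‖)) atTop
            (𝓝 (0 * Real.exp ((σ + e) * ‖(t : ℂ)‖))) := hnorm.mul_const _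
        rw [zero_mul] at h2
        apply squeeze_zero (fun n => norm_nonneg _) (fun n => ?_) h2
        rw [norm_sub_rev]
        exact hclose n t
      have h3 : Tendsto (fun n => u n t) atTop (𝓝 (x t)) := by
        rw [tendsto_iff_norm_sub_tendsto_zero]
        have h4 : Tendsto (fun n => ‖u n - x‖ * ‖w t‖) atTop (𝓝 (0 * ‖w t‖)) :=
          ((tendsto_iff_norm_sub_tendsto_zero.1 hu).mul_const _)
        rw [zero_mul] at h4
        apply squeeze_zero (fun n => norm_nonneg _) (fun n => ?_) h4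
        have := (u n - x).le_norm t
        rwa [ESpace.sub_apply] at this
      exact tendsto_nhds_unique h1 h3
    have hGx : ∀ z, G z = x z := by
      intro z
      have := eq_zero_of_real (f := fun z => G z - x z) (hGd.sub x.diff)
        (fun t => by simp only [hreal t, sub_self]) z
      exact sub_eq_zero.1 this
    ext z
    have h5 : y z = G z * (Real.exp (-((σ + e) * ‖z‖)) : ℂ) := by
      rw [hG]
      simp only
      rw [mul_assoc, ← ofReal_mul, ← Real.exp_add]
      simp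
    rw [h5, hGx, hJ]
  set Jc : ESpace σ w →L[ℂ] (ℂ →ᵇ ℂ) := ⟨J, hJc⟩ with hJcdef
  refine ⟨‖Jc‖, norm_nonneg _, fun f z => ?_⟩
  rw [hJ2 f z]
  gcongr
  have h1 : ‖J f z‖ ≤ ‖J f‖ := BoundedContinuousFunction.norm_coe_le_norm _ _
  exact h1.trans (Jc.le_opNorm f)

/-- The extremal function. -/
lemma exists_extremal {σ : ℝ} {w : ℂ → ℂ} (hdiff : Differentiable ℂ w)
    (htyp : ExpTypeLE σ w) [CompleteSpace (ESpace σ w)] (z0 : ℂ) :
    ∃ g : ESpace σ w, (∀ x : ℝ, ‖g x‖ = ‖w x‖) ∧
      ∀ g' : ESpace σ w, (∀ x : ℝ, ‖g' x‖ = ‖w x‖) → ‖g' z0‖ ≤ ‖g z0‖ := by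
  set A : Set (ESpace σ w) := {g | ∀ x : ℝ, ‖g x‖ = ‖w x‖} with hA
  have hAn : ∀ g ∈ A, ‖g‖ ≤ 1 := by
    intro g hg
    apply ESpace.norm_le_of zero_le_one
    intro x
    rw [hg x, one_mul]
  obtain ⟨M1, hM10, hM1⟩ := growth_const (σ := σ) (w := w) one_pos
  set V : Set ℝ := (fun g : ESpace σ w => ‖g z0‖) '' A with hV
  have hne : V.Nonempty := by
    refine ⟨_, ESpace.mk' w hdiff htyp (C := 1) (fun x => by simp), ?_, rfl⟩
    intro x
    rfl
  have hbdd : BddAbove V := by
    refine ⟨M1 * 1 * Real.exp ((σ + 1) * ‖z0‖), ?_⟩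
    rintro _ ⟨g, hg, rfl⟩
    have := hAn g hg
    refine (hM1 g z0).trans ?_
    gcongr
  obtain ⟨v, -, hvlim, hvmem⟩ := exists_seq_tendsto_sSup hne hbdd
  choose g hgA hgv using hvmem
  have hb : ∀ (e M : ℝ), 0 ≤ M → (∀ (f : ESpace σ w) (z : ℂ), ‖f z‖ ≤ M * ‖f‖ * Real.exp ((σ + e) * ‖z‖)) →
      ∀ n z, ‖g n z‖ ≤ M * Real.exp ((σ + e) * ‖z‖) := by
    intro e M hM0 hM n z
    have := hAn (g n) (hgA n)
    refine (hM (g n) z).trans ?_
    have h2 : M * ‖g n‖ ≤ M := by nlinarith
    gcongr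
  obtain ⟨θ, G, hθ, hGd, hGlim⟩ := montel_entire hM10
    (fun n => (g n).diff) (hb 1 M1 hM10 hM1)
  have hGtype : ExpTypeLE σ G := by
    intro e he
    obtain ⟨M, hM0, hM⟩ := growth_const (σ := σ) (w := w) he
    refine ⟨M, fun z => ?_⟩
    exact le_of_tendsto (hGlim z).norm (Eventually.of_forall fun n => hb e M hM0 hM (θ n) z)
  have hGreal : ∀ x : ℝ, ‖G x‖ = ‖w x‖ := by
    intro x
    have h1 := (hGlim x).norm
    have h2 : (fun n => ‖g (θ n) x‖) = fun _ => ‖w x‖ := by
      funext n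
      exact hgA (θ n) x
    rw [h2] at h1
    exact tendsto_nhds_unique h1 tendsto_const_nhds |>.symm ▸ rfl
  refine ⟨ESpace.mk' G hGd hGtype (C := 1) (fun x => by rw [hGreal, one_mul]), hGreal, ?_⟩
  intro g' hg'
  have h1 : ‖g' z0‖ ≤ sSup V := le_csSup hbdd ⟨g', hg', rfl⟩
  have h2 : ‖G z0‖ = sSup V := by
    have h3 := (hGlim z0).norm
    have h4 : Tendsto (fun n => ‖g (θ n) z0‖) atTop (𝓝 (sSup V)) := by
      have := hvlim.comp hθ.tendsto_atTop
      refine this.congr (fun n => ?_)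
      exact (hgv (θ n)).symm
    exact tendsto_nhds_unique h3 h4
  rw [ESpace.mk'_apply, h2]
  exact h1

end Pool.Agent.Helper63.Levin
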