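import Pool.Agent.Helper63.Levin.General

/-!
One-dimensional form of the description of the spectrum.
-/

namespace Pool.Agent.Helper63.Levin

open Metric Set Complex Filter Topology Bornology MeasureTheory
open scoped ComplexConjugate Interval

lemma quarter {φ : ℂ → ℂ} {R b c : ℝ} (hR : 0 < R) (hb : 0 ≤ b) (hc : 0 ≤ c)
    (hd : ∀ z : ℂ, 0 ≤ z.re → 0 ≤ z.im → DifferentiableAt ℂ φ z)
    (hx : ∀ x : ℝ, 0 ≤ x → x ≤ R → ‖φ x‖ ≤ b)
    (hy : ∀ y : ℝ, 0 ≤ y → y ≤ R → ‖φ (y * I)‖ ≤ b)
    (harc : ∀ z : ℂ, 0 ≤ z.re → 0 ≤ z.im → ‖z‖ = R → ‖φ z‖ ≤ b * Real.exp (c * min z.re z.im)) :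
    ∀ z : ℂ, 0 ≤ z.re → 0 ≤ z.im → ‖z‖ ≤ R →
      ‖φ z‖ ≤ b * Real.exp (2 * c / R * (z.re * z.im)) := by
  set S : Set ℂ := {z : ℂ | ‖z‖ < R ∧ 0 < z.re ∧ 0 < z.im} with hS
  have hSopen : IsOpen S := by
    apply IsOpen.inter (isOpen_lt continuous_norm continuous_const)
    apply IsOpen.inter (isOpen_lt continuous_const continuous_re)
    exact isOpen_lt continuous_const continuous_im
  have hScl : closure S ⊆ {v : ℂ | ‖v‖ ≤ R ∧ 0 ≤ v.re ∧ 0 ≤ v.im} := by
    apply closure_minimal
    · intro v hv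
      exact ⟨hv.1.le, hv.2.1.le, hv.2.2.le⟩
    · apply IsClosed.inter (isClosed_le continuous_norm continuous_const)
      apply IsClosed.inter (isClosed_le continuous_const continuous_re)
      exact isClosed_le continuous_const continuous_im
  have hbdd : IsBounded S := by
    apply isBounded_ball.subset (_ : S ⊆ ball (0 : ℂ) R)
    intro v hv
    simpa using hv.1
  set F : ℂ → ℂ := fun z => φ z * Complex.exp (((c / R : ℝ) : ℂ) * I * z ^ 2) with hF
  have hFn : ∀ z : ℂ, ‖F z‖ = ‖φ z‖ * Real.exp (-(2 * c / R * (z.re * z.im))) := by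
    intro z
    rw [hF]
    simp only [norm_mul, Complex.norm_exp]
    congr 2
    rw [mul_assoc, Complex.re_ofReal_mul]
    simp [sq]
    ring
  have main : ∀ z ∈ closure S, ‖F z‖ ≤ b := by
    intro z hz
    apply norm_le_of_forall_mem_frontier_norm_le (U := S) hbdd _ _ hz
    · apply DifferentiableOn.diffContOnCl
      intro v hv
      obtain ⟨_, hv2, hv3⟩ := hScl hv
      exact ((hd v hv2 hv3).mul (by fun_prop)).differentiableWithinAt
    · intro v hv
      rw [hSopen.frontier_eq] at hv
      obtain ⟨hvR, hvre, hvim⟩ := hScl hv.1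
      rw [hFn]
      by_cases hre : v.re = 0
      · have hv' : v = (v.im : ℂ) * I := by apply Complex.ext <;> simp [hre]
        have h1 : ‖φ v‖ ≤ b := by
          rw [hv']
          exact hy _ hvim (((le_abs_self _).trans (abs_im_le_norm v)).trans hvR)
        rw [hre]
        simpa using h1
      by_cases him : v.im = 0
      · have hv' : v = (v.re : ℂ) := by apply Complex.ext <;> simp [him]
        have h1 : ‖φ v‖ ≤ b := by
          rw [hv']
          exact hx _ hvre (((le_abs_self _).trans (abs_re_le_norm v)).trans hvR)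
        rw [him]
        simpa using h1
      have hnorm : ‖v‖ = R := by
        by_contra hne
        apply hv.2
        exact ⟨lt_of_le_of_ne hvR hne, lt_of_le_of_ne hvre (Ne.symm hre),
          lt_of_le_of_ne hvim (Ne.symm him)⟩
      have h1 := harc v hvre hvim hnorm
      have h2 : c * min v.re v.im ≤ 2 * c / R * (v.re * v.im) := by
        have h3 : R * min v.re v.im ≤ 2 * (v.re * v.im) := by
          have h4 : R ≤ v.re + v.im := by
            rw [← hnorm]
            calc ‖v‖ ≤ |v.re| + |v.im| := Complex.norm_le_abs_re_add_abs_im v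
              _ = _ := by rw [abs_of_nonneg hvre, abs_of_nonneg hvim]
          rcases le_total v.re v.im with h5 | h5
          · rw [min_eq_left h5]
            nlinarith
          · rw [min_eq_right h5]
            nlinarith
        have h6 : 2 * c / R * (v.re * v.im) = c / R * (2 * (v.re * v.im)) := by ring
        have h7 : c * min v.re v.im = c / R * (R * min v.re v.im) := by field_simp
        rw [h6, h7]
        gcongr
      calc ‖φ v‖ * Real.exp (-(2 * c / R * (v.re * v.im)))
          ≤ b * Real.exp (2 * c / R * (v.re * v.im)) *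
              Real.exp (-(2 * c / R * (v.re * v.im))) := by
            gcongr
            exact h1.trans (by gcongr)
        _ = b := by rw [mul_assoc, ← Real.exp_add]; simp
  intro z hzre hzim hzR
  -- closure of the quarter disc
  have hmem : z ∈ closure S := by
    -- approach `z` by `(1 - t) z + t p`
    have hp : ∀ t : ℝ, 0 < t → t < 1 →
        (1 - (t : ℂ)) * z + (t : ℂ) * (((R / 3 : ℝ) : ℂ) * (1 + I)) ∈ S := by
      intro t ht0 ht1
      have hq : ‖((R / 3 : ℝ) : ℂ) * (1 + I)‖ < R := by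
        rw [norm_mul, norm_real, Real.norm_eq_abs, abs_of_pos (by positivity)]
        have : ‖(1 : ℂ) + I‖ ≤ 2 := by
          refine (norm_add_le _ _).trans ?_
          simp
          norm_num
        nlinarith
      refine ⟨?_, ?_, ?_⟩
      · refine lt_of_le_of_lt (norm_add_le _ _) ?_
        rw [norm_mul, norm_mul (t : ℂ)]
        have e1 : ‖(1 - (t : ℂ))‖ = 1 - t := by
          rw [← ofReal_one, ← ofReal_sub, norm_real, Real.norm_eq_abs, abs_of_pos (by linarith)]
        have e2 : ‖(t : ℂ)‖ = t := by rw [norm_real, Real.norm_eq_abs, abs_of_pos ht0]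
        rw [e1, e2]
        nlinarith
      · simp
        nlinarith
      · simp
        nlinarith
    have hlim : Tendsto (fun t : ℝ => (1 - (t : ℂ)) * z + (t : ℂ) * (((R / 3 : ℝ) : ℂ) * (1 + I)))
        (𝓝[>] 0) (𝓝 ((1 - ((0 : ℝ) : ℂ)) * z + ((0 : ℝ) : ℂ) * (((R / 3 : ℝ) : ℂ) * (1 + I)))) := by
      apply Tendsto.mono_left _ nhdsWithin_le_nhds
      apply Continuous.tendsto
      fun_prop
    simp only [ofReal_zero, sub_zero, one_mul, zero_mul, add_zero] at hlim
    apply mem_closure_of_tendsto hlim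
    have : Ioo (0 : ℝ) 1 ∈ 𝓝[>] (0 : ℝ) := Ioo_mem_nhdsGT one_pos
    filter_upwards [this] with t ht
    exact hp t ht.1 ht.2
  have h1 := main z hmem
  rw [hFn] at h1
  calc ‖φ z‖ = ‖φ z‖ * Real.exp (-(2 * c / R * (z.re * z.im))) *
        Real.exp (2 * c / R * (z.re * z.im)) := by
        rw [mul_assoc, ← Real.exp_add]; simp
    _ ≤ b * Real.exp (2 * c / R * (z.re * z.im)) := by gcongr

/-- One-dimensional candidate with factor `1 + ε`. -/
def spec1 (w : ℂ → ℂ) : Set ℂ :=
  {l | ∀ R : ℝ, 0 < R → ∀ e : ℝ, 0 < e → ∃ x : ℝ, ∀ r : ℝ, 0 ≤ r → r ≤ R →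
    Real.exp (l.re * r) * ‖w x‖ ≤ (1 + e) * ‖w (x + r)‖ ∧
    Real.exp (-(l.re * r)) * ‖w x‖ ≤ (1 + e) * ‖w (x - r)‖ ∧
    Real.exp (|l.im| * r) * ‖w x‖ ≤ (1 + e) * ‖w (x + r * I)‖}

/-- One-dimensional candidate with a fixed constant. -/
def spec1C (w : ℂ → ℂ) : Set ℂ :=
  {l | ∃ C : ℝ, ∀ R : ℝ, 0 < R → ∃ x : ℝ, ∀ r : ℝ, 0 ≤ r → r ≤ R →
    Real.exp (l.re * r) * ‖w x‖ ≤ C * ‖w (x + r)‖ ∧
    Real.exp (-(l.re * r)) * ‖w x‖ ≤ C * ‖w (x - r)‖ ∧
    Real.exp (|l.im| * r) * ‖w x‖ ≤ C * ‖w (x + r * I)‖}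

lemma specS_subset_spec1 (w : ℂ → ℂ) : specS w ⊆ spec1 w := by
  intro l hl R hR e he
  obtain ⟨x, hx⟩ := hl R hR e he
  refine ⟨x, fun r h0 hr => ⟨?_, ?_, ?_⟩⟩
  · have := hx r 0 (by rwa [abs_of_nonneg h0]) le_rfl hR.le
    simpa using this
  · have := hx (-r) 0 (by rwa [abs_neg, abs_of_nonneg h0]) le_rfl hR.le
    simpa [sub_eq_add_neg] using this
  · have := hx 0 r (by simpa using hR.le) h0 hr
    simpa using this

lemma spec1_subset_spec1C (w : ℂ → ℂ) : spec1 w ⊆ spec1C w := by
  intro l hl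
  refine ⟨2, fun R hR => ?_⟩
  obtain ⟨x, hx⟩ := hl R hR 1 one_pos
  refine ⟨x, fun r h0 hr => ?_⟩
  have := hx r h0 hr
  norm_num at this ⊢
  exact this

lemma Core.spec1C_subset {w : ℂ → ℂ} {K : ℝ} (h : Core w K) : spec1C w ⊆ specC w := by
  intro l hl
  obtain ⟨C0, hC0⟩ := hl
  have hK0 := h.K_nonneg
  set κ := l.re with hκ
  set t := |l.im| with ht
  have ht0 : 0 ≤ t := abs_nonneg _
  set c := K + |κ| + t with hc
  have hc0 : 0 ≤ c := by positivity
  set C := max C0 1 with hCdef
  have hC1 : 1 ≤ C := le_max_right _ _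
  refine ⟨C * Real.exp (2 * c), fun R' hR' => ?_⟩
  set R := max (R' ^ 2) (2 * R') with hRdef
  have hR1 : R' ^ 2 ≤ R := le_max_left _ _
  have hR2 : 2 * R' ≤ R := le_max_right _ _
  have hR0 : 0 < R := by linarith
  obtain ⟨x, hx⟩ := hC0 R hR0
  refine ⟨x, fun s y hs hy0 hyR => ?_⟩
  have hwx : 0 < ‖w x‖ := h.norm_pos (by simp)
  have hCle : ∀ z, C0 * ‖w z‖ ≤ C * ‖w z‖ := fun z =>
    mul_le_mul_of_nonneg_right (le_max_left _ _) (norm_nonneg _)
  -- the quotient
  set φ : ℂ → ℂ := fun z => Complex.exp (((κ : ℂ) - t * I) * z) * w x / w (x + z) with hφ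
  have hφn : ∀ z : ℂ, ‖φ z‖ = Real.exp (κ * z.re + t * z.im) * ‖w x‖ / ‖w (x + z)‖ := by
    intro z
    rw [hφ]
    simp only [norm_div, norm_mul, Complex.norm_exp]
    congr 3
    simp
  have hφd : ∀ z : ℂ, 0 ≤ z.im → DifferentiableAt ℂ φ z := by
    intro z hz
    have hdw := h.diff
    apply DifferentiableAt.div
    · fun_prop
    · exact (hdw _).comp z (by fun_prop)
    · exact h.ne_zero (by simpa using hz)
  have hposz : ∀ z : ℂ, 0 ≤ z.im → 0 < ‖w (x + z)‖ := fun z hz => h.norm_pos (by simpa using hz)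
  -- bounds on the axes
  have hxp : ∀ r : ℝ, 0 ≤ r → r ≤ R → ‖φ r‖ ≤ C := by
    intro r h0 hr
    rw [hφn, div_le_iff₀ (hposz r (by simp))]
    have := (hx r h0 hr).1
    simp only [ofReal_re, ofReal_im, mul_zero, add_zero]
    exact this.trans (hCle _)
  have hxm : ∀ r : ℝ, 0 ≤ r → r ≤ R → ‖φ (-(r : ℂ))‖ ≤ C := by
    intro r h0 hr
    rw [hφn, div_le_iff₀ (hposz (-(r : ℂ)) (by simp))]
    have := (hx r h0 hr).2.1
    simp only [neg_re, neg_im, ofReal_re, ofReal_im, mul_zero, add_zero, neg_zero, mul_neg]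
    rw [← sub_eq_add_neg]
    exact this.trans (hCle _)
  have hyp : ∀ r : ℝ, 0 ≤ r → r ≤ R → ‖φ (r * I)‖ ≤ C := by
    intro r h0 hr
    rw [hφn, div_le_iff₀ (hposz (r * I) (by simpa using h0))]
    have := (hx r h0 hr).2.2
    have e1 : ((r : ℂ) * I).re = 0 := by simp
    have e2 : ((r : ℂ) * I).im = r := by simp
    rw [e1, e2, mul_zero, zero_add]
    exact this.trans (hCle _)
  -- comparison inside
  have hcmp : ∀ z z' : ℂ, 0 ≤ z.im → 0 ≤ z'.im →
      ‖φ z‖ ≤ ‖φ z'‖ * Real.exp (κ * (z.re - z'.re) + t * (z.im - z'.im) + K * ‖z' - z‖) := by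
    intro z z' hz hz'
    rw [hφn, hφn]
    have h1 := h.lip (a := (x : ℂ) + z) (b := (x : ℂ) + z') (by simpa using hz) (by simpa using hz')
    rw [add_sub_add_left_eq_sub] at h1
    have p1 := hposz z hz
    have p2 := hposz z' hz'
    rw [div_le_iff₀ p1]
    have e1 : Real.exp (κ * z.re + t * z.im) = Real.exp (κ * z'.re + t * z'.im) *
        Real.exp (κ * (z.re - z'.re) + t * (z.im - z'.im)) := by
      rw [← Real.exp_add]; congr 1; ring
    rw [e1, Real.exp_add _ (K * ‖z' - z‖)]
    have e2 : 1 ≤ Real.exp (K * ‖z' - z‖) * ‖w (x + z)‖ / ‖w (x + z')‖ := by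
      rw [le_div_iff₀ p2, one_mul]
      exact h1
    have e3 : 0 ≤ Real.exp (κ * z'.re + t * z'.im) *
        Real.exp (κ * (z.re - z'.re) + t * (z.im - z'.im)) * ‖w x‖ := by positivity
    calc Real.exp (κ * z'.re + t * z'.im) *
          Real.exp (κ * (z.re - z'.re) + t * (z.im - z'.im)) * ‖w x‖
        ≤ Real.exp (κ * z'.re + t * z'.im) *
          Real.exp (κ * (z.re - z'.re) + t * (z.im - z'.im)) * ‖w x‖ *
          (Real.exp (K * ‖z' - z‖) * ‖w (x + z)‖ / ‖w (x + z')‖) :=
          le_mul_of_one_le_right e3 e2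
      _ = _ := by ring
  have hC0' : 0 ≤ C := by linarith
  have habs := neg_abs_le κ
  have habs' := le_abs_self κ
  -- final estimate from a bound on the quotient
  have hfin : ‖φ (s + y * I)‖ ≤ C * Real.exp (2 * c / R * (|s| * y)) →
      Real.exp (l.re * s + |l.im| * y) * ‖w x‖ ≤ C * Real.exp (2 * c) * ‖w (x + s + y * I)‖ := by
    intro hle
    rw [hφn] at hle
    have e0 : (x : ℂ) + ((s : ℂ) + y * I) = x + s + y * I := by ring
    have e1 : ((s : ℂ) + y * I).re = s := by simp
    have e2 : ((s : ℂ) + y * I).im = y := by simp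
    rw [e0, e1, e2, div_le_iff₀ (by rw [← e0]; exact hposz _ (by simpa using hy0))] at hle
    refine hle.trans ?_
    have e3 : 2 * c / R * (|s| * y) ≤ 2 * c := by
      rw [div_mul_eq_mul_div, div_le_iff₀ hR0]
      have e4 : |s| * y ≤ R := by
        calc |s| * y ≤ R' * R' := by gcongr
          _ = R' ^ 2 := by ring
          _ ≤ R := hR1
      gcongr
    gcongr
  have hnle : ‖(s : ℂ) + y * I‖ ≤ R := by
    refine (norm_add_le _ _).trans ?_
    rw [norm_mul, norm_real, norm_real, norm_I, mul_one, Real.norm_eq_abs, Real.norm_eq_abs,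
      abs_of_nonneg hy0]
    linarith
  have hyR2 : ∀ z : ℂ, ‖z‖ = R → |z.im| ≤ R := fun z hz => (abs_im_le_norm z).trans hz.le
  have hxR2 : ∀ z : ℂ, ‖z‖ = R → |z.re| ≤ R := fun z hz => (abs_re_le_norm z).trans hz.le
  apply hfin
  rcases le_total 0 s with hs0 | hs0
  · -- right quadrant
    have key := quarter (φ := φ) hR0 hC0' hc0 (fun z _ hz => hφd z hz) hxp hyp (by
      intro z hzre hzim hzR
      have p1 := hcmp z (z.re : ℂ) hzim (by simp)
      have p2 := hcmp z (z.im * I) hzim (by simpa using hzim)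
      have q1 := hxp z.re hzre (by have := hxR2 z hzR; rwa [abs_of_nonneg hzre] at this)
      have q2 := hyp z.im hzim (by have := hyR2 z hzR; rwa [abs_of_nonneg hzim] at this)
      have n1 : ‖(z.re : ℂ) - z‖ = z.im := by
        have : (z.re : ℂ) - z = -((z.im : ℂ) * I) := by apply Complex.ext <;> simp
        rw [this, norm_neg, norm_mul, norm_real, norm_I, mul_one, Real.norm_eq_abs,
          abs_of_nonneg hzim]
      have n2 : ‖(z.im : ℂ) * I - z‖ = z.re := by
        have : (z.im : ℂ) * I - z = -(z.re : ℂ) := by apply Complex.ext <;> simp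
        rw [this, norm_neg, norm_real, Real.norm_eq_abs, abs_of_nonneg hzre]
      rw [n1] at p1
      rw [n2] at p2
      simp only [ofReal_re, ofReal_im, sub_self, mul_zero, zero_add, sub_zero] at p1
      have m1 : ((z.im : ℂ) * I).re = 0 := by simp
      have m2 : ((z.im : ℂ) * I).im = z.im := by simp
      rw [m1, m2] at p2
      rcases le_total z.re z.im with hle | hle
      · rw [min_eq_left hle]
        refine p2.trans ?_
        have : κ * (z.re - 0) + t * (z.im - z.im) + K * z.re ≤ c * z.re := by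
          rw [hc]
          nlinarith
        gcongr
      · rw [min_eq_right hle]
        refine p1.trans ?_
        have : t * z.im + K * z.im ≤ c * z.im := by
          rw [hc]
          have := abs_nonneg κ
          nlinarith
        gcongr)
    have := key ((s : ℂ) + y * I) (by simpa using hs0) (by simpa using hy0) hnle
    simpa [abs_of_nonneg hs0] using this
  · -- left quadrant, by reflection
    set ψ : ℂ → ℂ := fun z => sharp φ (-z) with hψ
    have hψn : ∀ z, ‖ψ z‖ = ‖φ (-(conj z))‖ := by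
      intro z
      rw [hψ]
      simp only
      rw [norm_sharp]
      simp
    have hψd : ∀ z : ℂ, 0 ≤ z.im → DifferentiableAt ℂ ψ z := by
      intro z hz
      have h1 : DifferentiableAt ℂ (sharp φ) (-z) := by
        have : sharp φ = conj ∘ φ ∘ conj := rfl
        rw [this, differentiableAt_conj_conj_iff]
        exact hφd _ (by simpa using hz)
      exact h1.comp z differentiable_neg.differentiableAt
    have key := quarter (φ := ψ) hR0 hC0' hc0 (fun z _ hz => hψd z hz) (by
        intro r h0 hr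
        rw [hψn]
        simpa using hxm r h0 hr) (by
        intro r h0 hr
        rw [hψn]
        have : -(conj ((r : ℂ) * I)) = r * I := by simp
        rw [this]
        exact hyp r h0 hr) (by
      intro z hzre hzim hzR
      rw [hψn]
      set z' : ℂ := -(conj z) with hz'
      have hz're : z'.re = -z.re := by simp [hz']
      have hz'im : z'.im = z.im := by simp [hz']
      have p1 := hcmp z' (-(z.re : ℂ)) (by rw [hz'im]; exact hzim) (by simp)
      have p2 := hcmp z' (z.im * I) (by rw [hz'im]; exact hzim) (by simpa using hzim)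
      have q1 := hxm z.re hzre (by have := hxR2 z hzR; rwa [abs_of_nonneg hzre] at this)
      have q2 := hyp z.im hzim (by have := hyR2 z hzR; rwa [abs_of_nonneg hzim] at this)
      have n1 : ‖-(z.re : ℂ) - z'‖ = z.im := by
        have : -(z.re : ℂ) - z' = -((z.im : ℂ) * I) := by apply Complex.ext <;> simp [hz']
        rw [this, norm_neg, norm_mul, norm_real, norm_I, mul_one, Real.norm_eq_abs,
          abs_of_nonneg hzim]
      have n2 : ‖(z.im : ℂ) * I - z'‖ = z.re := by
        have : (z.im : ℂ) * I - z' = (z.re : ℂ) := by apply Complex.ext <;> simp [hz']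
        rw [this, norm_real, Real.norm_eq_abs, abs_of_nonneg hzre]
      rw [n1, hz're, hz'im] at p1
      rw [n2, hz're, hz'im] at p2
      simp only [neg_re, neg_im, ofReal_re, ofReal_im, sub_self, mul_zero, zero_add, neg_zero,
        sub_zero] at p1
      have m1 : ((z.im : ℂ) * I).re = 0 := by simp
      have m2 : ((z.im : ℂ) * I).im = z.im := by simp
      rw [m1, m2] at p2
      rcases le_total z.re z.im with hle | hle
      · rw [min_eq_left hle]
        refine p2.trans ?_
        have : κ * (-z.re - 0) + t * (z.im - z.im) + K * z.re ≤ c * z.re := by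
          rw [hc]
          nlinarith
        gcongr
      · rw [min_eq_right hle]
        refine p1.trans ?_
        have : t * z.im + K * z.im ≤ c * z.im := by
          rw [hc]
          have := abs_nonneg κ
          nlinarith
        gcongr)
    have := key (((-s : ℝ) : ℂ) + y * I) (by simpa using hs0) (by simpa using hy0) (by
      refine le_trans (le_of_eq ?_) hnle
      rw [← Complex.norm_conj, ← norm_neg]
      congr 1
      apply Complex.ext <;> simp)
    rw [hψn] at this
    have e1 : -(conj ((((-s : ℝ) : ℂ)) + y * I)) = (s : ℂ) + y * I := by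
      apply Complex.ext <;> simp
    rw [e1] at this
    simpa [abs_of_nonpos hs0] using this

namespace Wt

variable {σ : ℝ} {w : ℂ → ℂ} {K : ℝ} (h : Wt σ w K)
include h

theorem spectrum_eq1 : spectrum ℂ h.D = spec1 w ∧ spectrum ℂ h.D = spec1C w := by
  have h1 : spectrum ℂ h.D ⊆ spec1 w := by
    rw [h.spectrum_eq.1]; exact specS_subset_spec1 w
  have h2 : spec1C w ⊆ spectrum ℂ h.D := by
    rw [h.spectrum_eq.2]; exact h.toCoreD.toCore.spec1C_subset
  have h3 := spec1_subset_spec1C w
  exact ⟨subset_antisymm h1 (h3.trans h2), subset_antisymm (h1.trans h3) h2⟩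

end Wt

end Pool.Agent.Helper63.Levin
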