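import Pool.Agent.Helper63.Levin.Tools

/-!
Phragmen-Lindelof principle in the closed upper half-plane.
-/

namespace Pool.Agent.Helper63.Levin

open Metric Set Complex Filter Topology Bornology

lemma pl_upper {F : ℂ → ℂ} {A B C : ℝ} (hd : ∀ z : ℂ, 0 ≤ z.im → DifferentiableAt ℂ F z)
    (hA : ∀ z : ℂ, 0 ≤ z.im → ‖F z‖ ≤ A * Real.exp (B * ‖z‖))
    (hre : ∀ x : ℝ, ‖F x‖ ≤ C) (him : ∃ C' : ℝ, ∀ y : ℝ, 0 ≤ y → ‖F (y * I)‖ ≤ C') :
    ∀ z : ℂ, 0 ≤ z.im → ‖F z‖ ≤ C := by
  intro z hz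
  have hG : ∀ w : ℂ, 0 ≤ w.re → DifferentiableAt ℂ (fun w => F (w * I)) w := by
    intro w hw
    have h1 : DifferentiableAt ℂ F (w * I) := hd _ (by simpa using hw)
    exact h1.comp w (differentiableAt_id.mul_const I)
  have key := PhragmenLindelof.right_half_plane_of_bounded_on_real (f := fun w => F (w * I))
    (C := C) (z := -I * z) ?_ ?_ ?_ ?_ (by simpa using hz)
  · have h1 : -I * z * I = z := by linear_combination (-z) * I_mul_I
    simp only [h1] at key
    exact key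
  · apply DifferentiableOn.diffContOnCl
    intro w hw
    rw [closure_setOfPred_lt_re] at hw
    exact (hG w hw).differentiableWithinAt
  · refine ⟨1, by norm_num, B, ?_⟩
    apply Asymptotics.IsBigO.of_bound A
    have : ∀ᶠ z in cobounded ℂ ⊓ 𝓟 {z : ℂ | 0 < z.re}, z ∈ {z : ℂ | 0 < z.re} :=
      mem_inf_of_right (mem_principal_self _)
    filter_upwards [this] with w hw
    have h1 := hA (w * I) (by simpa using (le_of_lt hw))
    simpa using h1
  · obtain ⟨C', hC'⟩ := him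
    refine ⟨C', ?_⟩
    simp only [eventually_map]
    filter_upwards [eventually_ge_atTop (0 : ℝ)] with x hx
    exact hC' x hx
  · intro x
    have h1 := hre (-x)
    have h2 : (x : ℂ) * I * I = ((-x : ℝ) : ℂ) := by
      rw [mul_assoc, I_mul_I]; simp
    simpa [h2] using h1

lemma pl_upper_exp {F : ℂ → ℂ} {A B B' C : ℝ}
    (hd : ∀ z : ℂ, 0 ≤ z.im → DifferentiableAt ℂ F z)
    (hA : ∀ z : ℂ, 0 ≤ z.im → ‖F z‖ ≤ A * Real.exp (B * ‖z‖))
    (hre : ∀ x : ℝ, ‖F x‖ ≤ C)
    (him : ∃ C' : ℝ, ∀ y : ℝ, 0 ≤ y → ‖F (y * I)‖ ≤ C' * Real.exp (B' * y)) :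
    ∀ z : ℂ, 0 ≤ z.im → ‖F z‖ ≤ C * Real.exp (B' * z.im) := by
  intro z hz
  have hA0 : 0 ≤ A := by
    have h1 := hA 0 (by simp)
    simp at h1
    exact (norm_nonneg _).trans h1
  have hnorm : ∀ w : ℂ, ‖Complex.exp (I * B' * w)‖ = Real.exp (-(B' * w.im)) := by
    intro w
    rw [Complex.norm_exp]
    congr 1
    simp [mul_assoc]
  have key := pl_upper (F := fun w => F w * Complex.exp (I * B' * w)) (A := A)
    (B := B + |B'|) (C := C) ?_ ?_ ?_ ?_ z hz
  · rw [norm_mul, hnorm] at key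
    have h1 : Real.exp (-(B' * z.im)) * Real.exp (B' * z.im) = 1 := by
      rw [← Real.exp_add]; simp
    calc ‖F z‖ = ‖F z‖ * Real.exp (-(B' * z.im)) * Real.exp (B' * z.im) := by
          rw [mul_assoc, h1, mul_one]
      _ ≤ C * Real.exp (B' * z.im) := by gcongr
  · intro w hw
    exact (hd w hw).mul (by fun_prop)
  · intro w hw
    rw [norm_mul, hnorm, add_mul, Real.exp_add, ← mul_assoc]
    apply mul_le_mul (hA w hw) _ (Real.exp_pos _).le (by positivity)
    apply Real.exp_le_exp.2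
    have h1 : |B' * w.im| ≤ |B'| * ‖w‖ := by
      rw [abs_mul]
      gcongr
      exact abs_im_le_norm w
    have h2 := neg_le_abs (B' * w.im)
    linarith
  · intro x
    rw [norm_mul, hnorm]
    simpa using hre x
  · obtain ⟨C', hC'⟩ := him
    refine ⟨C', ?_⟩
    intro y hy
    rw [norm_mul, hnorm]
    have h1 := hC' y hy
    have h2 : Real.exp (B' * y) * Real.exp (-(B' * y)) = 1 := by
      rw [← Real.exp_add]; simp
    have h3 : (((y : ℝ) : ℂ) * I).im = y := by simp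
    rw [h3]
    calc ‖F (y * I)‖ * Real.exp (-(B' * y))
        ≤ C' * Real.exp (B' * y) * Real.exp (-(B' * y)) := by gcongr
      _ = C' := by rw [mul_assoc, h2, mul_one]

end Pool.Agent.Helper63.Levin
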