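import Pool.Agent.Helper63.Levin.Kernel

/-!
Rectangle integrals of divided differences.
-/

namespace Pool.Agent.Helper63.Levin

open Metric Set Complex Filter Topology Bornology MeasureTheory
open scoped ComplexConjugate Interval

/-- The three far sides of a rectangle with one side `[a, b]` on the real axis. -/
noncomputable def sides (g : ℂ → ℂ) (a b x H : ℝ) : ℂ :=
  (∫ s in a..b, g ((s : ℂ) + H * I) / ((s : ℂ) + H * I - x)) -
    I * (∫ y in (0 : ℝ)..H, g ((b : ℂ) + y * I) / ((b : ℂ) + y * I - x)) +
    I * (∫ y in (0 : ℝ)..H, g ((a : ℂ) + y * I) / ((a : ℂ) + y * I - x))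

lemma rect_dslope {g : ℂ → ℂ} {S : Set ℂ} (hS : IsOpen S) (hg : DifferentiableOn ℂ g S)
    {a b x H : ℝ} (hax : a < x) (hxb : x < b) (hH : H ≠ 0)
    (hsub : ∀ u : ℂ, a ≤ u.re → u.re ≤ b → u.im ∈ uIcc 0 H → u ∈ S) :
    ∫ t in a..b, dslope g x t = sides g a b x H - g x * sides (fun _ => 1) a b x H := by
  have hab : a ≤ b := by linarith
  have hxS : (x : ℂ) ∈ S := hsub _ (by simpa using hax.le) (by simpa using hxb.le) (by simp)
  have hd : DifferentiableOn ℂ (dslope g x) S :=
    (differentiableOn_dslope (hS.mem_nhds hxS)).2 hg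
  have hrect : ([[(⟨a, 0⟩ : ℂ).re, (⟨b, H⟩ : ℂ).re]] ×ℂ [[(⟨a, 0⟩ : ℂ).im, (⟨b, H⟩ : ℂ).im]]) ⊆ S := by
    intro u hu
    rw [mem_reProdIm] at hu
    simp only [uIcc_of_le hab] at hu
    exact hsub u hu.1.1 hu.1.2 hu.2
  have key := Complex.integral_boundary_rect_eq_zero_of_differentiableOn (dslope g x)
    ⟨a, 0⟩ ⟨b, H⟩ (hd.mono hrect)
  simp only [smul_eq_mul] at key
  -- splitting on the sides
  have hcg : ∀ (p : ℝ → ℂ), Continuous p → (∀ r ∈ S, True) → ∀ c d : ℝ,
      (∀ t ∈ uIcc c d, p t ∈ S ∧ p t ≠ x) →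
      (∫ t in c..d, dslope g x (p t)) =
        (∫ t in c..d, g (p t) / (p t - x)) - g x * ∫ t in c..d, 1 / (p t - x) := by
    intro p hp _ c d hpS
    have e1 : ∀ t ∈ uIcc c d, dslope g x (p t) = g (p t) / (p t - x) - g x * (1 / (p t - x)) := by
      intro t ht
      rw [dslope_of_ne _ (hpS t ht).2, slope_def_field]
      ring
    rw [intervalIntegral.integral_congr e1, intervalIntegral.integral_sub,
      intervalIntegral.integral_const_mul]
    · apply ContinuousOn.intervalIntegrable
      apply ContinuousOn.div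
      · exact hg.continuousOn.comp hp.continuousOn (fun t ht => (hpS t ht).1)
      · fun_prop
      · intro t ht
        exact sub_ne_zero.2 (hpS t ht).2
    · apply ContinuousOn.intervalIntegrable
      apply ContinuousOn.mul continuousOn_const
      apply ContinuousOn.div continuousOn_const
      · fun_prop
      · intro t ht
        exact sub_ne_zero.2 (hpS t ht).2
  have htop := hcg (fun s : ℝ => (s : ℂ) + H * I) (by fun_prop) (fun _ _ => trivial) a b (by
    intro t ht
    rw [uIcc_of_le hab] at ht
    refine ⟨hsub _ (by simpa using ht.1) (by simpa using ht.2) (by simp), ?_⟩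
    intro h0
    have := congrArg Complex.im h0
    simp at this
    exact hH this)
  have hright := hcg (fun y : ℝ => (b : ℂ) + y * I) (by fun_prop) (fun _ _ => trivial) 0 H (by
    intro t ht
    refine ⟨hsub _ (by simpa using hab) (by simp) (by simpa using ht), ?_⟩
    intro h0
    have := congrArg Complex.re h0
    simp at this
    linarith)
  have hleft := hcg (fun y : ℝ => (a : ℂ) + y * I) (by fun_prop) (fun _ _ => trivial) 0 H (by
    intro t ht
    refine ⟨hsub _ (by simp) (by simpa using hab) (by simpa using ht), ?_⟩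
    intro h0
    have := congrArg Complex.re h0
    simp at this
    linarith)
  have hbot : (∫ t in a..b, dslope g x ((t : ℂ) + ((0 : ℝ) : ℂ) * I)) =
      ∫ t in a..b, dslope g x t := by
    apply intervalIntegral.integral_congr
    intro t _
    simp
  rw [hbot, htop, hright, hleft] at key
  unfold sides
  linear_combination key

lemma norm_sides_le {g : ℂ → ℂ} {a b x H M : ℝ} (hax : a < x) (hxb : x < b) (hH : H ≠ 0)
    (hM : ∀ u : ℂ, a ≤ u.re → u.re ≤ b → u.im ∈ uIcc 0 H →
      (u.im = H ∨ u.re = a ∨ u.re = b) → ‖g u‖ ≤ M) :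
    ‖sides g a b x H‖ ≤ M * ((b - a) / |H| + |H| / (b - x) + |H| / (x - a)) := by
  have hab : a ≤ b := by linarith
  have hM0 : 0 ≤ M := (norm_nonneg _).trans
    (hM ((a : ℂ) + H * I) (by simp) (by simpa using hab) (by simp) (Or.inl (by simp)))
  have hHpos : 0 < |H| := abs_pos.2 hH
  have e1 : ‖∫ s in a..b, g ((s : ℂ) + H * I) / ((s : ℂ) + H * I - x)‖ ≤ M / |H| * |b - a| := by
    apply intervalIntegral.norm_integral_le_of_norm_le_const
    intro s hs
    rw [uIoc_of_le hab] at hs
    rw [norm_div]
    have f1 := hM ((s : ℂ) + H * I) (by simpa using hs.1.le) (by simpa using hs.2) (by simp)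
      (Or.inl (by simp))
    have f2 : |H| ≤ ‖(s : ℂ) + H * I - x‖ := by
      have := abs_im_le_norm ((s : ℂ) + H * I - x)
      simpa using this
    gcongr
  have e2 : ‖∫ y in (0 : ℝ)..H, g ((b : ℂ) + y * I) / ((b : ℂ) + y * I - x)‖ ≤
      M / (b - x) * |H - 0| := by
    apply intervalIntegral.norm_integral_le_of_norm_le_const
    intro y hy
    rw [norm_div]
    have f1 := hM ((b : ℂ) + y * I) (by simpa using hab) (by simp)
      (by simpa using uIoc_subset_uIcc hy) (Or.inr (Or.inr (by simp)))
    have f2 : b - x ≤ ‖(b : ℂ) + y * I - x‖ := by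
      have := (le_abs_self _).trans (abs_re_le_norm ((b : ℂ) + y * I - x))
      simpa using this
    have : 0 < b - x := by linarith
    gcongr
  have e3 : ‖∫ y in (0 : ℝ)..H, g ((a : ℂ) + y * I) / ((a : ℂ) + y * I - x)‖ ≤
      M / (x - a) * |H - 0| := by
    apply intervalIntegral.norm_integral_le_of_norm_le_const
    intro y hy
    rw [norm_div]
    have f1 := hM ((a : ℂ) + y * I) (by simp) (by simpa using hab)
      (by simpa using uIoc_subset_uIcc hy) (Or.inr (Or.inl (by simp)))
    have f2 : x - a ≤ ‖(a : ℂ) + y * I - x‖ := by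
      have := (neg_le_abs _).trans (abs_re_le_norm ((a : ℂ) + y * I - x))
      simpa using this
    have : 0 < x - a := by linarith
    gcongr
  unfold sides
  refine (norm_add_le _ _).trans ?_
  rw [norm_mul, norm_I, one_mul]
  have e4 := norm_sub_le (∫ s in a..b, g ((s : ℂ) + H * I) / ((s : ℂ) + H * I - x))
    (I * ∫ y in (0 : ℝ)..H, g ((b : ℂ) + y * I) / ((b : ℂ) + y * I - x))
  rw [norm_mul, norm_I, one_mul] at e4
  rw [sub_zero] at e2 e3
  rw [abs_of_nonneg (by linarith : 0 ≤ b - a)] at e1
  have e5 : M * ((b - a) / |H| + |H| / (b - x) + |H| / (x - a)) =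
      M / |H| * (b - a) + M / (b - x) * |H| + M / (x - a) * |H| := by ring
  rw [e5]
  linarith

lemma log_rot {A H : ℝ} (hA : 0 < A) (_hH : 0 < H) :
    Complex.log ((H : ℂ) + A * I) = Complex.log ((A : ℂ) - H * I) + (Real.pi / 2 : ℝ) * I ∧
    Complex.log ((H : ℂ) - A * I) = Complex.log ((A : ℂ) + H * I) - (Real.pi / 2 : ℝ) * I := by
  have hpi := Real.pi_pos
  constructor
  · have e1 : (H : ℂ) + A * I = I * ((A : ℂ) - H * I) := by
      linear_combination (H : ℂ) * I_mul_I
    have h0 : (A : ℂ) - H * I ≠ 0 := by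
      intro h0
      have := congrArg Complex.re h0
      simp at this
      linarith
    have harg : |((A : ℂ) - H * I).arg| < Real.pi / 2 := by
      rw [Complex.abs_arg_lt_pi_div_two_iff]
      left
      simpa using hA
    rw [abs_lt] at harg
    have := (Complex.log_mul_eq_add_log_iff I_ne_zero h0).2 (by
      rw [Complex.arg_I]
      constructor <;> linarith [harg.1, harg.2])
    rw [e1, this, Complex.log_I]
    push_cast
    ring
  · have e1 : (H : ℂ) - A * I = -I * ((A : ℂ) + H * I) := by
      linear_combination (H : ℂ) * I_mul_I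
    have h0 : (A : ℂ) + H * I ≠ 0 := by
      intro h0
      have := congrArg Complex.re h0
      simp at this
      linarith
    have harg : |((A : ℂ) + H * I).arg| < Real.pi / 2 := by
      rw [Complex.abs_arg_lt_pi_div_two_iff]
      left
      simpa using hA
    rw [abs_lt] at harg
    have := (Complex.log_mul_eq_add_log_iff (neg_ne_zero.2 I_ne_zero) h0).2 (by
      rw [Complex.arg_neg_I]
      constructor <;> linarith [harg.1, harg.2])
    rw [e1, this, Complex.log_neg_I]
    push_cast
    ring

lemma sides_one_sub {a b x H : ℝ} (hax : a < x) (hxb : x < b) (hH : 0 < H) :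
    sides (fun _ => 1) a b x (-H) - sides (fun _ => 1) a b x H = 2 * Real.pi * I := by
  set A : ℝ := x - a with hA
  set B : ℝ := b - x with hB
  have hA0 : 0 < A := by rw [hA]; linarith
  have hB0 : 0 < B := by rw [hB]; linarith
  -- bottom
  have e1 : (∫ s in a..b, (1 : ℂ) / ((s : ℂ) + ((-H : ℝ) : ℂ) * I - x)) =
      Complex.log ((H : ℂ) + B * I) - Complex.log ((H : ℂ) - A * I) := by
    have hder : ∀ s ∈ uIcc a b, HasDerivAt (fun s : ℝ => Complex.log ((H : ℂ) + I * ((s : ℂ) - x)))
        (1 / ((s : ℂ) + ((-H : ℝ) : ℂ) * I - x)) s := by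
      intro s _
      have hre : 0 < ((H : ℂ) + I * ((s : ℂ) - x)).re := by simpa using hH
      have f1 : HasDerivAt (fun s : ℂ => (H : ℂ) + I * (s - x)) I (s : ℂ) := by
        have := (((hasDerivAt_id (s : ℂ)).sub_const (x : ℂ)).const_mul I).const_add (H : ℂ)
        simpa using this
      have f2 := (f1.clog (Or.inl hre)).comp_ofReal
      have hne : (H : ℂ) + I * ((s : ℂ) - x) ≠ 0 := by
        intro h0; rw [h0] at hre; simp at hre
      have hne2 : (s : ℂ) + ((-H : ℝ) : ℂ) * I - x ≠ 0 := by
        intro h0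
        have := congrArg Complex.im h0
        simp at this
        linarith
      have f3 : I / ((H : ℂ) + I * ((s : ℂ) - x)) = 1 / ((s : ℂ) + ((-H : ℝ) : ℂ) * I - x) := by
        rw [div_eq_div_iff hne hne2]
        push_cast
        linear_combination (-(H : ℂ)) * I_mul_I
      rw [← f3]
      exact f2
    rw [intervalIntegral.integral_eq_sub_of_hasDerivAt hder]
    · congr 2
      · rw [hB]; push_cast; ring
      · rw [hA]; push_cast; ring
    · apply ContinuousOn.intervalIntegrable
      apply ContinuousOn.div continuousOn_const (by fun_prop)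
      intro s _ h0
      have := congrArg Complex.im h0
      simp at this
      linarith
  -- top
  have e2 : (∫ s in a..b, (1 : ℂ) / ((s : ℂ) + (H : ℂ) * I - x)) =
      Complex.log ((H : ℂ) - B * I) - Complex.log ((H : ℂ) + A * I) := by
    have hder : ∀ s ∈ uIcc a b, HasDerivAt (fun s : ℝ => Complex.log ((H : ℂ) - I * ((s : ℂ) - x)))
        (1 / ((s : ℂ) + (H : ℂ) * I - x)) s := by
      intro s _
      have hre : 0 < ((H : ℂ) - I * ((s : ℂ) - x)).re := by simpa using hH
      have f1 : HasDerivAt (fun s : ℂ => (H : ℂ) - I * (s - x)) (-I) (s : ℂ) := by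
        have := (((hasDerivAt_id (s : ℂ)).sub_const (x : ℂ)).const_mul I).const_sub (H : ℂ)
        simpa using this
      have f2 := (f1.clog (Or.inl hre)).comp_ofReal
      have hne : (H : ℂ) - I * ((s : ℂ) - x) ≠ 0 := by
        intro h0; rw [h0] at hre; simp at hre
      have hne2 : (s : ℂ) + (H : ℂ) * I - x ≠ 0 := by
        intro h0
        have := congrArg Complex.im h0
        simp at this
        linarith
      have f3 : -I / ((H : ℂ) - I * ((s : ℂ) - x)) = 1 / ((s : ℂ) + (H : ℂ) * I - x) := by
        rw [div_eq_div_iff hne hne2]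
        linear_combination (-(H : ℂ)) * I_mul_I
      rw [← f3]
      exact f2
    rw [intervalIntegral.integral_eq_sub_of_hasDerivAt hder]
    · congr 2
      · rw [hB]; push_cast; ring
      · rw [hA]; push_cast; ring
    · apply ContinuousOn.intervalIntegrable
      apply ContinuousOn.div continuousOn_const (by fun_prop)
      intro s _ h0
      have := congrArg Complex.im h0
      simp at this
      linarith
  -- right
  have e3 : ∀ c : ℝ, (∫ y in (0 : ℝ)..c, (1 : ℂ) / ((b : ℂ) + y * I - x)) =
      -I * Complex.log ((B : ℂ) + c * I) + I * Complex.log B := by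
    intro c
    have hder : ∀ y ∈ uIcc 0 c, HasDerivAt (fun y : ℝ => -I * Complex.log ((B : ℂ) + (y : ℂ) * I))
        (1 / ((b : ℂ) + y * I - x)) y := by
      intro y _
      have hre : 0 < ((B : ℂ) + (y : ℂ) * I).re := by simpa using hB0
      have f1 : HasDerivAt (fun s : ℂ => (B : ℂ) + s * I) I (y : ℂ) := by
        have := ((hasDerivAt_id (y : ℂ)).mul_const I).const_add (B : ℂ)
        simpa using this
      have f2 := ((f1.clog (Or.inl hre)).const_mul (-I)).comp_ofReal
      have hne : (B : ℂ) + (y : ℂ) * I ≠ 0 := by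
        intro h0; rw [h0] at hre; simp at hre
      have hne2 : (b : ℂ) + y * I - x ≠ 0 := by
        have : (b : ℂ) + y * I - x = (B : ℂ) + (y : ℂ) * I := by rw [hB]; push_cast; ring
        rwa [this]
      have f3 : -I * (I / ((B : ℂ) + (y : ℂ) * I)) = 1 / ((b : ℂ) + y * I - x) := by
        rw [← mul_div_assoc, div_eq_div_iff hne hne2, hB]
        push_cast
        linear_combination (-((b : ℂ) + y * I - x)) * I_mul_I
      rw [← f3]
      exact f2
    rw [intervalIntegral.integral_eq_sub_of_hasDerivAt hder]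
    · simp
    · apply ContinuousOn.intervalIntegrable
      apply ContinuousOn.div continuousOn_const (by fun_prop)
      intro s _ h0
      have := congrArg Complex.re h0
      simp at this
      linarith
  -- left
  have e4 : ∀ c : ℝ, (∫ y in (0 : ℝ)..c, (1 : ℂ) / ((a : ℂ) + y * I - x)) =
      -I * Complex.log ((A : ℂ) - c * I) + I * Complex.log A := by
    intro c
    have hder : ∀ y ∈ uIcc 0 c, HasDerivAt (fun y : ℝ => -I * Complex.log ((A : ℂ) - (y : ℂ) * I))
        (1 / ((a : ℂ) + y * I - x)) y := by
      intro y _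
      have hre : 0 < ((A : ℂ) - (y : ℂ) * I).re := by simpa using hA0
      have f1 : HasDerivAt (fun s : ℂ => (A : ℂ) - s * I) (-I) (y : ℂ) := by
        have := ((hasDerivAt_id (y : ℂ)).mul_const I).const_sub (A : ℂ)
        simpa using this
      have f2 := ((f1.clog (Or.inl hre)).const_mul (-I)).comp_ofReal
      have hne : (A : ℂ) - (y : ℂ) * I ≠ 0 := by
        intro h0; rw [h0] at hre; simp at hre
      have hne2 : (a : ℂ) + y * I - x ≠ 0 := by
        have : (a : ℂ) + y * I - x = -((A : ℂ) - (y : ℂ) * I) := by rw [hA]; push_cast; ring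
        rw [this]
        exact neg_ne_zero.2 hne
      have f3 : -I * (-I / ((A : ℂ) - (y : ℂ) * I)) = 1 / ((a : ℂ) + y * I - x) := by
        rw [← mul_div_assoc, div_eq_div_iff hne hne2, hA]
        push_cast
        linear_combination ((a : ℂ) + y * I - x) * I_mul_I
      rw [← f3]
      exact f2
    rw [intervalIntegral.integral_eq_sub_of_hasDerivAt hder]
    · simp
    · apply ContinuousOn.intervalIntegrable
      apply ContinuousOn.div continuousOn_const (by fun_prop)
      intro s _ h0
      have := congrArg Complex.re h0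
      simp at this
      linarith
  unfold sides
  rw [e1, e2, e3, e3, e4, e4]
  obtain ⟨l1, l2⟩ := log_rot hB0 hH
  obtain ⟨l3, l4⟩ := log_rot hA0 hH
  rw [l1, l2, l3, l4]
  push_cast
  have hI : ∀ z : ℂ, I * (I * z) = -z := by
    intro z
    linear_combination z * I_mul_I
  simp only [mul_add, neg_mul, mul_neg, hI, sub_neg_eq_add, ← sub_eq_add_neg]
  ring

end Pool.Agent.Helper63.Levin
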