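import Pool.Agent.Helper63.Levin.Major

/-!
The weighted Banach space of entire functions and the differentiation operator.
-/

namespace Pool.Agent.Helper63.Levin

open Metric Set Complex Filter Topology Bornology
open scoped ComplexConjugate

lemma ExpTypeLE.add {t : ℝ} {f g : ℂ → ℂ} (hf : ExpTypeLE t f) (hg : ExpTypeLE t g) :
    ExpTypeLE t (f + g) := by
  intro e he
  obtain ⟨A, hA⟩ := hf e he
  obtain ⟨B, hB⟩ := hg e he
  refine ⟨A + B, fun z => ?_⟩
  refine (norm_add_le _ _).trans ?_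
  rw [add_mul]
  exact add_le_add (hA z) (hB z)

lemma ExpTypeLE.smul {t : ℝ} {f : ℂ → ℂ} (hf : ExpTypeLE t f) (c : ℂ) :
    ExpTypeLE t (c • f) := by
  intro e he
  obtain ⟨A, hA⟩ := hf e he
  refine ⟨‖c‖ * A, fun z => ?_⟩
  rw [Pi.smul_apply, norm_smul, mul_assoc]
  exact mul_le_mul_of_nonneg_left (hA z) (norm_nonneg _)

/-- All entire functions of exponential type at most `σ` which are bounded by a multiple of the
weight on the real line. -/
def ESub (σ : ℝ) (w : ℂ → ℂ) : Submodule ℂ (ℂ → ℂ) where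
  carrier := {f | Differentiable ℂ f ∧ ExpTypeLE σ f ∧ ∃ C : ℝ, ∀ x : ℝ, ‖f x‖ ≤ C * ‖w x‖}
  add_mem' := by
    rintro f g ⟨hf1, hf2, C1, hC1⟩ ⟨hg1, hg2, C2, hC2⟩
    refine ⟨hf1.add hg1, hf2.add hg2, C1 + C2, fun x => ?_⟩
    refine (norm_add_le _ _).trans ?_
    rw [add_mul]
    exact add_le_add (hC1 x) (hC2 x)
  zero_mem' := by
    refine ⟨differentiable_const 0, fun e he => ⟨0, fun z => by simp⟩, 0, fun x => by simp⟩
  smul_mem' := by
    rintro c f ⟨hf1, hf2, C1, hC1⟩
    refine ⟨hf1.const_smul c, hf2.smul c, ‖c‖ * C1, fun x => ?_⟩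
    rw [Pi.smul_apply, norm_smul, mul_assoc]
    exact mul_le_mul_of_nonneg_left (hC1 x) (norm_nonneg _)

/-- The space as a type of its own. -/
def ESpace (σ : ℝ) (w : ℂ → ℂ) : Type := ↥(ESub σ w)

namespace ESpace

variable {σ : ℝ} {w : ℂ → ℂ}

noncomputable instance : AddCommGroup (ESpace σ w) := inferInstanceAs (AddCommGroup (ESub σ w))
noncomputable instance : Module ℂ (ESpace σ w) := inferInstanceAs (Module ℂ (ESub σ w))
instance : CoeFun (ESpace σ w) (fun _ => ℂ → ℂ) := ⟨fun f => f.1⟩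

lemma ext' {f g : ESpace σ w} (h : ∀ z, f z = g z) : f = g := Subtype.ext (funext h)

@[simp] lemma add_apply (f g : ESpace σ w) (z : ℂ) : (f + g) z = f z + g z := rfl
@[simp] lemma sub_apply (f g : ESpace σ w) (z : ℂ) : (f - g) z = f z - g z := rfl
@[simp] lemma neg_apply (f : ESpace σ w) (z : ℂ) : (-f) z = -f z := rfl
@[simp] lemma smul_apply (c : ℂ) (f : ESpace σ w) (z : ℂ) : (c • f) z = c * f z := rfl
@[simp] lemma zero_apply (z : ℂ) : (0 : ESpace σ w) z = 0 := rfl

lemma diff (f : ESpace σ w) : Differentiable ℂ f := f.2.1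
lemma type (f : ESpace σ w) : ExpTypeLE σ f := f.2.2.1
lemma bd (f : ESpace σ w) : ∃ C : ℝ, ∀ x : ℝ, ‖f x‖ ≤ C * ‖w x‖ := f.2.2.2

/-- The norm `sup |f / w|` over the real line. -/
noncomputable instance : Norm (ESpace σ w) := ⟨fun f => ⨆ x : ℝ, ‖f x / w x‖⟩

lemma norm_def (f : ESpace σ w) : ‖f‖ = ⨆ x : ℝ, ‖f x / w x‖ := rfl

lemma ratio_le {f : ESpace σ w} {C : ℝ} (hC : 0 ≤ C) {x : ℝ} (h : ‖f x‖ ≤ C * ‖w x‖) :
    ‖f x / w x‖ ≤ C := by
  rw [norm_div]
  exact div_le_of_le_mul₀ (norm_nonneg _) hC h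

lemma bdd (f : ESpace σ w) : BddAbove (range fun x : ℝ => ‖f x / w x‖) := by
  obtain ⟨C, hC⟩ := f.bd
  refine ⟨|C|, ?_⟩
  rintro _ ⟨x, rfl⟩
  apply ratio_le (abs_nonneg _)
  exact (hC x).trans (mul_le_mul_of_nonneg_right (le_abs_self _) (norm_nonneg _))

lemma le_norm (f : ESpace σ w) (x : ℝ) : ‖f x‖ ≤ ‖f‖ * ‖w x‖ := by
  have h1 : ‖f x / w x‖ ≤ ‖f‖ := le_ciSup f.bdd x
  by_cases hw : w x = 0
  · obtain ⟨C, hC⟩ := f.bd
    have := hC x
    rw [hw, norm_zero, mul_zero] at this
    rw [hw, norm_zero, mul_zero]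
    exact this
  · rw [norm_div, div_le_iff₀ (norm_pos_iff.2 hw)] at h1
    exact h1

lemma norm_nonneg' (f : ESpace σ w) : 0 ≤ ‖f‖ :=
  (norm_nonneg _).trans (le_ciSup f.bdd 0)

lemma norm_le_of {f : ESpace σ w} {C : ℝ} (hC : 0 ≤ C) (h : ∀ x : ℝ, ‖f x‖ ≤ C * ‖w x‖) :
    ‖f‖ ≤ C := ciSup_le fun x => ratio_le hC (h x)

lemma core : NormedSpace.Core ℂ (ESpace σ w) where
  norm_nonneg := norm_nonneg'
  norm_smul := by
    intro c f
    have hle : ∀ (c : ℂ) (f : ESpace σ w), ‖c • f‖ ≤ ‖c‖ * ‖f‖ := by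
      intro c f
      apply norm_le_of (mul_nonneg (norm_nonneg _) f.norm_nonneg')
      intro x
      rw [smul_apply, norm_mul, mul_assoc]
      exact mul_le_mul_of_nonneg_left (f.le_norm x) (norm_nonneg _)
    apply le_antisymm (hle c f)
    by_cases hc : c = 0
    · rw [hc, norm_zero, zero_mul]
      exact norm_nonneg' _
    · have h1 := hle c⁻¹ (c • f)
      rw [smul_smul, inv_mul_cancel₀ hc, one_smul, norm_inv] at h1
      have h2 := norm_pos_iff.2 hc
      rw [inv_mul_eq_div, le_div_iff₀ h2] at h1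
      linarith
  norm_triangle := by
    intro f g
    apply norm_le_of (add_nonneg f.norm_nonneg' g.norm_nonneg')
    intro x
    rw [add_apply, add_mul]
    exact (norm_add_le _ _).trans (add_le_add (f.le_norm x) (g.le_norm x))
  norm_eq_zero_iff := by
    intro f
    constructor
    · intro h
      apply ext'
      intro z
      rw [zero_apply]
      apply eq_zero_of_real f.diff
      intro x
      have := f.le_norm x
      rw [h, zero_mul] at this
      exact norm_le_zero_iff.1 this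
    · rintro rfl
      apply le_antisymm _ (norm_nonneg' _)
      apply norm_le_of le_rfl
      intro x
      simp

noncomputable instance : NormedAddCommGroup (ESpace σ w) := NormedAddCommGroup.ofCore core
noncomputable instance : NormedSpace ℂ (ESpace σ w) := NormedSpace.ofCore core

/-- Build an element of the space. -/
def mk' (f : ℂ → ℂ) (h1 : Differentiable ℂ f) (h2 : ExpTypeLE σ f) {C : ℝ}
    (h3 : ∀ x : ℝ, ‖f x‖ ≤ C * ‖w x‖) : ESpace σ w := ⟨f, h1, h2, C, h3⟩

@[simp] lemma mk'_apply (f : ℂ → ℂ) (h1 : Differentiable ℂ f) (h2 : ExpTypeLE σ f) {C : ℝ}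
    (h3 : ∀ x : ℝ, ‖f x‖ ≤ C * ‖w x‖) (z : ℂ) : (mk' f h1 h2 h3 : ESpace σ w) z = f z := rfl

end ESpace

/-- The data of the problem: a core weight whose exponential type is exactly `σ`. -/
structure Wt (σ : ℝ) (w : ℂ → ℂ) (K : ℝ) : Prop extends CoreD w K where
  pos : 0 ≤ σ
  typ : ExpTypeLE σ w
  least : ∀ t, ExpTypeLE t w → σ ≤ t

namespace Wt

variable {σ : ℝ} {w : ℂ → ℂ} {K : ℝ} (h : Wt σ w K)
include h

lemma app_le (f : ESpace σ w) (z : ℂ) : ‖f z‖ ≤ ‖f‖ * ‖w (fold z)‖ :=
  h.major h.pos h.least f.diff f.type (norm_nonneg f) f.le_norm z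

lemma type_of_le {f : ℂ → ℂ} {C : ℝ} (hC : 0 ≤ C) (hf : ∀ z, ‖f z‖ ≤ C * ‖w (fold z)‖) :
    ExpTypeLE σ f := by
  intro e he
  obtain ⟨A, hA⟩ := h.typ e he
  refine ⟨C * A, fun z => (hf z).trans ?_⟩
  rw [mul_assoc]
  have := hA (fold z)
  rw [norm_fold] at this
  exact mul_le_mul_of_nonneg_left this hC

lemma complete : CompleteSpace (ESpace σ w) := by
  apply Metric.complete_of_cauchySeq_tendsto
  intro u hu
  -- pointwise limits
  have hpt : ∀ z : ℂ, ∃ g : ℂ, Tendsto (fun n => u n z) atTop (𝓝 g) := by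
    intro z
    apply cauchySeq_tendsto_of_complete
    rw [Metric.cauchySeq_iff] at hu ⊢
    intro e he
    have hpos := h.fold_pos z
    obtain ⟨N, hN⟩ := hu (e / ‖w (fold z)‖) (by positivity)
    refine ⟨N, fun m hm n hn => ?_⟩
    have h1 := hN m hm n hn
    rw [dist_eq_norm] at h1 ⊢
    have h2 := h.app_le (u m - u n) z
    rw [ESpace.sub_apply] at h2
    calc ‖u m z - u n z‖ ≤ ‖u m - u n‖ * ‖w (fold z)‖ := h2
      _ < e / ‖w (fold z)‖ * ‖w (fold z)‖ := by gcongr
      _ = e := by field_simp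
  choose g hg using hpt
  have hunif : ∀ e : ℝ, 0 < e → ∃ N, ∀ n ≥ N, ∀ z, ‖g z - u n z‖ ≤ e * ‖w (fold z)‖ := by
    intro e he
    rw [Metric.cauchySeq_iff] at hu
    obtain ⟨N, hN⟩ := hu e he
    refine ⟨N, fun n hn z => ?_⟩
    have ht : Tendsto (fun m => ‖u m z - u n z‖) atTop (𝓝 ‖g z - u n z‖) :=
      ((hg z).sub tendsto_const_nhds).norm
    apply le_of_tendsto ht
    filter_upwards [eventually_ge_atTop N] with m hm
    have h1 := hN m hm n hn
    rw [dist_eq_norm] at h1
    have h2 := h.app_le (u m - u n) z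
    rw [ESpace.sub_apply] at h2
    exact h2.trans (mul_le_mul_of_nonneg_right h1.le (norm_nonneg _))
  have hgd : Differentiable ℂ g := by
    have hloc : TendstoLocallyUniformlyOn (fun n => (u n : ℂ → ℂ)) g atTop univ := by
      rw [Metric.tendstoLocallyUniformlyOn_iff]
      intro e he z0 _
      refine ⟨ball z0 1, mem_nhdsWithin_of_mem_nhds (ball_mem_nhds _ one_pos), ?_⟩
      have hpos := h.fold_pos z0
      obtain ⟨N, hN⟩ := hunif (e / (2 * Real.exp K * ‖w (fold z0)‖)) (by positivity)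
      filter_upwards [eventually_ge_atTop N] with n hn z hz
      rw [dist_eq_norm]
      have h1 := hN n hn z
      have h2 := h.lip_fold z0 z
      have h3 : Real.exp (K * ‖z - z0‖) ≤ Real.exp K := by
        apply Real.exp_le_exp.2
        have : ‖z - z0‖ < 1 := by rwa [mem_ball, dist_eq_norm] at hz
        have hK := h.K_nonneg
        nlinarith
      calc ‖g z - u n z‖ ≤ e / (2 * Real.exp K * ‖w (fold z0)‖) * ‖w (fold z)‖ := h1
        _ ≤ e / (2 * Real.exp K * ‖w (fold z0)‖) * (Real.exp K * ‖w (fold z0)‖) := by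
          gcongr
          exact h2.trans (mul_le_mul_of_nonneg_right h3 (norm_nonneg _))
        _ = e / 2 := by field_simp
        _ < e := by linarith
    have := hloc.differentiableOn (Eventually.of_forall fun n => (u n).diff.differentiableOn)
      isOpen_univ
    exact differentiableOn_univ.1 this
  obtain ⟨N1, hN1⟩ := hunif 1 one_pos
  have hgb : ∀ z, ‖g z‖ ≤ (1 + ‖u N1‖) * ‖w (fold z)‖ := by
    intro z
    have h1 := hN1 N1 le_rfl z
    have h2 := h.app_le (u N1) z
    calc ‖g z‖ = ‖(g z - u N1 z) + u N1 z‖ := by ring_nf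
      _ ≤ ‖g z - u N1 z‖ + ‖u N1 z‖ := norm_add_le _ _
      _ ≤ (1 + ‖u N1‖) * ‖w (fold z)‖ := by rw [add_mul]; exact add_le_add h1 h2
  refine ⟨ESpace.mk' g hgd (h.type_of_le (by positivity) hgb) (C := 1 + ‖u N1‖) (fun x => by
    have := hgb x
    rwa [fold_real] at this), ?_⟩
  rw [Metric.tendsto_atTop]
  intro e he
  obtain ⟨N, hN⟩ := hunif (e / 2) (by positivity)
  refine ⟨N, fun n hn => ?_⟩
  rw [dist_eq_norm]
  apply lt_of_le_of_lt _ (half_lt_self he)
  apply ESpace.norm_le_of (by positivity)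
  intro x
  rw [ESpace.sub_apply, ESpace.mk'_apply, norm_sub_rev]
  have := hN n hn x
  rwa [fold_real] at this

lemma deriv_le (f : ESpace σ w) (z : ℂ) :
    ‖deriv f z‖ ≤ Real.exp K * ‖f‖ * ‖w (fold z)‖ := by
  have key := norm_deriv_le_of_forall_mem_sphere_norm_le (c := z) (R := 1)
    (C := Real.exp K * ‖f‖ * ‖w (fold z)‖) (f := f) one_pos f.diff.diffContOnCl ?_
  · simpa using key
  · intro u hu
    refine (h.app_le f u).trans ?_
    have h2 := h.lip_fold z u
    rw [mem_sphere, dist_eq_norm] at hu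
    rw [hu, mul_one] at h2
    calc ‖f‖ * ‖w (fold u)‖ ≤ ‖f‖ * (Real.exp K * ‖w (fold z)‖) := by gcongr
      _ = _ := by ring

/-- The differentiation operator. -/
noncomputable def D : ESpace σ w →L[ℂ] ESpace σ w :=
  LinearMap.mkContinuous
    { toFun := fun f => ESpace.mk' (deriv f) (by
          have := f.diff.contDiff (n := 2)
          exact this.differentiable_deriv_two)
        (h.type_of_le (C := Real.exp K * ‖f‖) (by positivity) (fun z => h.deriv_le f z))
        (C := Real.exp K * ‖f‖) (fun x => by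
          have := h.deriv_le f x
          rwa [fold_real] at this)
      map_add' := by
        intro f g
        apply ESpace.ext'
        intro z
        simp only [ESpace.mk'_apply, ESpace.add_apply]
        have : (fun z => f z + g z) = ((f + g : ESpace σ w) : ℂ → ℂ) := rfl
        rw [← this]
        exact deriv_add (f.diff z) (g.diff z)
      map_smul' := by
        intro c f
        apply ESpace.ext'
        intro z
        simp only [ESpace.mk'_apply, ESpace.smul_apply, RingHom.id_apply]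
        have : (fun z => c * f z) = ((c • f : ESpace σ w) : ℂ → ℂ) := rfl
        rw [← this]
        exact deriv_const_mul c (f.diff z) }
    (Real.exp K) (by
      intro f
      apply ESpace.norm_le_of (by positivity)
      intro x
      have := h.deriv_le f x
      rwa [fold_real] at this)

lemma D_apply (f : ESpace σ w) (z : ℂ) : h.D f z = deriv f z := rfl

end Wt

end Pool.Agent.Helper63.Levin
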