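import Pool.Agent.Helper63.Levin.Space

/-!
Approximate eigenvectors and the upper bound for the spectrum.
-/

namespace Pool.Agent.Helper63.Levin

open Metric Set Complex Filter Topology Bornology
open scoped ComplexConjugate

section Banach

variable {X : Type*} [NormedAddCommGroup X] [NormedSpace ℂ X]

/-- A spectral value which is a limit of resolvent values is an approximate eigenvalue. -/
lemma approx_of_limit [CompleteSpace X] (T : X →L[ℂ] X) {l : ℂ} (hl : l ∈ spectrum ℂ T)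
    (hacc : ∀ e : ℝ, 0 < e → ∃ m : ℂ, m ∉ spectrum ℂ T ∧ ‖m - l‖ < e) {e : ℝ} (he : 0 < e) :
    ∃ f : X, ‖f‖ = 1 ∧ ‖T f - l • f‖ < e := by
  by_contra hcon
  push Not at hcon
  have hlow : ∀ f : X, e * ‖f‖ ≤ ‖T f - l • f‖ := by
    intro f
    by_cases hf : f = 0
    · simp [hf]
    · have hfn : ‖f‖ ≠ 0 := norm_ne_zero_iff.2 hf
      have hfc : ((‖f‖ : ℝ) : ℂ) ≠ 0 := by exact_mod_cast hfn
      have h1 := hcon (((‖f‖ : ℝ) : ℂ)⁻¹ • f) (by
        rw [norm_smul, norm_inv, norm_real, norm_norm, inv_mul_cancel₀ hfn])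
      have h2 : T (((‖f‖ : ℝ) : ℂ)⁻¹ • f) - l • (((‖f‖ : ℝ) : ℂ)⁻¹ • f) =
          ((‖f‖ : ℝ) : ℂ)⁻¹ • (T f - l • f) := by
        rw [map_smul, smul_sub, smul_comm l]
      rw [h2, norm_smul, norm_inv, norm_real, norm_norm, inv_mul_eq_div,
        le_div_iff₀ (by positivity)] at h1
      exact h1
  obtain ⟨m, hm, hml⟩ := hacc (e / 2) (by positivity)
  rw [spectrum.notMem_iff] at hm
  obtain ⟨u, hu⟩ := hm
  -- the inverse has small norm
  have hinv : ∀ g : X, ‖(↑u⁻¹ : X →L[ℂ] X) g‖ ≤ 2 / e * ‖g‖ := by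
    intro g
    set f := (↑u⁻¹ : X →L[ℂ] X) g with hf
    have h1 : (u : X →L[ℂ] X) f = g := by
      rw [hf, ← mul_apply_eq_comp, Units.mul_inv]
      simp
    rw [hu] at h1
    have h2 : g = m • f - T f := by
      rw [← h1]
      simp [Algebra.algebraMap_eq_smul_one]
    have h3 := hlow f
    have h4 : ‖T f - l • f‖ ≤ ‖g‖ + ‖m - l‖ * ‖f‖ := by
      have : T f - l • f = -g + (m - l) • f := by
        rw [h2, sub_smul]; abel
      rw [this]
      refine (norm_add_le _ _).trans ?_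
      rw [norm_neg, norm_smul]
    have h5 : ‖m - l‖ * ‖f‖ ≤ e / 2 * ‖f‖ := mul_le_mul_of_nonneg_right hml.le (norm_nonneg _)
    rw [div_mul_eq_mul_div, le_div_iff₀ he]
    linarith
  have hinvn : ‖(↑u⁻¹ : X →L[ℂ] X)‖ ≤ 2 / e :=
    ContinuousLinearMap.opNorm_le_bound _ (by positivity) hinv
  -- factorisation
  have hfac : algebraMap ℂ (X →L[ℂ] X) l - T =
      (u : X →L[ℂ] X) * (1 - (m - l) • (↑u⁻¹ : X →L[ℂ] X)) := by
    rw [mul_sub, mul_one, mul_smul_comm, Units.mul_inv, hu]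
    rw [Algebra.algebraMap_eq_smul_one, Algebra.algebraMap_eq_smul_one, sub_smul]
    abel
  have hunit : IsUnit (algebraMap ℂ (X →L[ℂ] X) l - T) := by
   rw [hfac]
   apply IsUnit.mul u.isUnit
   apply isUnit_one_sub_of_norm_lt_one
   rw [norm_smul]
   calc ‖m - l‖ * ‖(↑u⁻¹ : X →L[ℂ] X)‖ ≤ ‖m - l‖ * (2 / e) := by gcongr
    _ < e / 2 * (2 / e) := by gcongr
    _ = 1 := by field_simp
  exact hl hunit

/-- Approximate eigenvalues are in the spectrum. -/
lemma mem_of_approx (T : X →L[ℂ] X) {l : ℂ}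
    (h : ∀ e : ℝ, 0 < e → ∃ f : X, 1 ≤ ‖f‖ ∧ ‖T f - l • f‖ ≤ e) : l ∈ spectrum ℂ T := by
  intro hu
  obtain ⟨u, hu⟩ := hu
  set N := ‖(↑u⁻¹ : X →L[ℂ] X)‖ with hN
  obtain ⟨f, hf1, hf2⟩ := h (1 / (2 * (N + 1))) (by positivity)
  have h1 : (↑u⁻¹ : X →L[ℂ] X) ((u : X →L[ℂ] X) f) = f := by
    rw [← mul_apply_eq_comp, Units.inv_mul]
    simp
  have h2 : (u : X →L[ℂ] X) f = -(T f - l • f) := by
    rw [hu]
    simp [Algebra.algebraMap_eq_smul_one]
  have h3 : ‖f‖ ≤ N * ‖T f - l • f‖ := by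
    calc ‖f‖ = ‖(↑u⁻¹ : X →L[ℂ] X) ((u : X →L[ℂ] X) f)‖ := by rw [h1]
      _ ≤ N * ‖(u : X →L[ℂ] X) f‖ := ContinuousLinearMap.le_opNorm _ _
      _ = N * ‖T f - l • f‖ := by rw [h2, norm_neg]
  have h4 : N * ‖T f - l • f‖ ≤ N * (1 / (2 * (N + 1))) := by gcongr
  have h5 : N * (1 / (2 * (N + 1))) < 1 := by
    rw [mul_one_div, div_lt_one (by positivity)]
    have : 0 ≤ N := norm_nonneg _
    linarith
  linarith

end Banach

/-- The candidate for the spectrum: exponentials which are dominated, up to a factor `1 + ε` and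
on arbitrarily large boxes, by a normalised translate of the weight. -/
def specS (w : ℂ → ℂ) : Set ℂ :=
  {l | ∀ R : ℝ, 0 < R → ∀ e : ℝ, 0 < e → ∃ x : ℝ, ∀ s y : ℝ, |s| ≤ R → 0 ≤ y → y ≤ R →
    Real.exp (l.re * s + |l.im| * y) * ‖w x‖ ≤ (1 + e) * ‖w (x + s + y * I)‖}

/-- The same with a fixed constant. -/
def specC (w : ℂ → ℂ) : Set ℂ :=
  {l | ∃ C : ℝ, ∀ R : ℝ, 0 < R → ∃ x : ℝ, ∀ s y : ℝ, |s| ≤ R → 0 ≤ y → y ≤ R →
    Real.exp (l.re * s + |l.im| * y) * ‖w x‖ ≤ C * ‖w (x + s + y * I)‖}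

lemma specS_subset_specC (w : ℂ → ℂ) : specS w ⊆ specC w := by
  intro l hl
  refine ⟨2, fun R hR => ?_⟩
  obtain ⟨x, hx⟩ := hl R hR 1 one_pos
  refine ⟨x, fun s y h1 h2 h3 => ?_⟩
  have := hx s y h1 h2 h3
  linarith

namespace Wt

variable {σ : ℝ} {w : ℂ → ℂ} {K : ℝ} (h : Wt σ w K)
include h

/-- Local shape of an approximate eigenvector. -/
lemma local_shape {f : ESpace σ w} {l : ℂ} {δ : ℝ} (hδ : ‖h.D f - l • f‖ ≤ δ) (x : ℝ) {ρ : ℝ}
    (hρ : 0 ≤ ρ) {z : ℂ} (hz : ‖z‖ ≤ ρ) :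
    ‖Complex.exp (l * z)‖ * (‖f x‖ - δ * ρ * Real.exp ((‖l‖ + K) * ρ) * ‖w x‖) ≤ ‖f (x + z)‖ := by
  have hK0 := h.K_nonneg
  have hδ0 : 0 ≤ δ := (norm_nonneg _).trans hδ
  set H : ℂ → ℂ := fun u => Complex.exp (-l * u) * f (x + u) with hH
  have hder : ∀ u : ℂ, HasDerivAt H (Complex.exp (-l * u) * (h.D f - l • f : ESpace σ w) (x + u)) u := by
    intro u
    have e1 : HasDerivAt (fun u : ℂ => Complex.exp (-l * u)) (Complex.exp (-l * u) * (-l)) u := by
      have := ((hasDerivAt_id u).const_mul (-l)).cexp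
      simpa using this
    have e2 : HasDerivAt (fun u : ℂ => f (x + u)) (deriv f (x + u)) u :=
      (f.diff (x + u)).hasDerivAt.comp_const_add (x : ℂ) u
    have e3 := e1.mul e2
    have e4 : (h.D f - l • f : ESpace σ w) (x + u) = deriv f (x + u) - l * f (x + u) := by
      rw [ESpace.sub_apply, ESpace.smul_apply, D_apply]
    have e5 : Complex.exp (-l * u) * -l * f (x + u) + Complex.exp (-l * u) * deriv f (x + u) =
        Complex.exp (-l * u) * (deriv f (x + u) - l * f (x + u)) := by ring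
    rw [e4, ← e5]
    exact e3
  have hbound : ∀ u ∈ closedBall (0 : ℂ) ρ,
      ‖deriv H u‖ ≤ δ * Real.exp ((‖l‖ + K) * ρ) * ‖w x‖ := by
    intro u hu
    have hu' : ‖u‖ ≤ ρ := by simpa using hu
    rw [(hder u).deriv, norm_mul]
    have e1 : ‖Complex.exp (-l * u)‖ ≤ Real.exp (‖l‖ * ρ) := by
      rw [Complex.norm_exp]
      apply Real.exp_le_exp.2
      calc (-l * u).re ≤ ‖-l * u‖ := re_le_norm _
        _ = ‖l‖ * ‖u‖ := by rw [norm_mul, norm_neg]
        _ ≤ ‖l‖ * ρ := by gcongr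
    have e2 : ‖(h.D f - l • f : ESpace σ w) (x + u)‖ ≤ δ * (Real.exp (K * ρ) * ‖w x‖) := by
      refine (h.app_le _ _).trans ?_
      have e3 := h.lip_fold x (x + u)
      rw [fold_real, add_sub_cancel_left] at e3
      have e4 : Real.exp (K * ‖u‖) ≤ Real.exp (K * ρ) := by
        apply Real.exp_le_exp.2
        gcongr
      apply mul_le_mul hδ _ (norm_nonneg _) hδ0
      exact e3.trans (mul_le_mul_of_nonneg_right e4 (norm_nonneg _))
    calc ‖Complex.exp (-l * u)‖ * ‖(h.D f - l • f : ESpace σ w) (x + u)‖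
        ≤ Real.exp (‖l‖ * ρ) * (δ * (Real.exp (K * ρ) * ‖w x‖)) := by gcongr
      _ = _ := by rw [add_mul, Real.exp_add]; ring
  have hmv := (convex_closedBall (0 : ℂ) ρ).norm_image_sub_le_of_norm_deriv_le (f := H)
    (fun u _ => (hder u).differentiableAt) hbound (by simpa using hρ : (0 : ℂ) ∈ closedBall 0 ρ)
    (by simpa using hz : z ∈ closedBall 0 ρ)
  have hH0 : H 0 = f x := by simp [hH]
  rw [hH0, sub_zero] at hmv
  have e5 : ‖f x‖ - δ * ρ * Real.exp ((‖l‖ + K) * ρ) * ‖w x‖ ≤ ‖H z‖ := by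
    have e6 : ‖f x‖ ≤ ‖H z‖ + ‖H z - f x‖ := by
      calc ‖f x‖ = ‖H z - (H z - f x)‖ := by ring_nf
        _ ≤ _ := norm_sub_le _ _
    have e7 : δ * Real.exp ((‖l‖ + K) * ρ) * ‖w x‖ * ‖z‖ ≤
        δ * Real.exp ((‖l‖ + K) * ρ) * ‖w x‖ * ρ := by gcongr
    linarith
  have e8 : ‖f (x + z)‖ = ‖Complex.exp (l * z)‖ * ‖H z‖ := by
    rw [hH]
    simp only
    rw [← norm_mul, ← mul_assoc, ← Complex.exp_add]
    simp
  rw [e8]
  gcongr

/-- Approximate eigenvalues satisfy the domination condition. -/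
lemma mem_specS_of_approx {l : ℂ}
    (hl : ∀ e : ℝ, 0 < e → ∃ f : ESpace σ w, ‖f‖ = 1 ∧ ‖h.D f - l • f‖ < e) : l ∈ specS w := by
  intro R hR e he
  have hK0 := h.K_nonneg
  set ρ := 2 * R with hρ
  set E0 := ρ * Real.exp ((‖l‖ + K) * ρ) with hE0
  have hE0nn : 0 ≤ E0 := by positivity
  set δ := e / ((1 + e) * (1 + E0)) with hδ
  have hδ0 : 0 < δ := by positivity
  obtain ⟨f, hf1, hf2⟩ := hl δ hδ0
  -- a point where the norm is almost attained
  have hδ1 : δ < 1 := by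
    rw [hδ, div_lt_one (by positivity)]
    nlinarith
  obtain ⟨x, hx⟩ : ∃ x : ℝ, (1 - δ) * ‖w x‖ ≤ ‖f x‖ := by
    by_contra hcon
    push Not at hcon
    have : ‖f‖ ≤ 1 - δ := ESpace.norm_le_of (by linarith) (fun x => (hcon x).le)
    rw [hf1] at this
    linarith
  refine ⟨x, fun s y hs hy0 hyR => ?_⟩
  have hwx : 0 < ‖w x‖ := h.norm_pos (by simp)
  -- choose the sign
  obtain ⟨z, hz1, hz2, hz3⟩ : ∃ z : ℂ, ‖z‖ ≤ ρ ∧ fold (x + z) = x + s + y * I ∧
      ‖Complex.exp (l * z)‖ = Real.exp (l.re * s + |l.im| * y) := by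
    have hn : ∀ y' : ℝ, |y'| = y → ‖(s : ℂ) + y' * I‖ ≤ ρ := by
      intro y' hy'
      refine (norm_add_le _ _).trans ?_
      rw [norm_mul, norm_real, norm_real, norm_I, mul_one, Real.norm_eq_abs, Real.norm_eq_abs, hy']
      linarith
    rcases le_total 0 l.im with him | him
    · refine ⟨s + ((-y : ℝ) : ℂ) * I, hn _ (by rw [abs_neg, abs_of_nonneg hy0]), ?_, ?_⟩
      · rw [fold_of_nonpos (by simp; exact hy0)]
        apply Complex.ext <;> simp
      · rw [Complex.norm_exp, abs_of_nonneg him]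
        congr 1
        simp
    · refine ⟨s + (y : ℂ) * I, hn _ (abs_of_nonneg hy0), ?_, ?_⟩
      · rw [fold_of_nonneg (by simp; exact hy0)]
        ring
      · rw [Complex.norm_exp, abs_of_nonpos him]
        congr 1
        simp
        ring
  have key := h.local_shape (l := l) hf2.le x (by positivity : 0 ≤ ρ) hz1
  have h1 := h.app_le f (x + z)
  rw [hf1, one_mul, hz2] at h1
  rw [hz3] at key
  have h2 : (1 - δ - δ * E0) * ‖w x‖ ≤ ‖f x‖ - δ * ρ * Real.exp ((‖l‖ + K) * ρ) * ‖w x‖ := by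
    rw [hE0]
    nlinarith
  have h3 : 1 ≤ (1 + e) * (1 - δ - δ * E0) := by
    have : δ * (1 + E0) = e / (1 + e) := by
      rw [hδ]; field_simp
    have h4 : 1 - δ - δ * E0 = 1 - e / (1 + e) := by linarith
    rw [h4]
    have : (1 + e) * (1 - e / (1 + e)) = 1 := by field_simp; ring
    linarith
  have h5 : Real.exp (l.re * s + |l.im| * y) * ((1 - δ - δ * E0) * ‖w x‖) ≤
      ‖w (x + s + y * I)‖ := by
    calc _ ≤ Real.exp (l.re * s + |l.im| * y) *
        (‖f x‖ - δ * ρ * Real.exp ((‖l‖ + K) * ρ) * ‖w x‖) := by gcongr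
      _ ≤ ‖f (x + z)‖ := key
      _ ≤ _ := h1
  calc Real.exp (l.re * s + |l.im| * y) * ‖w x‖
      = 1 * (Real.exp (l.re * s + |l.im| * y) * ‖w x‖) := by ring
    _ ≤ (1 + e) * (1 - δ - δ * E0) * (Real.exp (l.re * s + |l.im| * y) * ‖w x‖) := by gcongr
    _ = (1 + e) * (Real.exp (l.re * s + |l.im| * y) * ((1 - δ - δ * E0) * ‖w x‖)) := by ring
    _ ≤ (1 + e) * ‖w (x + s + y * I)‖ := by gcongr

/-- The spectrum is contained in the candidate. -/
lemma spectrum_subset : spectrum ℂ h.D ⊆ specS w := by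
  have := h.complete
  intro l hl
  -- an extreme point on the vertical line through `l`
  set S := spectrum ℂ h.D ∩ {m : ℂ | m.re = l.re} with hS
  have hcomp : IsCompact S := by
    apply (spectrum.isCompact h.D).inter_right
    exact isClosed_eq continuous_re continuous_const
  obtain ⟨m, ⟨hm1, hm2⟩, hmax⟩ := hcomp.exists_isMaxOn (f := fun m : ℂ => |m.im|) ⟨l, hl, rfl⟩
    (by fun_prop)
  have hlm : |l.im| ≤ |m.im| := hmax ⟨hl, rfl⟩
  have happ : ∀ e : ℝ, 0 < e → ∃ f : ESpace σ w, ‖f‖ = 1 ∧ ‖h.D f - m • f‖ < e := by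
    intro e he
    apply approx_of_limit h.D hm1 _ he
    intro e' he'
    -- move away from the real axis
    obtain ⟨m', h1, h2, h3⟩ : ∃ m' : ℂ, m'.re = m.re ∧ |m.im| < |m'.im| ∧ ‖m' - m‖ < e' := by
      rcases le_total 0 m.im with him | him
      · refine ⟨m + ((e' / 2 : ℝ) : ℂ) * I, by simp, ?_, ?_⟩
        · simp
          rw [abs_of_nonneg him, abs_of_nonneg (by linarith)]
          linarith
        · rw [add_sub_cancel_left, norm_mul, norm_real, norm_I, mul_one, Real.norm_eq_abs,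
            abs_of_pos (by linarith)]
          linarith
      · refine ⟨m - ((e' / 2 : ℝ) : ℂ) * I, by simp, ?_, ?_⟩
        · simp
          rw [abs_of_nonpos him, abs_of_nonpos (by linarith)]
          linarith
        · rw [sub_sub_cancel_left, norm_neg, norm_mul, norm_real, norm_I, mul_one,
            Real.norm_eq_abs, abs_of_pos (by linarith)]
          linarith
    refine ⟨m', fun hmem => ?_, h3⟩
    have : |m'.im| ≤ |m.im| := hmax ⟨hmem, h1.trans hm2⟩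
    linarith
  have hmS := h.mem_specS_of_approx happ
  intro R hR e he
  obtain ⟨x, hx⟩ := hmS R hR e he
  refine ⟨x, fun s y h1 h2 h3 => le_trans ?_ (hx s y h1 h2 h3)⟩
  have hm2' : m.re = l.re := hm2
  rw [hm2']
  gcongr

end Wt

end Pool.Agent.Helper63.Levin
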