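import Pool.Agent.Helper63.Levin.Construct

/-!
The lower bound for the spectrum.
-/

namespace Pool.Agent.Helper63.Levin

open Metric Set Complex Filter Topology Bornology MeasureTheory
open scoped ComplexConjugate Interval

lemma mdl_shift (w : ℂ → ℂ) (x0 b : ℝ) (l : ℂ) (x r : ℝ) :
    Complex.exp (-l * r) * mdl w x0 b l (x + r) - mdl w x0 b l x =
      w x0 * Complex.exp (l * (x - x0)) *
        ((Real.exp (-(b * ((x - x0) + r)) ^ 2) - Real.exp (-(b * (x - x0)) ^ 2) : ℝ) : ℂ) := by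
  unfold mdl
  push_cast
  have e1 : Complex.exp (l * ((x : ℂ) + r - x0) - (b : ℂ) ^ 2 * ((x : ℂ) + r - x0) ^ 2) =
      Complex.exp (l * (x - x0)) * Complex.exp (l * r) *
        Complex.exp (-((b : ℂ) * ((x : ℂ) - x0 + r)) ^ 2) := by
    rw [← Complex.exp_add, ← Complex.exp_add]; congr 1; ring
  have e2 : Complex.exp (l * ((x : ℂ) - x0) - (b : ℂ) ^ 2 * ((x : ℂ) - x0) ^ 2) =
      Complex.exp (l * (x - x0)) * Complex.exp (-((b : ℂ) * ((x : ℂ) - x0)) ^ 2) := by
    rw [← Complex.exp_add]; congr 1; ring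
  have e3 : Complex.exp (-l * r) * Complex.exp (l * r) = 1 := by
    rw [← Complex.exp_add]; simp
  rw [e1, e2]
  linear_combination (w x0 * Complex.exp (l * (x - x0)) *
    Complex.exp (-((b : ℂ) * ((x : ℂ) - x0 + r)) ^ 2)) * e3

lemma gauss_lip (b v r : ℝ) (hb : 0 ≤ b) (hr : 0 ≤ r) :
    |Real.exp (-(b * (v + r)) ^ 2) - Real.exp (-(b * v) ^ 2)| ≤ b * r := by
  have hder : ∀ y : ℝ, HasDerivAt (fun y : ℝ => Real.exp (-(b * y) ^ 2))
      (Real.exp (-(b * y) ^ 2) * (-(2 * (b * y) * b))) y := by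
    intro y
    have e1 : HasDerivAt (fun y : ℝ => b * y) b y := by
      simpa using (hasDerivAt_id y).const_mul b
    have e2 := (e1.pow 2).neg.exp
    simpa using e2
  have hb2 : ∀ y ∈ (univ : Set ℝ), ‖Real.exp (-(b * y) ^ 2) * (-(2 * (b * y) * b))‖ ≤ b := by
    intro y _
    rw [norm_mul, Real.norm_eq_abs, Real.norm_eq_abs, abs_of_pos (Real.exp_pos _), abs_neg,
      abs_mul, abs_mul, abs_of_nonneg hb, abs_of_pos (by norm_num : (0 : ℝ) < 2), Real.exp_neg]
    have e1 : 2 * |b * y| ≤ Real.exp ((b * y) ^ 2) := by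
      have f1 := Real.add_one_le_exp ((b * y) ^ 2)
      have f2 : (b * y) ^ 2 = |b * y| ^ 2 := (sq_abs _).symm
      nlinarith [sq_nonneg (|b * y| - 1)]
    have e2 := Real.exp_pos ((b * y) ^ 2)
    rw [inv_mul_le_iff₀ e2]
    nlinarith
  have := convex_univ.norm_image_sub_le_of_norm_hasDerivWithin_le
    (fun y _ => (hder y).hasDerivWithinAt) hb2 (mem_univ v) (mem_univ (v + r))
  rw [Real.norm_eq_abs, Real.norm_eq_abs, add_sub_cancel_left, abs_of_nonneg hr] at this
  exact this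

namespace Wt

variable {σ : ℝ} {w : ℂ → ℂ} {K : ℝ} (h : Wt σ w K)
include h

lemma tw_deriv (f : ESpace σ w) (l : ℂ) (x u : ℂ) :
    HasDerivAt (fun u : ℂ => Complex.exp (-l * u) * f (x + u))
      (Complex.exp (-l * u) * (h.D f - l • f : ESpace σ w) (x + u)) u := by
  have e1 : HasDerivAt (fun u : ℂ => Complex.exp (-l * u)) (Complex.exp (-l * u) * (-l)) u := by
    have := ((hasDerivAt_id u).const_mul (-l)).cexp
    simpa using this
  have e2 : HasDerivAt (fun u : ℂ => f (x + u)) (deriv f (x + u)) u :=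
    (f.diff (x + u)).hasDerivAt.comp_const_add (x : ℂ) u
  have e3 := e1.mul e2
  have e4 : (h.D f - l • f : ESpace σ w) (x + u) = deriv f (x + u) - l * f (x + u) := by
    rw [ESpace.sub_apply, ESpace.smul_apply, D_apply]
  have e5 : Complex.exp (-l * u) * -l * f (x + u) + Complex.exp (-l * u) * deriv f (x + u) =
      Complex.exp (-l * u) * (deriv f (x + u) - l * f (x + u)) := by ring
  rw [e4, ← e5]
  exact e3

lemma norm_Dl_le (f : ESpace σ w) (l : ℂ) : ‖h.D f - l • f‖ ≤ (Real.exp K + ‖l‖) * ‖f‖ := by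
  refine (norm_sub_le _ _).trans ?_
  rw [norm_smul, add_mul]
  gcongr
  apply ESpace.norm_le_of (by positivity)
  intro x
  have := h.deriv_le f x
  rwa [fold_real] at this

/-- Small real translation differences control `D - l`. -/
lemma taylor (g : ESpace σ w) (l : ℂ) {r δ : ℝ} (hr : 0 < r) (hr1 : r ≤ 1) (hδ : 0 ≤ δ)
    (hg : ∀ x : ℝ, ‖Complex.exp (-l * r) * g (x + r) - g x‖ ≤ r * δ * ‖w x‖) :
    ‖h.D g - l • g‖ ≤ δ + r * (Real.exp (‖l‖ + K) * (Real.exp K + ‖l‖) ^ 2 * ‖g‖) := by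
  have hK := h.K_nonneg
  set G := h.D g - l • g with hG
  set G2 := h.D G - l • G with hG2
  have hG2n : ‖G2‖ ≤ (Real.exp K + ‖l‖) ^ 2 * ‖g‖ := by
    have e1 := h.norm_Dl_le G l
    have e2 := h.norm_Dl_le g l
    calc ‖G2‖ ≤ (Real.exp K + ‖l‖) * ‖G‖ := e1
      _ ≤ (Real.exp K + ‖l‖) * ((Real.exp K + ‖l‖) * ‖g‖) := by gcongr
      _ = _ := by ring
  apply ESpace.norm_le_of (by positivity)
  intro x
  set B2 := Real.exp (‖l‖ + K) * ‖G2‖ * ‖w x‖ with hB2
  have hball : ∀ u ∈ closedBall (0 : ℂ) r,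
      ‖Complex.exp (-l * u) * G2 (x + u)‖ ≤ B2 := by
    intro u hu
    have hu1 : ‖u‖ ≤ 1 := by
      have : ‖u‖ ≤ r := by simpa using hu
      linarith
    rw [norm_mul]
    have e1 : ‖Complex.exp (-l * u)‖ ≤ Real.exp ‖l‖ := by
      rw [Complex.norm_exp]
      apply Real.exp_le_exp.2
      calc (-l * u).re ≤ ‖-l * u‖ := re_le_norm _
        _ = ‖l‖ * ‖u‖ := by rw [norm_mul, norm_neg]
        _ ≤ ‖l‖ * 1 := by gcongr
        _ = ‖l‖ := mul_one _
    have e2 : ‖G2 (x + u)‖ ≤ ‖G2‖ * (Real.exp K * ‖w x‖) := by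
      refine (h.app_le _ _).trans ?_
      have e3 := h.lip_fold x (x + u)
      rw [fold_real, add_sub_cancel_left] at e3
      have e4 : Real.exp (K * ‖u‖) ≤ Real.exp K := by
        apply Real.exp_le_exp.2
        nlinarith
      gcongr
      exact e3.trans (mul_le_mul_of_nonneg_right e4 (norm_nonneg _))
    calc ‖Complex.exp (-l * u)‖ * ‖G2 (x + u)‖ ≤ Real.exp ‖l‖ * (‖G2‖ * (Real.exp K * ‖w x‖)) := by
          gcongr
      _ = B2 := by rw [hB2, Real.exp_add]; ring
  set H : ℂ → ℂ := fun u => Complex.exp (-l * u) * g (x + u) with hH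
  set H1 : ℂ → ℂ := fun u => Complex.exp (-l * u) * G (x + u) with hH1
  have hHd : ∀ u, HasDerivAt H (H1 u) u := fun u => h.tw_deriv g l x u
  have hH1d : ∀ u, HasDerivAt H1 (Complex.exp (-l * u) * G2 (x + u)) u :=
    fun u => h.tw_deriv G l x u
  have h0mem : (0 : ℂ) ∈ closedBall (0 : ℂ) r := by simpa using hr.le
  have hB20 : 0 ≤ B2 := by positivity
  have step1 : ∀ u ∈ closedBall (0 : ℂ) r, ‖H1 u - H1 0‖ ≤ B2 * r := by
    intro u hu
    have := (convex_closedBall (0 : ℂ) r).norm_image_sub_le_of_norm_hasDerivWithin_le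
      (fun v hv => (hH1d v).hasDerivWithinAt) hball h0mem hu
    refine this.trans ?_
    have hu' : ‖u‖ ≤ r := by simpa using hu
    rw [sub_zero]
    gcongr
  have step2 := (convex_closedBall (0 : ℂ) r).norm_image_sub_le_of_norm_hasDerivWithin_le
    (f := fun u => H u - u * H1 0) (f' := fun u => H1 u - 1 * H1 0) (C := B2 * r)
    (fun v hv => ((hHd v).sub ((hasDerivAt_id v).mul_const (H1 0))).hasDerivWithinAt)
    (fun v hv => by rw [one_mul]; exact step1 v hv) h0mem
    (y := (r : ℂ)) (by simp [abs_of_pos hr])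
  have e1 : H 0 = g x := by simp [hH]
  have e2 : H1 0 = G x := by simp [hH1]
  have e3 : ‖((r : ℂ) - 0)‖ = r := by simp [abs_of_pos hr]
  rw [e3, e1, e2] at step2
  have e4 := hg x
  have e5 : H r = Complex.exp (-l * r) * g (x + r) := rfl
  have e6 : r * ‖G x‖ ≤ r * δ * ‖w x‖ + B2 * r * r := by
    have : ((r : ℂ)) * G x = (Complex.exp (-l * r) * g (x + r) - g x) -
        (H r - r * G x - (g x - 0 * G x)) := by rw [e5]; ring
    have e7 : ‖((r : ℂ)) * G x‖ = r * ‖G x‖ := by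
      rw [norm_mul, norm_real, Real.norm_eq_abs, abs_of_pos hr]
    rw [← e7, this]
    exact (norm_sub_le _ _).trans (add_le_add e4 step2)
  have e8 : r * ‖G x‖ ≤ r * ((δ + r * (Real.exp (‖l‖ + K) * (Real.exp K + ‖l‖) ^ 2 * ‖g‖)) * ‖w x‖) := by
    refine e6.trans ?_
    have : B2 ≤ Real.exp (‖l‖ + K) * ((Real.exp K + ‖l‖) ^ 2 * ‖g‖) * ‖w x‖ := by
      rw [hB2]; gcongr
    have e9 : B2 * r * r ≤ Real.exp (‖l‖ + K) * ((Real.exp K + ‖l‖) ^ 2 * ‖g‖) * ‖w x‖ * r * r := by
      gcongr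
    linarith
  exact le_of_mul_le_mul_left e8 hr

/-- Estimates for the constructed element at a fixed scale. -/
lemma scale {l : ℂ} {t C : ℝ} (ht : |l.im| < t) (hC : 1 ≤ C) {H : ℝ} (hH3 : 3 ≤ H)
    (hHδ : (t - |l.im|) / 2 ≤ H) {x0 : ℝ} (hc : Cond w x0 l.re t C (H ^ 2) (H ^ 2)) :
    ∃ f : ESpace σ w,
      (∀ x : ℝ, |x - x0| ≤ H ^ 2 / 2 →
        ‖f x - 2 * Real.pi * I * mdl w x0 (Real.sqrt ((t - |l.im|) / (2 * H))) l x‖ ≤
          8 * C * (H * Real.exp (-((t - |l.im|) / 2 * H))) * ‖w x‖) ∧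
      (∀ x : ℝ, H ^ 2 / 4 ≤ |x - x0| →
        ‖f x‖ ≤ 16 * Real.pi * C * (2 + (Real.exp K + K)) / (t - |l.im|) * (1 / H) * ‖w x‖) := by
  have hK := h.K_nonneg
  set δ := t - |l.im| with hδ
  have hδ0 : 0 < δ := by rw [hδ]; linarith
  have hH0 : 0 < H := by linarith
  set b := Real.sqrt (δ / (2 * H)) with hb
  have hb0 : 0 < b := Real.sqrt_pos.2 (by positivity)
  have hb2 : b ^ 2 = δ / (2 * H) := Real.sq_sqrt (by positivity)
  have hb1 : b ≤ 1 := by
    rw [hb, Real.sqrt_le_iff]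
    refine ⟨zero_le_one, ?_⟩
    rw [one_pow, div_le_one (by positivity)]
    linarith
  have hHH : H ≤ H ^ 2 := by nlinarith
  have hc' : Cond w x0 l.re t C (H ^ 2) H := fun s y h1 h2 h3 => hc s y h1 h2 (h3.trans hHH)
  refine ⟨h.fel x0 b (H ^ 2) l, ?_, ?_⟩
  · intro x hx
    have hx' : |x - x0| < H ^ 2 := by
      have : 0 < H ^ 2 := by positivity
      linarith
    have key := h.fel_approx (b := b) (M := Real.exp (-(δ / 2 * H))) hc' hH0 (by linarith) hx' ?_ ?_
    · refine key.trans ?_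
      rw [abs_le] at hx
      have e1 : H / (x0 + H ^ 2 - x) ≤ 2 / H := by
        rw [div_le_div_iff₀ (by nlinarith [hx.2]) hH0]
        nlinarith [hx.2]
      have e2 : H / (x - (x0 - H ^ 2)) ≤ 2 / H := by
        rw [div_le_div_iff₀ (by nlinarith [hx.1]) hH0]
        nlinarith [hx.1]
      have e3 : 2 * H ^ 2 / H = 2 * H := by field_simp
      have e4 : 2 / H ≤ H := by
        rw [div_le_iff₀ hH0]; nlinarith
      have e5 : 2 * H ^ 2 / H + H / (x0 + H ^ 2 - x) + H / (x - (x0 - H ^ 2)) ≤ 4 * H := by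
        rw [e3]; linarith
      calc 2 * (C * Real.exp (-(δ / 2 * H)) * ‖w x‖ *
            (2 * H ^ 2 / H + H / (x0 + H ^ 2 - x) + H / (x - (x0 - H ^ 2))))
          ≤ 2 * (C * Real.exp (-(δ / 2 * H)) * ‖w x‖ * (4 * H)) := by gcongr
        _ = _ := by ring
    · intro v _
      apply Real.exp_le_exp.2
      rw [hb2]
      have e1 : 0 ≤ δ / (2 * H) * (v - x0) ^ 2 := by positivity
      have e2 : δ / (2 * H) * H ^ 2 = δ / 2 * H := by field_simp
      nlinarith
    · intro y hy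
      apply Real.exp_le_exp.2
      rw [hb2]
      have e1 : y ^ 2 ≤ H ^ 2 := by
        rw [← sq_abs]
        exact pow_le_pow_left₀ (abs_nonneg _) hy 2
      have e2 : δ / (2 * H) * H ^ 2 = δ / 2 * H := by field_simp
      have e3 : δ / (2 * H) * (2 * H ^ 2) ≤ δ / (2 * H) * ((H ^ 2) ^ 2) := by
        apply mul_le_mul_of_nonneg_left _ (by positivity)
        nlinarith
      have e4 : δ / (2 * H) * y ^ 2 ≤ δ / (2 * H) * H ^ 2 := by gcongr
      have e5 : 0 ≤ δ * |y| := by positivity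
      nlinarith
  · intro x hx
    have key := h.fel_decay (b := b) hc' hH0.le (by positivity) hb0 hb1 (by linarith) x
    have e1 : H ^ 2 / 4 * ‖h.fel x0 b (H ^ 2) l x‖ ≤
        C * (2 + (Real.exp K + K)) * (2 * Real.pi / b ^ 2) * ‖w x‖ := by
      refine le_trans ?_ key
      gcongr
    rw [hb2] at e1
    have hp := Real.pi_pos
    have e2 : C * (2 + (Real.exp K + K)) * (2 * Real.pi / (δ / (2 * H))) * ‖w x‖ =
        H ^ 2 / 4 * (16 * Real.pi * C * (2 + (Real.exp K + K)) / δ * (1 / H) * ‖w x‖) := by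
      field_simp
      ring
    rw [e2] at e1
    exact le_of_mul_le_mul_left e1 (by positivity)

set_option maxHeartbeats 2000000 in
/-- Points below a candidate are in the spectrum. -/
lemma mem_spectrum_of_above {l : ℂ} {t : ℝ} (ht : |l.im| < t)
    (hC : ∃ C : ℝ, ∀ R : ℝ, 0 < R → ∃ x : ℝ, Cond w x l.re t C R R) :
    l ∈ spectrum ℂ h.D := by
  have hK := h.K_nonneg
  obtain ⟨C0, hC0⟩ := hC
  set C := max C0 1 with hCdef
  have hC1 : 1 ≤ C := le_max_right _ _
  have hCc : ∀ R : ℝ, 0 < R → ∃ x : ℝ, Cond w x l.re t C R R := by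
    intro R hR
    obtain ⟨x, hx⟩ := hC0 R hR
    refine ⟨x, fun s y h1 h2 h3 => (hx s y h1 h2 h3).trans ?_⟩
    gcongr
    exact le_max_left _ _
  set δ := t - |l.im| with hδ
  have hδ0 : 0 < δ := by rw [hδ]; linarith
  apply mem_of_approx
  intro e he
  have hpi := Real.pi_pos
  have hpi3 := Real.pi_gt_three
  -- constants
  set CT := Real.exp (‖l‖ + K) * (Real.exp K + ‖l‖) ^ 2 with hCT
  have hCT0 : 0 < CT := by
    rw [hCT]
    have : 0 < Real.exp K := Real.exp_pos _
    positivity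
  set N := 2 * Real.pi * C + 2 with hN
  have hN0 : 0 < N := by positivity
  set r := min 1 (e / (2 * (CT * N))) with hr
  have hr0 : 0 < r := lt_min one_pos (by positivity)
  have hr1 : r ≤ 1 := min_le_left _ _
  have hr2 : r * (CT * N) ≤ e / 2 := by
    have : r ≤ e / (2 * (CT * N)) := min_le_right _ _
    calc r * (CT * N) ≤ e / (2 * (CT * N)) * (CT * N) := by gcongr
      _ = e / 2 := by field_simp
  set E1 := Real.exp (‖l‖ + K) + 1 with hE1
  have hE10 : 0 < E1 := by positivity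
  set Q := 16 * Real.pi * C * (2 + (Real.exp K + K)) / δ with hQ
  -- limits
  have lim1 : Tendsto (fun H : ℝ => 8 * C * (H * Real.exp (-(δ / 2 * H)))) atTop (𝓝 0) := by
    have e1 : Tendsto (fun H : ℝ => (δ / 2 * H) ^ 1 * Real.exp (-(δ / 2 * H))) atTop (𝓝 0) :=
      (Real.tendsto_pow_mul_exp_neg_atTop_nhds_zero 1).comp
        (tendsto_id.const_mul_atTop (by positivity))
    have e2 := e1.const_mul (8 * C * (2 / δ))
    rw [mul_zero] at e2
    apply e2.congr
    intro H
    field_simp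
  have lim2 : Tendsto (fun H : ℝ => Q * (1 / H)) atTop (𝓝 0) := by
    have := (tendsto_inv_atTop_zero (𝕜 := ℝ)).const_mul Q
    simpa using this
  have lim3 : Tendsto (fun H : ℝ => Real.sqrt (δ / (2 * H))) atTop (𝓝 0) := by
    have e1 : Tendsto (fun H : ℝ => δ / (2 * H)) atTop (𝓝 0) :=
      Tendsto.div_atTop tendsto_const_nhds (tendsto_id.const_mul_atTop (by norm_num))
    have := (Real.continuous_sqrt.tendsto 0).comp e1
    rwa [Real.sqrt_zero] at this
  have lim4 : Tendsto (fun H : ℝ => (8 * C * (H * Real.exp (-(δ / 2 * H))) + Q * (1 / H)) * E1 +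
      2 * Real.pi * C * r * Real.sqrt (δ / (2 * H))) atTop (𝓝 ((0 + 0) * E1 +
      2 * Real.pi * C * r * 0)) :=
    ((lim1.add lim2).mul_const E1).add (lim3.const_mul _)
  simp only [add_zero, zero_mul, mul_zero] at lim4
  obtain ⟨H, hH1, hH2, hH3, hH4, hH5⟩ : ∃ H : ℝ, 3 ≤ H ∧ δ / 2 ≤ H ∧
      8 * C * (H * Real.exp (-(δ / 2 * H))) ≤ 1 ∧ Q * (1 / H) ≤ 1 ∧
      (8 * C * (H * Real.exp (-(δ / 2 * H))) + Q * (1 / H)) * E1 +
      2 * Real.pi * C * r * Real.sqrt (δ / (2 * H)) ≤ r * (e / 2) := by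
    have := ((eventually_ge_atTop (3 : ℝ)).and ((eventually_ge_atTop (δ / 2)).and
      ((lim1.eventually_le_const one_pos).and ((lim2.eventually_le_const one_pos).and
        (lim4.eventually_le_const (by positivity : 0 < r * (e / 2))))))).exists
    obtain ⟨H, a1, a2, a3, a4, a5⟩ := this
    exact ⟨H, a1, a2, a3, a4, a5⟩
  have hH0 : 0 < H := by linarith
  obtain ⟨x0, hx0⟩ := hCc (H ^ 2) (by positivity)
  obtain ⟨f, hf1, hf2⟩ := h.scale ht hC1 hH1 hH2 hx0
  rw [← hδ] at hf1 hf2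
  rw [← hQ] at hf2
  set ε1 := 8 * C * (H * Real.exp (-(δ / 2 * H))) with hε1
  set ε2 := Q * (1 / H) with hε2
  set b := Real.sqrt (δ / (2 * H)) with hb
  set F := mdl w x0 b l with hF
  have hb0 : 0 ≤ b := Real.sqrt_nonneg _
  have hε10 : 0 ≤ ε1 := by positivity
  have hε20 : 0 ≤ ε2 := by
    have : 0 ≤ Q := by rw [hQ]; positivity
    positivity
  -- the model is bounded by the weight
  have hexp : ∀ x : ℝ, |x - x0| ≤ H ^ 2 →
      Real.exp (l.re * (x - x0)) * ‖w x0‖ ≤ C * ‖w x‖ := by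
    intro x hx
    have := hx0 (x - x0) 0 hx le_rfl (by positivity)
    simpa using this
  have hFn : ∀ x : ℝ, ‖F x‖ =
      Real.exp (-(b * (x - x0)) ^ 2) * (Real.exp (l.re * (x - x0)) * ‖w x0‖) := by
    intro x
    rw [hF, norm_mdl]
    have : l.re * ((x : ℂ).re - x0) - l.im * (x : ℂ).im -
        b ^ 2 * (((x : ℂ).re - x0) ^ 2 - (x : ℂ).im ^ 2) =
        -(b * (x - x0)) ^ 2 + l.re * (x - x0) := by
      simp; ring
    rw [this, Real.exp_add]; ring
  have hFle : ∀ x : ℝ, |x - x0| ≤ H ^ 2 → ‖F x‖ ≤ C * ‖w x‖ := by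
    intro x hx
    rw [hFn]
    have e1 := hexp x hx
    have e2 : Real.exp (-(b * (x - x0)) ^ 2) ≤ 1 := by
      apply Real.exp_le_one_iff.2
      have := sq_nonneg (b * (x - x0))
      linarith
    have e3 : 0 ≤ Real.exp (l.re * (x - x0)) * ‖w x0‖ := by positivity
    nlinarith
  have h2pi : ‖(2 * Real.pi * I : ℂ)‖ = 2 * Real.pi := by
    rw [norm_mul, norm_mul, norm_I, mul_one, norm_real, Real.norm_eq_abs, abs_of_pos hpi]
    simp
  -- norm bounds
  have hfN : ‖f‖ ≤ N := by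
    apply ESpace.norm_le_of hN0.le
    intro x
    have hwx := norm_nonneg (w x)
    by_cases hx : |x - x0| ≤ H ^ 2 / 2
    · have e1 := hf1 x hx
      have e2 := hFle x (by have : 0 ≤ H ^ 2 := by positivity
                            linarith)
      have e3 : ‖f x‖ ≤ ‖f x - 2 * Real.pi * I * F x‖ + ‖2 * Real.pi * I * F x‖ := by
        calc ‖f x‖ = ‖(f x - 2 * Real.pi * I * F x) + 2 * Real.pi * I * F x‖ := by ring_nf
          _ ≤ _ := norm_add_le _ _
      rw [norm_mul, h2pi] at e3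
      have e4 : 2 * Real.pi * ‖F x‖ ≤ 2 * Real.pi * (C * ‖w x‖) := by gcongr
      have e5 : ε1 * ‖w x‖ ≤ 1 * ‖w x‖ := by gcongr
      rw [hN]
      nlinarith
    · push Not at hx
      have e1 := hf2 x (by have : 0 ≤ H ^ 2 := by positivity
                           linarith)
      have e5 : ε2 * ‖w x‖ ≤ 1 * ‖w x‖ := by gcongr
      have e6 : 0 ≤ 2 * Real.pi * C * ‖w x‖ := by positivity
      rw [hN]
      nlinarith
  refine ⟨f, ?_, ?_⟩
  · -- lower bound at x0
    have e1 := hf1 x0 (by simp; positivity)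
    have e2 : ‖F x0‖ = ‖w x0‖ := by rw [hFn]; simp
    have e3 : ‖2 * Real.pi * I * F x0‖ ≤ ‖f x0‖ + ‖f x0 - 2 * Real.pi * I * F x0‖ := by
      calc ‖2 * Real.pi * I * F x0‖ = ‖f x0 - (f x0 - 2 * Real.pi * I * F x0)‖ := by ring_nf
        _ ≤ _ := norm_sub_le _ _
    rw [norm_mul, h2pi, e2] at e3
    have hw0 : 0 < ‖w x0‖ := h.norm_pos (by simp)
    have e4 : ε1 * ‖w x0‖ ≤ 1 * ‖w x0‖ := by gcongr
    have e5 := f.le_norm x0
    have e6 : ‖w x0‖ ≤ ‖f‖ * ‖w x0‖ := by nlinarith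
    have e7 : 1 * ‖w x0‖ ≤ ‖f‖ * ‖w x0‖ := by linarith
    exact le_of_mul_le_mul_right e7 hw0
  · have key := h.taylor f l hr0 hr1 (by positivity : 0 ≤ e / 2) ?_
    · refine key.trans ?_
      have e1 : r * (CT * ‖f‖) ≤ r * (CT * N) := by gcongr
      linarith
    intro x
    have hwx := h.norm_pos (z := (x : ℂ)) (by simp)
    have hexpl : ‖Complex.exp (-l * r)‖ ≤ Real.exp ‖l‖ := by
      rw [Complex.norm_exp]
      apply Real.exp_le_exp.2
      calc (-l * r).re ≤ ‖-l * (r : ℂ)‖ := re_le_norm _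
        _ = ‖l‖ * r := by rw [norm_mul, norm_neg, norm_real, Real.norm_eq_abs, abs_of_pos hr0]
        _ ≤ ‖l‖ * 1 := by gcongr
        _ = ‖l‖ := mul_one _
    have hwr : ‖w (x + r)‖ ≤ Real.exp K * ‖w x‖ := by
      have e1 := h.lip (a := (x : ℂ)) (b := (x : ℂ) + r) (by simp) (by simp)
      rw [add_sub_cancel_left, norm_real, Real.norm_eq_abs, abs_of_pos hr0] at e1
      refine e1.trans ?_
      gcongr
      nlinarith
    have hcomb : ∀ ε : ℝ, 0 ≤ ε → Real.exp ‖l‖ * (ε * ‖w (x + r)‖) + ε * ‖w x‖ ≤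
        ε * E1 * ‖w x‖ := by
      intro ε hε
      calc Real.exp ‖l‖ * (ε * ‖w (x + r)‖) + ε * ‖w x‖
          ≤ Real.exp ‖l‖ * (ε * (Real.exp K * ‖w x‖)) + ε * ‖w x‖ := by gcongr
        _ = ε * E1 * ‖w x‖ := by rw [hE1, Real.exp_add]; ring
    have hfin : (ε1 + ε2) * E1 * ‖w x‖ + 2 * Real.pi * C * r * b * ‖w x‖ ≤ r * (e / 2) * ‖w x‖ := by
      rw [← add_mul]
      gcongr
    have hxr : ((x + r : ℝ) : ℂ) = (x : ℂ) + r := by push_cast; ring
    have hH9 : 9 ≤ H ^ 2 := by nlinarith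
    by_cases hx : |x - x0| ≤ H ^ 2 / 4 + 1
    · have hx1 : |x - x0| ≤ H ^ 2 / 2 := by linarith
      have hx2 : |(x + r) - x0| ≤ H ^ 2 / 2 := by
        have : |(x + r) - x0| ≤ |x - x0| + r := by
          have e0 : (x + r) - x0 = (x - x0) + r := by ring
          rw [e0]
          refine (abs_add_le _ _).trans ?_
          rw [abs_of_pos hr0]
        linarith
      have g1 := hf1 x hx1
      have g2 := hf1 (x + r) hx2
      rw [hxr] at g2
      -- the model difference
      have g3 : ‖Complex.exp (-l * r) * F (x + r) - F x‖ ≤ C * r * b * ‖w x‖ := by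
        have e1 : Complex.exp (-l * r) * F (x + r) - F x =
            w x0 * Complex.exp (l * (x - x0)) *
              ((Real.exp (-(b * ((x - x0) + r)) ^ 2) - Real.exp (-(b * (x - x0)) ^ 2) : ℝ) : ℂ) := by
          exact mdl_shift w x0 b l x r
        rw [e1, norm_mul, norm_mul, Complex.norm_exp, norm_real, Real.norm_eq_abs]
        have e2 : (l * ((x : ℂ) - x0)).re = l.re * (x - x0) := by
          rw [← ofReal_sub, Complex.re_mul_ofReal]
        rw [e2]
        have e3 := gauss_lip b (x - x0) r hb0 hr0.le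
        have e4 := hexp x (by linarith)
        calc ‖w x0‖ * Real.exp (l.re * (x - x0)) *
              |Real.exp (-(b * ((x - x0) + r)) ^ 2) - Real.exp (-(b * (x - x0)) ^ 2)|
            ≤ ‖w x0‖ * Real.exp (l.re * (x - x0)) * (b * r) := by gcongr
          _ = (Real.exp (l.re * (x - x0)) * ‖w x0‖) * (b * r) := by ring
          _ ≤ (C * ‖w x‖) * (b * r) := by gcongr
          _ = _ := by ring
      have g4 : Complex.exp (-l * r) * f (x + r) - f x =
          Complex.exp (-l * r) * (f (x + r) - 2 * Real.pi * I * F (x + r)) +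
          2 * Real.pi * I * (Complex.exp (-l * r) * F (x + r) - F x) -
          (f x - 2 * Real.pi * I * F x) := by ring
      rw [g4]
      refine (norm_sub_le _ _).trans ?_
      have g5 : ‖Complex.exp (-l * r) * (f (x + r) - 2 * Real.pi * I * F (x + r)) +
          2 * Real.pi * I * (Complex.exp (-l * r) * F (x + r) - F x)‖ ≤
          Real.exp ‖l‖ * (ε1 * ‖w (x + r)‖) + 2 * Real.pi * (C * r * b * ‖w x‖) := by
        refine (norm_add_le _ _).trans ?_
        rw [norm_mul, norm_mul (2 * Real.pi * I : ℂ), h2pi]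
        gcongr
      have g6 := hcomb ε1 hε10
      have g7 : 0 ≤ ε2 * E1 * ‖w x‖ := by positivity
      linarith
    · push Not at hx
      have hx1 : H ^ 2 / 4 ≤ |x - x0| := by linarith
      have hx2 : H ^ 2 / 4 ≤ |(x + r) - x0| := by
        have : |x - x0| ≤ |(x + r) - x0| + r := by
          have e0 : x - x0 = ((x + r) - x0) + (-r) := by ring
          calc |x - x0| = |((x + r) - x0) + (-r)| := by rw [← e0]
            _ ≤ |(x + r) - x0| + |-r| := abs_add_le _ _
            _ = _ := by rw [abs_neg, abs_of_pos hr0]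
        linarith
      have g1 := hf2 x hx1
      have g2 := hf2 (x + r) hx2
      rw [hxr] at g2
      have g3 : ‖Complex.exp (-l * r) * f (x + r) - f x‖ ≤
          Real.exp ‖l‖ * (ε2 * ‖w (x + r)‖) + ε2 * ‖w x‖ := by
        refine (norm_sub_le _ _).trans ?_
        rw [norm_mul]
        gcongr
      have g6 := hcomb ε2 hε20
      have g7 : 0 ≤ ε1 * E1 * ‖w x‖ := by positivity
      have g8 : 0 ≤ 2 * Real.pi * C * r * b * ‖w x‖ := by positivity
      linarith

/-- **The spectrum.** -/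
theorem spectrum_eq : spectrum ℂ h.D = specS w ∧ spectrum ℂ h.D = specC w := by
  have h1 := h.spectrum_subset
  have h2 := specS_subset_specC w
  have h3 : specC w ⊆ spectrum ℂ h.D := by
    have hcomp := h.complete
    intro l hl
    by_cases him : l.im = 0
    · have hlr : l = (l.re : ℂ) := by apply Complex.ext <;> simp [him]
      by_cases hab : ∃ β : ℝ, 0 < β ∧ (l.re : ℂ) + β * I ∈ specC w
      · obtain ⟨β, hβ, C, hCβ⟩ := hab
        apply h.mem_spectrum_of_above (t := β) (by rw [him, abs_zero]; exact hβ)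
        refine ⟨C, fun R hR => ?_⟩
        obtain ⟨x, hx⟩ := hCβ R hR
        refine ⟨x, fun s y a1 a2 a3 => ?_⟩
        have := hx s y a1 a2 a3
        simpa [abs_of_pos hβ] using this
      · push Not at hab
        rw [hlr]
        apply h.real_mem_spectrum
        · rw [← hlr]; exact hl
        · exact hab
    · -- approach from below
      have hpos : 0 < |l.im| := abs_pos.2 him
      have hcl : IsClosed (spectrum ℂ h.D) := spectrum.isClosed _
      have hseq : ∀ c : ℝ, 0 ≤ c → c < 1 → (l.re : ℂ) + ((c * l.im : ℝ) : ℂ) * I ∈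
          spectrum ℂ h.D := by
        intro c hc0 hc1
        have him' : ((l.re : ℂ) + ((c * l.im : ℝ) : ℂ) * I).im = c * l.im := by simp
        have hre' : ((l.re : ℂ) + ((c * l.im : ℝ) : ℂ) * I).re = l.re := by simp
        apply h.mem_spectrum_of_above (t := |l.im|)
        · rw [him', abs_mul, abs_of_nonneg hc0]
          nlinarith
        · obtain ⟨C, hC⟩ := hl
          refine ⟨C, fun R hR => ?_⟩
          obtain ⟨x, hx⟩ := hC R hR
          refine ⟨x, fun s y a1 a2 a3 => ?_⟩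
          rw [hre']
          exact hx s y a1 a2 a3
      have hlim : Tendsto (fun c : ℝ => (l.re : ℂ) + ((c * l.im : ℝ) : ℂ) * I) (𝓝[<] 1)
          (𝓝 ((l.re : ℂ) + ((1 * l.im : ℝ) : ℂ) * I)) := by
        apply Tendsto.mono_left _ nhdsWithin_le_nhds
        apply Continuous.tendsto
        fun_prop
      have hl1 : (l.re : ℂ) + ((1 * l.im : ℝ) : ℂ) * I = l := by
        rw [one_mul, Complex.re_add_im]
      rw [hl1] at hlim
      apply hcl.mem_of_tendsto hlim
      have : Ioo (0 : ℝ) 1 ∈ 𝓝[<] (1 : ℝ) := Ioo_mem_nhdsLT one_pos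
      filter_upwards [this] with c hc
      exact hseq c hc.1.le hc.2
  refine ⟨subset_antisymm h1 (h2.trans h3), subset_antisymm (h1.trans h2) h3⟩

end Wt

end Pool.Agent.Helper63.Levin
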