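import Pool.Agent.Helper63.Levin.SpecA

/-!
Real candidates which are not limits of non-real ones belong to the spectrum.
-/

namespace Pool.Agent.Helper63.Levin

open Metric Set Complex Filter Topology Bornology
open scoped ComplexConjugate

namespace Wt

variable {σ : ℝ} {w : ℂ → ℂ} {K : ℝ} (h : Wt σ w K)
include h

/-- The weight as an element of the space. -/
def W : ESpace σ w := ESpace.mk' w h.diff h.typ (C := 1) (fun x => by simp)

lemma W_apply (z : ℂ) : h.W z = w z := rfl

/-- If the candidate condition holds at `κ` but fails at `κ + β i` with a small `β`, there is a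
large disc on which the logarithmic derivative is close to `κ`. -/
lemma flat_disc {κ β C : ℝ} (hβ : 0 < β) (hC : 0 < C)
    (h1 : ∀ R : ℝ, 0 < R → ∃ x : ℝ, ∀ s y : ℝ, |s| ≤ R → 0 ≤ y → y ≤ R →
      Real.exp (κ * s) * ‖w x‖ ≤ C * ‖w (x + s + y * I)‖)
    (h2 : ¬ ∀ R : ℝ, 0 < R → ∃ x : ℝ, ∀ s y : ℝ, |s| ≤ R → 0 ≤ y → y ≤ R →
      Real.exp (κ * s + β * y) * ‖w x‖ ≤ (C * Real.exp 1) * ‖w (x + s + y * I)‖) :
    ∃ z1 : ℂ, ∃ r : ℝ, 1 / (2 * β) < r ∧ r ≤ z1.im ∧ ∀ z ∈ ball z1 r,
      ‖(κ : ℂ) - deriv w z / w z‖ ≤ 12 * β := by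
  push Not at h2
  obtain ⟨R0, hR0, h2⟩ := h2
  obtain ⟨x, hx⟩ := h1 (3 * R0) (by positivity)
  obtain ⟨s1, y1, hs1, hy1, hy1R, hlt⟩ := h2 x
  have hwx : 0 < ‖w x‖ := h.norm_pos (by simp)
  have hge := hx s1 y1 (by linarith) hy1 (by linarith)
  set z1 : ℂ := x + s1 + y1 * I with hz1
  have hz1re : z1.re = x + s1 := by simp [hz1]
  have hz1im : z1.im = y1 := by simp [hz1]
  have hβy : 1 < β * y1 := by
    have e1 : Real.exp (κ * s1) * Real.exp 1 * ‖w x‖ < Real.exp (κ * s1 + β * y1) * ‖w x‖ := by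
      calc Real.exp (κ * s1) * Real.exp 1 * ‖w x‖ = Real.exp 1 * (Real.exp (κ * s1) * ‖w x‖) := by
            ring
        _ ≤ Real.exp 1 * (C * ‖w z1‖) := by gcongr
        _ = C * Real.exp 1 * ‖w z1‖ := by ring
        _ < _ := hlt
    have e2 := lt_of_mul_lt_mul_right e1 hwx.le
    rw [← Real.exp_add, Real.exp_lt_exp] at e2
    linarith
  have hy1pos : 0 < y1 := by
    by_contra hcon
    have : y1 = 0 := le_antisymm (not_lt.1 hcon) hy1
    rw [this] at hβy
    linarith
  -- the auxiliary function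
  set ψ : ℂ → ℂ := fun z => Complex.exp (κ * z) / w z with hψ
  have hψn : ∀ z, ‖ψ z‖ = Real.exp (κ * z.re) / ‖w z‖ := by
    intro z
    rw [hψ]
    simp only [norm_div, Complex.norm_exp]
    simp
  set M1 := C * Real.exp (κ * x) / ‖w x‖ with hM1
  have hM1pos : 0 < M1 := by positivity
  have hball : ∀ z ∈ ball z1 y1, 0 < z.im ∧ ‖ψ z‖ ≤ M1 := by
    intro z hz
    rw [mem_ball, dist_eq_norm] at hz
    have e1 : |(z - z1).im| < y1 := (abs_im_le_norm _).trans_lt hz
    have e2 : |(z - z1).re| < y1 := (abs_re_le_norm _).trans_lt hz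
    rw [Complex.sub_im, hz1im, abs_lt] at e1
    rw [Complex.sub_re, hz1re, abs_lt] at e2
    have hzim : 0 < z.im := by linarith [e1.1]
    refine ⟨hzim, ?_⟩
    have hs : |z.re - x| ≤ 3 * R0 := by
      rw [abs_le] at hs1 ⊢
      constructor <;> linarith [e2.1, e2.2, hs1.1, hs1.2]
    have e3 := hx (z.re - x) z.im hs hzim.le (by linarith [e1.2])
    have e4 : (x : ℂ) + ((z.re - x : ℝ) : ℂ) + z.im * I = z := by
      apply Complex.ext <;> simp
    rw [e4] at e3
    have hwz := h.norm_pos hzim.le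
    rw [hψn, hM1, div_le_div_iff₀ hwz hwx]
    have e5 : Real.exp (κ * z.re) = Real.exp (κ * x) * Real.exp (κ * (z.re - x)) := by
      rw [← Real.exp_add]; congr 1; ring
    rw [e5]
    have e6 := Real.exp_pos (κ * x)
    calc Real.exp (κ * x) * Real.exp (κ * (z.re - x)) * ‖w x‖
        = Real.exp (κ * x) * (Real.exp (κ * (z.re - x)) * ‖w x‖) := by ring
      _ ≤ Real.exp (κ * x) * (C * ‖w z‖) := by gcongr
      _ = _ := by ring
  have hψd : ∀ z, 0 < z.im → HasDerivAt ψ (ψ z * ((κ : ℂ) - deriv w z / w z)) z := by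
    intro z hz
    have hne := h.nz z hz
    have e1 : HasDerivAt (fun z : ℂ => Complex.exp (κ * z)) (Complex.exp (κ * z) * κ) z := by
      have := ((hasDerivAt_id z).const_mul (κ : ℂ)).cexp
      simpa using this
    have e2 := e1.div (h.diff z).hasDerivAt hne
    have e3 : (Complex.exp (κ * z) * κ * w z - Complex.exp (κ * z) * deriv w z) / w z ^ 2 =
        ψ z * ((κ : ℂ) - deriv w z / w z) := by
      rw [hψ]; field_simp
    rw [← e3]
    exact e2
  have hψne : ∀ z, 0 < z.im → ψ z ≠ 0 := fun z hz =>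
    div_ne_zero (Complex.exp_ne_zero _) (h.nz z hz)
  have hψdo : DifferentiableOn ℂ ψ (ball z1 y1) := fun z hz =>
    (hψd z (hball z hz).1).differentiableAt.differentiableWithinAt
  have est := zero_free_estimates hy1pos hψdo (fun z hz => hψne z (hball z hz).1)
    (fun z hz => (hball z hz).2)
  -- value at the centre
  have hv1 : Real.log M1 - Real.log ‖ψ z1‖ ≤ β * y1 := by
    have hwz1 := h.norm_pos (z := z1) (by rw [hz1im]; exact hy1)
    rw [← Real.log_div hM1pos.ne' (norm_ne_zero_iff.2 (hψne z1 (by rw [hz1im]; exact hy1pos))),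
      Real.log_le_iff_le_exp (div_pos hM1pos (norm_pos_iff.2
        (hψne z1 (by rw [hz1im]; exact hy1pos)))), hψn, hz1re, hM1]
    have e1 : C * ‖w z1‖ ≤ Real.exp (κ * s1 + β * y1) * ‖w x‖ := by
      have e0 : (1 : ℝ) ≤ Real.exp 1 := Real.one_le_exp zero_le_one
      have e2 : C * ‖w z1‖ ≤ C * Real.exp 1 * ‖w z1‖ := by
        have : 0 ≤ C * ‖w z1‖ := by positivity
        nlinarith
      exact e2.trans hlt.le
    rw [mul_add, Real.exp_add]
    have e3 := Real.exp_pos (κ * x)
    have e4 := Real.exp_pos (κ * s1)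
    rw [div_div_eq_mul_div, div_le_iff₀ (by positivity), div_mul_eq_mul_div,
      div_le_iff₀ hwx]
    rw [Real.exp_add] at e1
    calc C * Real.exp (κ * x) * ‖w z1‖ = Real.exp (κ * x) * (C * ‖w z1‖) := by ring
      _ ≤ Real.exp (κ * x) * (Real.exp (κ * s1) * Real.exp (β * y1) * ‖w x‖) := by gcongr
      _ = _ := by ring
  have hnn : ∀ z ∈ ball z1 y1, 0 ≤ Real.log M1 - Real.log ‖ψ z‖ := by
    intro z hz
    have := Real.log_le_log (norm_pos_iff.2 (hψne z (hball z hz).1)) (hball z hz).2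
    linarith
  refine ⟨z1, y1 / 2, ?_, by rw [hz1im]; linarith, ?_⟩
  · rw [div_lt_div_iff₀ (by positivity) (by norm_num)]
    linarith
  intro z hz
  have hzd : dist z z1 < y1 / 2 := hz
  have hzb : z ∈ ball z1 y1 := by rw [mem_ball]; linarith
  have e1 := (est.2 z hzb).2
  have hvz : Real.log M1 - Real.log ‖ψ z‖ ≤ 3 * (β * y1) := by
    have hn1 := hnn z hzb
    have hn2 := hnn z1 (mem_ball_self hy1pos)
    have e2 : y1 / 2 * (Real.log M1 - Real.log ‖ψ z‖) ≤
        (y1 - dist z z1) * (Real.log M1 - Real.log ‖ψ z‖) := by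
      apply mul_le_mul_of_nonneg_right _ hn1
      linarith
    have e3 : (y1 + dist z z1) * (Real.log M1 - Real.log ‖ψ z1‖) ≤
        (3 / 2 * y1) * (β * y1) := by
      apply mul_le_mul _ hv1 hn2 (by positivity)
      linarith
    have e4 : y1 / 2 * (Real.log M1 - Real.log ‖ψ z‖) ≤ y1 / 2 * (3 * (β * y1)) := by
      calc _ ≤ _ := e2
        _ ≤ _ := e1
        _ ≤ _ := e3
        _ = _ := by ring
    exact le_of_mul_le_mul_left e4 (by positivity)
  have hsub : ball z (y1 / 2) ⊆ ball z1 y1 := by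
    apply ball_subset_ball'
    linarith
  have est2 := (zero_free_estimates (w := ψ) (c := z) (r := y1 / 2) (M := M1) (by positivity)
    (hψdo.mono hsub) (fun u hu => hψne u (hball u (hsub hu)).1)
    (fun u hu => (hball u (hsub hu)).2)).1
  rw [(hψd z (hball z hzb).1).deriv,
    mul_div_cancel_left₀ _ (hψne z (hball z hzb).1)] at est2
  refine est2.trans ?_
  rw [div_le_iff₀ (by positivity)]
  linarith

/-- The case of a real candidate, when the candidate set does not contain points above it. -/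
lemma real_mem_spectrum {κ : ℝ} (h1 : (κ : ℂ) ∈ specC w)
    (h2 : ∀ β : ℝ, 0 < β → (κ : ℂ) + β * I ∉ specC w) : (κ : ℂ) ∈ spectrum ℂ h.D := by
  by_contra hcon
  rw [spectrum.notMem_iff] at hcon
  obtain ⟨u, hu⟩ := hcon
  -- solve (D - κ) V = w
  set G : ESpace σ w := -((↑u⁻¹ : ESpace σ w →L[ℂ] ESpace σ w) h.W) with hG
  have hGeq : h.D G - (κ : ℂ) • G = h.W := by
    have e1 : (u : ESpace σ w →L[ℂ] ESpace σ w) (-G) = h.W := by
      rw [hG, neg_neg, ← mul_apply_eq_comp, Units.mul_inv]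
      simp
    rw [hu] at e1
    rw [← e1]
    simp [Algebra.algebraMap_eq_smul_one]
    abel
  have hGde : ∀ z, deriv G z = κ * G z + w z := by
    intro z
    have := congrArg (fun f : ESpace σ w => f z) hGeq
    simp only [ESpace.sub_apply, ESpace.smul_apply, D_apply, W_apply] at this
    linear_combination this
  set M := ‖G‖ + 1 with hM
  have hMpos : 0 < M := by positivity
  obtain ⟨C0, hC0⟩ := h1
  set C := max C0 1 with hCdef
  have hC : 0 < C := lt_of_lt_of_le one_pos (le_max_right _ _)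
  set β := 1 / (24 * M) with hβdef
  have hβ : 0 < β := by positivity
  obtain ⟨z1, r, hr1, hr2, hflat⟩ := h.flat_disc (κ := κ) hβ hC (by
      intro R hR
      obtain ⟨x, hx⟩ := hC0 R hR
      refine ⟨x, fun s y a1 a2 a3 => ?_⟩
      have := hx s y a1 a2 a3
      simp only [ofReal_re, ofReal_im, abs_zero, zero_mul, add_zero] at this
      refine this.trans ?_
      gcongr
      exact le_max_left _ _) (by
      intro hcon
      apply h2 β hβ
      refine ⟨C * Real.exp 1, fun R hR => ?_⟩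
      obtain ⟨x, hx⟩ := hcon R hR
      refine ⟨x, fun s y a1 a2 a3 => ?_⟩
      have := hx s y a1 a2 a3
      simpa [abs_of_pos hβ] using this)
  have hrpos : 0 < r := lt_trans (by positivity) hr1
  have hin : ∀ z ∈ ball z1 r, 0 < z.im := by
    intro z hz
    rw [mem_ball, dist_eq_norm] at hz
    have e1 : |(z - z1).im| < r := (abs_im_le_norm _).trans_lt hz
    rw [Complex.sub_im, abs_lt] at e1
    linarith [e1.1]
  -- the quotient
  set V : ℂ → ℂ := fun z => G z / w z with hV
  have hVle : ∀ z, 0 < z.im → ‖V z‖ ≤ M := by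
    intro z hz
    have e1 := h.app_le G z
    rw [fold_of_nonneg hz.le] at e1
    rw [hV]
    simp only [norm_div]
    rw [div_le_iff₀ (h.norm_pos hz.le)]
    refine e1.trans ?_
    gcongr
    rw [hM]; linarith
  have hVd : ∀ z ∈ ball z1 r,
      HasDerivAt (fun z => V z - z) (((κ : ℂ) - deriv w z / w z) * V z) z := by
    intro z hz
    have hne := h.nz z (hin z hz)
    have e1 := (((G.diff z).hasDerivAt.div (h.diff z).hasDerivAt hne).sub (hasDerivAt_id z))
    have e2 : (deriv G z * w z - G z * deriv w z) / w z ^ 2 - 1 =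
        ((κ : ℂ) - deriv w z / w z) * V z := by
      rw [hGde, hV]
      simp only
      field_simp
      ring
    rw [← e2]
    exact e1
  have hmv := (convex_ball z1 r).norm_image_sub_le_of_norm_hasDerivWithin_le
    (f := fun z => V z - z) (f' := fun z => ((κ : ℂ) - deriv w z / w z) * V z) (C := 1 / 2)
    (fun z hz => (hVd z hz).hasDerivWithinAt) (by
      intro z hz
      rw [norm_mul]
      calc ‖(κ : ℂ) - deriv w z / w z‖ * ‖V z‖ ≤ (12 * β) * M := by
            apply mul_le_mul (hflat z hz) (hVle z (hin z hz)) (norm_nonneg _) (by positivity)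
        _ = 1 / 2 := by rw [hβdef]; field_simp; norm_num)
    (mem_ball_self hrpos) (y := z1 + ((r / 2 : ℝ) : ℂ)) (by
      rw [mem_ball, dist_eq_norm, add_sub_cancel_left, norm_real, Real.norm_eq_abs,
        abs_of_pos (by positivity)]
      linarith)
  set z2 : ℂ := z1 + ((r / 2 : ℝ) : ℂ) with hz2
  have hz2b : z2 ∈ ball z1 r := by
    rw [mem_ball, dist_eq_norm, hz2, add_sub_cancel_left, norm_real, Real.norm_eq_abs,
        abs_of_pos (by positivity)]
    linarith
  have e1 : ‖z2 - z1‖ = r / 2 := by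
    rw [hz2, add_sub_cancel_left, norm_real, Real.norm_eq_abs, abs_of_pos (by positivity)]
  rw [e1] at hmv
  have e2 : ‖z2 - z1‖ ≤ ‖V z2‖ + ‖V z1‖ + ‖V z2 - z2 - (V z1 - z1)‖ := by
    have : z2 - z1 = V z2 - V z1 - (V z2 - z2 - (V z1 - z1)) := by ring
    calc ‖z2 - z1‖ = ‖V z2 - V z1 - (V z2 - z2 - (V z1 - z1))‖ := by rw [← this]
      _ ≤ ‖V z2 - V z1‖ + ‖V z2 - z2 - (V z1 - z1)‖ := norm_sub_le _ _
      _ ≤ _ := by
        have := norm_sub_le (V z2) (V z1)
        linarith
  rw [e1] at e2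
  have e3 := hVle z1 (hin z1 (mem_ball_self hrpos))
  have e4 := hVle z2 (hin z2 hz2b)
  have e5 : 1 / (2 * β) = 12 * M := by rw [hβdef]; field_simp; norm_num
  rw [e5] at hr1
  linarith

end Wt

end Pool.Agent.Helper63.Levin
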