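import Mathlib

/-!
Analytic tools: Harnack and gradient estimates for zero-free holomorphic functions on discs,
a Phragmen-Lindelof principle in the upper half-plane and a Gronwall estimate.
-/

namespace Pool.Agent.Helper63.Levin

open Metric Set Complex Filter Topology

/-- A zero-free holomorphic function on a disc has a holomorphic logarithm. -/
lemma exists_log_ball {w : ℂ → ℂ} {c : ℂ} {r : ℝ} (hr : 0 < r)
    (hd : DifferentiableOn ℂ w (ball c r)) (h0 : ∀ z ∈ ball c r, w z ≠ 0) :
    ∃ g : ℂ → ℂ, DifferentiableOn ℂ g (ball c r) ∧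
      (∀ z ∈ ball c r, HasDerivAt g (deriv w z / w z) z) ∧
      ∀ z ∈ ball c r, w z = Complex.exp (g z) := by
  have hd' : DifferentiableOn ℂ (fun z => deriv w z / w z) (ball c r) :=
    (hd.deriv isOpen_ball).div hd h0
  obtain ⟨g, hg0, hg⟩ := (hd'.isExactOn_ball).with_val_at c (Complex.log (w c))
  have hgd : DifferentiableOn ℂ g (ball c r) :=
    fun z hz => (hg z hz).differentiableAt.differentiableWithinAt
  refine ⟨g, hgd, hg, ?_⟩
  have hder : ∀ z ∈ ball c r, HasDerivAt (fun z => w z * Complex.exp (-g z)) 0 z := by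
    intro z hz
    have h1 : HasDerivAt w (deriv w z) z :=
      ((hd z hz).differentiableAt (isOpen_ball.mem_nhds hz)).hasDerivAt
    have h2 : HasDerivAt (fun z => Complex.exp (-g z))
        (Complex.exp (-g z) * (-(deriv w z / w z))) z := (hg z hz).neg.cexp
    have h3 := h1.mul h2
    have h4 : w z * (deriv w z / w z) = deriv w z := mul_div_cancel₀ _ (h0 z hz)
    have h5 : deriv w z * Complex.exp (-g z) +
        w z * (Complex.exp (-g z) * (-(deriv w z / w z))) = 0 := by
      linear_combination -Complex.exp (-g z) * h4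
    rw [h5] at h3
    exact h3
  have hconst : ∀ z ∈ ball c r, w z * Complex.exp (-g z) = w c * Complex.exp (-g c) := by
    intro z hz
    have hc : c ∈ ball c r := mem_ball_self hr
    have hdiff : DifferentiableOn ℂ (fun z => w z * Complex.exp (-g z)) (ball c r) :=
      fun u hu => (hder u hu).differentiableAt.differentiableWithinAt
    refine (convex_ball c r).is_const_of_fderivWithin_eq_zero (𝕜 := ℂ) hdiff ?_ hz hc
    intro u hu
    rw [fderivWithin_of_isOpen isOpen_ball hu]
    have := (hder u hu).hasFDerivAt.fderiv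
    rw [this]
    ext
    simp
  intro z hz
  have h4 := hconst z hz
  have hwc : w c ≠ 0 := h0 c (mem_ball_self hr)
  have h5 : w c * Complex.exp (-g c) = 1 := by
    rw [hg0, Complex.exp_neg, Complex.exp_log hwc, mul_inv_cancel₀ hwc]
  rw [h5, Complex.exp_neg] at h4
  have h6 := Complex.exp_ne_zero (g z)
  field_simp at h4
  exact h4

/-- The Schwarz lemma in the form used for Harnack inequalities. -/
lemma schwarz_half {f : ℂ → ℂ} {c : ℂ} {r N : ℝ} (hN : 0 < N)
    (hf : DifferentiableOn ℂ f (ball c r)) (hf1 : ∀ z ∈ ball c r, (f z).re ≤ N)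
    (hf2 : f c = 0) {z : ℂ} (hz : z ∈ ball c r) :
    ‖f z‖ ≤ dist z c / r * ‖2 * (N : ℂ) - f z‖ := by
  have hne : ∀ x ∈ ball c r, 2 * (N : ℂ) - f x ≠ 0 := by
    intro x hx h
    have h1 := hf1 x hx
    have h2 := congrArg Complex.re h
    simp at h2
    linarith
  have hle : ∀ x ∈ ball c r, ‖f x‖ ≤ ‖2 * (N : ℂ) - f x‖ := by
    intro x hx
    have h1 := hf1 x hx
    rw [← sq_le_sq₀ (norm_nonneg _) (norm_nonneg _)]
    simp only [Complex.sq_norm, Complex.normSq_apply]
    simp
    nlinarith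
  have key := dist_le_div_mul_dist_of_mapsTo_ball (f := fun x => f x / (2 * (N : ℂ) - f x))
    (c := c) (R₁ := r) (R₂ := 1) (z := z) (hf.div (hf.const_sub _) hne) (by
      intro x hx
      simp only [hf2, zero_div, mem_closedBall, dist_zero_right, norm_div]
      exact div_le_one_of_le₀ (hle x hx) (norm_nonneg _)) hz
  simp only [hf2, zero_div, dist_zero_right, norm_div] at key
  have hpos : 0 < ‖2 * (N : ℂ) - f z‖ := norm_pos_iff.2 (hne z hz)
  rw [div_le_iff₀ hpos] at key
  calc ‖f z‖ ≤ 1 / r * dist z c * ‖2 * (N : ℂ) - f z‖ := key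
    _ = dist z c / r * ‖2 * (N : ℂ) - f z‖ := by ring

/-- Harnack and gradient estimates for a zero-free bounded function on a disc. -/
lemma zero_free_estimates {w : ℂ → ℂ} {c : ℂ} {r M : ℝ} (hr : 0 < r)
    (hd : DifferentiableOn ℂ w (ball c r)) (h0 : ∀ z ∈ ball c r, w z ≠ 0)
    (hM : ∀ z ∈ ball c r, ‖w z‖ ≤ M) :
    ‖deriv w c / w c‖ ≤ 2 * (Real.log M - Real.log ‖w c‖) / r ∧
    ∀ z ∈ ball c r,
      (r - dist z c) * (Real.log M - Real.log ‖w c‖) ≤
        (r + dist z c) * (Real.log M - Real.log ‖w z‖) ∧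
      (r - dist z c) * (Real.log M - Real.log ‖w z‖) ≤
        (r + dist z c) * (Real.log M - Real.log ‖w c‖) := by
  obtain ⟨g, hgd, hg, hgw⟩ := exists_log_ball hr hd h0
  have hcb : c ∈ ball c r := mem_ball_self hr
  have hlog : ∀ z ∈ ball c r, Real.log ‖w z‖ = (g z).re := by
    intro z hz
    rw [hgw z hz, Complex.norm_exp, Real.log_exp]
  have hMpos : 0 < M := lt_of_lt_of_le (norm_pos_iff.2 (h0 c hcb)) (hM c hcb)
  have hre : ∀ z ∈ ball c r, (g z).re ≤ Real.log M := by
    intro z hz
    rw [← hlog z hz]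
    exact Real.log_le_log (norm_pos_iff.2 (h0 z hz)) (hM z hz)
  set N := Real.log M - Real.log ‖w c‖ with hNdef
  have hN0 : 0 ≤ N := by
    rw [hNdef, hlog c hcb]
    linarith [hre c hcb]
  -- main estimate for every larger constant
  have main : ∀ e > 0, ∀ z ∈ ball c r,
      ‖g z - g c‖ ≤ dist z c / r * ‖2 * ((N + e : ℝ) : ℂ) - (g z - g c)‖ := by
    intro e he z hz
    have hf : DifferentiableOn ℂ (fun z => g z - g c) (ball c r) := hgd.sub_const _
    refine schwarz_half (f := fun z => g z - g c) (by linarith) hf ?_ (by simp) hz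
    intro x hx
    have h1 := hre x hx
    have h2 := hlog c hcb
    simp only [Complex.sub_re]
    rw [hNdef]
    linarith
  have main0 : ∀ z ∈ ball c r,
      ‖g z - g c‖ ≤ dist z c / r * ‖2 * (N : ℂ) - (g z - g c)‖ := by
    intro z hz
    have hcont : Tendsto (fun e : ℝ => dist z c / r * ‖2 * ((N + e : ℝ) : ℂ) - (g z - g c)‖)
        (𝓝[>] 0) (𝓝 (dist z c / r * ‖2 * ((N + 0 : ℝ) : ℂ) - (g z - g c)‖)) := by
      apply Tendsto.mono_left _ nhdsWithin_le_nhds
      apply Continuous.tendsto
      fun_prop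
    have := ge_of_tendsto hcont (by
      filter_upwards [self_mem_nhdsWithin] with e he
      exact main e he z hz)
    simpa using this
  have harn : ∀ z ∈ ball c r,
      (r - dist z c) * N ≤ (r + dist z c) * (Real.log M - Real.log ‖w z‖) ∧
      (r - dist z c) * (Real.log M - Real.log ‖w z‖) ≤ (r + dist z c) * N := by
    intro z hz
    have h1 := main0 z hz
    set u := Real.log M - Real.log ‖w z‖ with hu
    have hu0 : 0 ≤ u := by
      rw [hu, hlog z hz]; linarith [hre z hz]
    have hre1 : (g z - g c).re = N - u := by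
      simp only [Complex.sub_re]
      rw [hNdef, hu, hlog z hz, hlog c hcb]; ring
    have hdz : dist z c < r := hz
    have hd0 : 0 ≤ dist z c := dist_nonneg
    have h2 : r * ‖g z - g c‖ ≤ dist z c * ‖2 * (N : ℂ) - (g z - g c)‖ := by
      have := mul_le_mul_of_nonneg_left h1 hr.le
      calc r * ‖g z - g c‖ ≤ r * (dist z c / r * ‖2 * (N : ℂ) - (g z - g c)‖) := this
        _ = dist z c * ‖2 * (N : ℂ) - (g z - g c)‖ := by field_simp
    have h3 : r ^ 2 * ‖g z - g c‖ ^ 2 ≤ dist z c ^ 2 * ‖2 * (N : ℂ) - (g z - g c)‖ ^ 2 := by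
      have := pow_le_pow_left₀ (by positivity) h2 2
      simpa [mul_pow] using this
    rw [Complex.sq_norm, Complex.sq_norm, Complex.normSq_apply, Complex.normSq_apply] at h3
    have him : (2 * (N : ℂ) - (g z - g c)).im = -(g z - g c).im := by simp
    have hre2 : (2 * (N : ℂ) - (g z - g c)).re = N + u := by
      have : (2 * (N : ℂ) - (g z - g c)).re = 2 * N - (g z - g c).re := by simp
      rw [this, hre1]; ring
    rw [him, hre2, hre1] at h3
    set b := (g z - g c).im
    have h4 : (r * (N - u)) ^ 2 ≤ (dist z c * (N + u)) ^ 2 := by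
      have : 0 ≤ (r ^ 2 - dist z c ^ 2) * b ^ 2 := by
        apply mul_nonneg _ (sq_nonneg _)
        nlinarith
      nlinarith
    have h5 : |r * (N - u)| ≤ dist z c * (N + u) := by
      apply abs_le_of_sq_le_sq h4 (by positivity)
    rw [abs_le] at h5
    constructor <;> nlinarith [h5.1, h5.2]
  refine ⟨?_, harn⟩
  -- gradient estimate
  have hgc := hg c hcb
  rw [hasDerivAt_iff_tendsto_slope] at hgc
  have hle : ∀ᶠ z in 𝓝[≠] c, ‖slope g c z‖ ≤ 2 * N / (r - dist z c) := by
    have hmem : ball c r ∈ 𝓝[≠] c := nhdsWithin_le_nhds (ball_mem_nhds c hr)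
    filter_upwards [hmem, self_mem_nhdsWithin] with z hz hne
    have h1 := main0 z hz
    have hdz : dist z c < r := hz
    have hpos : 0 < dist z c := dist_pos.2 hne
    have h2 : ‖2 * (N : ℂ) - (g z - g c)‖ ≤ 2 * N + ‖g z - g c‖ := by
      calc ‖2 * (N : ℂ) - (g z - g c)‖ ≤ ‖2 * (N : ℂ)‖ + ‖g z - g c‖ := norm_sub_le _ _
        _ = 2 * N + ‖g z - g c‖ := by
          simp [abs_of_nonneg hN0]
    have h3 : ‖g z - g c‖ * (r - dist z c) ≤ dist z c * (2 * N) := by
      have h4 : ‖g z - g c‖ ≤ dist z c / r * (2 * N + ‖g z - g c‖) :=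
        h1.trans (mul_le_mul_of_nonneg_left h2 (by positivity))
      have h5 : r * ‖g z - g c‖ ≤ dist z c * (2 * N + ‖g z - g c‖) := by
        calc r * ‖g z - g c‖ ≤ r * (dist z c / r * (2 * N + ‖g z - g c‖)) :=
              mul_le_mul_of_nonneg_left h4 hr.le
          _ = _ := by field_simp
      nlinarith
    rw [slope_def_field, norm_div, ← dist_eq_norm z c, div_le_div_iff₀ hpos (by linarith)]
    nlinarith
  have hlim : Tendsto (fun z => 2 * N / (r - dist z c)) (𝓝[≠] c) (𝓝 (2 * N / (r - dist c c))) := by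
    apply Tendsto.mono_left _ nhdsWithin_le_nhds
    apply ContinuousAt.tendsto
    apply ContinuousAt.div continuousAt_const (by fun_prop)
    simp [hr.ne']
  have := le_of_tendsto_of_tendsto hgc.norm hlim hle
  simpa using this

/-- A Gronwall estimate along segments. -/
lemma gronwall_segment {w : ℂ → ℂ} {K : ℝ} {a b : ℂ}
    (hd : ∀ t : ℝ, 0 ≤ t → t ≤ 1 → DifferentiableAt ℂ w (a + t * (b - a)))
    (hK : ∀ t : ℝ, 0 ≤ t → t ≤ 1 → ‖deriv w (a + t * (b - a))‖ ≤ K * ‖w (a + t * (b - a))‖) :
    ‖w b‖ ≤ Real.exp (K * ‖b - a‖) * ‖w a‖ := by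
  set f : ℝ → ℂ := fun t => w (a + t * (b - a)) with hf
  have hder : ∀ t : ℝ, 0 ≤ t → t ≤ 1 →
      HasDerivAt f (deriv w (a + t * (b - a)) * (b - a)) t := by
    intro t h1 h2
    have h3 : HasDerivAt (fun t : ℝ => a + (t : ℂ) * (b - a)) (b - a) t := by
      have := ((hasDerivAt_id (t : ℂ)).comp_ofReal.mul_const (b - a)).const_add a
      simpa using this
    exact HasDerivAt.comp_of_eq t ((hd t h1 h2).hasDerivAt) h3 rfl
  have key := norm_le_gronwallBound_of_norm_deriv_right_le (f := f)
    (f' := fun t => deriv w (a + t * (b - a)) * (b - a)) (δ := ‖w a‖) (K := K * ‖b - a‖)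
    (ε := 0) (a := 0) (b := 1)
    (fun t ht => (hder t ht.1 ht.2).continuousAt.continuousWithinAt)
    (fun t ht => (hder t ht.1 ht.2.le).hasDerivWithinAt)
    (by simp [hf])
    (by
      intro t ht
      have := hK t ht.1 ht.2.le
      rw [norm_mul, hf]
      simp only
      nlinarith [norm_nonneg (b - a)])
    1 (by simp)
  rw [gronwallBound_ε0] at key
  have h1 : f 1 = w b := by simp [hf]
  rw [h1] at key
  simp only [sub_zero, mul_one] at key
  linarith

end Pool.Agent.Helper63.Levin
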