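import Pool.Agent.Helper63.Levin.Dom

/-!
A two-constants estimate in the upper half-plane with a removed disc.
-/

namespace Pool.Agent.Helper63.Levin

open Metric Set Complex Filter Topology Bornology
open scoped ComplexConjugate

lemma two_const {Q : ℂ → ℂ} {z1 : ℂ} {s b : ℝ} {n : ℕ}
    (hd : ∀ z : ℂ, 0 ≤ z.im → DifferentiableAt ℂ Q z)
    (h1 : ∀ z : ℂ, 0 ≤ z.im → ‖Q z‖ ≤ 1) (hs : 0 < s)
    (hz1 : 0 < z1.im)
    (hb : ∀ z : ℂ, 0 ≤ z.im → ‖z - z1‖ = s → ‖Q z‖ ≤ b)
    (hbn : b * (1 + 2 * z1.im / s) ^ n ≤ 1) :
    ∀ u : ℂ, 0 < u.im → s < ‖u - z1‖ → ‖Q u‖ * (‖u - conj z1‖ / ‖u - z1‖) ^ n ≤ 1 := by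
  intro u hu hus
  -- estimate with a large radius
  have main : ∀ R : ℝ, ‖u‖ < R → ‖z1‖ < R →
      ‖Q u‖ * (‖u - conj z1‖ / ‖u - z1‖) ^ n ≤ ((R + ‖z1‖) / (R - ‖z1‖)) ^ n := by
    intro R huR hzR
    set S : Set ℂ := {v : ℂ | ‖v‖ < R ∧ 0 < v.im ∧ s < ‖v - z1‖} with hS
    have hSopen : IsOpen S := by
      apply IsOpen.inter (isOpen_lt continuous_norm continuous_const)
      apply IsOpen.inter (isOpen_lt continuous_const continuous_im)
      exact isOpen_lt continuous_const (continuous_id.sub continuous_const).norm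
    have hScl : closure S ⊆ {v : ℂ | ‖v‖ ≤ R ∧ 0 ≤ v.im ∧ s ≤ ‖v - z1‖} := by
      apply closure_minimal
      · intro v hv
        exact ⟨hv.1.le, hv.2.1.le, hv.2.2.le⟩
      · apply IsClosed.inter (isClosed_le continuous_norm continuous_const)
        apply IsClosed.inter (isClosed_le continuous_const continuous_im)
        exact isClosed_le continuous_const (continuous_id.sub continuous_const).norm
    have hbdd : IsBounded S := by
      apply isBounded_ball.subset (_ : S ⊆ ball (0 : ℂ) R)
      intro v hv
      simpa using hv.1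
    have hR1 : 1 ≤ ((R + ‖z1‖) / (R - ‖z1‖)) ^ n := by
      apply one_le_pow₀
      rw [le_div_iff₀ (by linarith)]
      linarith [norm_nonneg z1]
    have key := norm_le_of_forall_mem_frontier_norm_le (U := S) hbdd
      (f := fun v => Q v * ((v - conj z1) / (v - z1)) ^ n)
      (C := ((R + ‖z1‖) / (R - ‖z1‖)) ^ n) ?_ ?_ (subset_closure (⟨huR, hu, hus⟩ : u ∈ S))
    · rw [norm_mul, norm_pow, norm_div] at key
      exact key
    · apply DifferentiableOn.diffContOnCl
      intro v hv
      obtain ⟨_, hv2, hv3⟩ := hScl hv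
      have hne : v - z1 ≠ 0 := by
        intro h0
        rw [h0, norm_zero] at hv3
        linarith
      exact ((hd v hv2).mul (((by fun_prop : DifferentiableAt ℂ (fun v => v - conj z1) v).div
        (by fun_prop) hne).pow n)).differentiableWithinAt
    · intro v hv
      rw [hSopen.frontier_eq] at hv
      obtain ⟨hvR, hvim, hvs⟩ := hScl hv.1
      have hvpos : 0 < ‖v - z1‖ := by linarith
      rw [norm_mul, norm_pow, norm_div]
      have hq := h1 v hvim
      -- general comparison of the two distances
      by_cases hA : ‖v‖ = R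
      · have e1 : ‖v - conj z1‖ ≤ R + ‖z1‖ := by
          have := norm_sub_le v (conj z1)
          rw [Complex.norm_conj, hA] at this
          exact this
        have e2 : R - ‖z1‖ ≤ ‖v - z1‖ := by
          have := norm_sub_norm_le v z1
          rwa [hA] at this
        calc ‖Q v‖ * (‖v - conj z1‖ / ‖v - z1‖) ^ n
            ≤ 1 * ((R + ‖z1‖) / (R - ‖z1‖)) ^ n := by
              have : 0 < R - ‖z1‖ := by linarith
              have : 0 ≤ R + ‖z1‖ := by linarith [norm_nonneg z1]
              gcongr
          _ = _ := one_mul _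
      · by_cases hB : ‖v - z1‖ = s
        · have e1 : ‖v - conj z1‖ ≤ s + 2 * z1.im := by
            have : v - conj z1 = (v - z1) + ((2 * z1.im : ℝ) : ℂ) * I := by
              apply Complex.ext <;> simp; ring
            rw [this]
            refine (norm_add_le _ _).trans ?_
            rw [hB, norm_mul, norm_real, norm_I, mul_one, Real.norm_eq_abs,
              abs_of_pos (by linarith)]
          have e2 := hb v hvim hB
          rw [hB]
          calc ‖Q v‖ * (‖v - conj z1‖ / s) ^ n ≤ b * ((s + 2 * z1.im) / s) ^ n := by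
                have : 0 ≤ b := (norm_nonneg _).trans e2
                gcongr
            _ = b * (1 + 2 * z1.im / s) ^ n := by
                congr 2
                field_simp
            _ ≤ 1 := hbn
            _ ≤ _ := hR1
        · have him0 : v.im = 0 := by
            by_contra hne
            apply hv.2
            refine ⟨lt_of_le_of_ne hvR hA, lt_of_le_of_ne hvim (Ne.symm hne),
              lt_of_le_of_ne hvs (Ne.symm hB)⟩
          have e1 : ‖v - conj z1‖ = ‖v - z1‖ := by
            have : v - conj z1 = conj (v - z1) := by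
              apply Complex.ext <;> simp [him0]
            rw [this, Complex.norm_conj]
          rw [e1, div_self hvpos.ne', one_pow, mul_one]
          exact hq.trans hR1
  have hlim : Tendsto (fun R : ℝ => ((R + ‖z1‖) / (R - ‖z1‖)) ^ n) atTop (𝓝 (1 ^ n)) := by
    apply Tendsto.pow
    have e1 : Tendsto (fun R : ℝ => 1 + 2 * ‖z1‖ / (R - ‖z1‖)) atTop (𝓝 (1 + 0)) := by
      apply Tendsto.const_add
      apply Tendsto.div_atTop tendsto_const_nhds
      exact tendsto_atTop_add_const_right _ _ tendsto_id
    rw [add_zero] at e1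
    apply e1.congr'
    filter_upwards [eventually_gt_atTop ‖z1‖] with R hR
    have : R - ‖z1‖ ≠ 0 := by linarith
    field_simp
    ring
  rw [one_pow] at hlim
  apply ge_of_tendsto hlim
  filter_upwards [eventually_gt_atTop ‖z1‖, eventually_gt_atTop ‖u‖] with R hR1 hR2
  exact main R hR2 hR1

end Pool.Agent.Helper63.Levin
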